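import Mathlib
import Pool.Agent.H420R3.Over
import Pool.Agent.H420R3.Gq
import Pool.Agent.W238.Leh.Canon

/-!
Local theory at the finite places above a prime: maps of projective space congruent to a power
of Frobenius contract the residue discs.
-/

set_option autoImplicit false
set_option linter.unusedSectionVars false

namespace Pool.Agent.H627.LP

open NumberField Module MvPolynomial
open Pool.Agent.W238.Leh
open Pool.Agent.H420R3 (mi nv TP ew)
open scoped Pointwise

noncomputable section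

section Local

variable {L : Type} [Field L] [NumberField L] (v : FinitePlace L) {N : ℕ}

lemma v_sub_le (x y : L) : v (x - y) ≤ max (v x) (v y) := H420R3.v_sub_le v x y

lemma v_prod_sub {ι : Type*} (s : Finset ι) (a b : ι → L) {δ : ℝ} (hδ : 0 ≤ δ)
    (ha : ∀ i ∈ s, v (a i) ≤ 1) (hb : ∀ i ∈ s, v (b i) ≤ 1) (hab : ∀ i ∈ s, v (a i - b i) ≤ δ) :
    v (∏ i ∈ s, a i - ∏ i ∈ s, b i) ≤ δ := by
  classical
  induction s using Finset.induction_on with
  | empty => simpa using hδ
  | insert j s hj ih =>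
    rw [Finset.prod_insert hj, Finset.prod_insert hj]
    have h1 := ih (fun i hi => ha i (Finset.mem_insert_of_mem hi))
      (fun i hi => hb i (Finset.mem_insert_of_mem hi))
      (fun i hi => hab i (Finset.mem_insert_of_mem hi))
    have h2 : v (∏ i ∈ s, a i) ≤ 1 := by
      rw [map_prod]
      exact Finset.prod_le_one (fun i _ => v_nonneg v _)
        fun i hi => ha i (Finset.mem_insert_of_mem hi)
    have h3 : a j * ∏ i ∈ s, a i - b j * ∏ i ∈ s, b i =
        (a j - b j) * ∏ i ∈ s, a i + b j * (∏ i ∈ s, a i - ∏ i ∈ s, b i) := by ring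
    rw [h3]
    refine (FinitePlace.add_le v _ _).trans (max_le ?_ ?_)
    · rw [map_mul]
      calc v (a j - b j) * v (∏ i ∈ s, a i) ≤ δ * 1 :=
            mul_le_mul (hab j (Finset.mem_insert_self _ _)) h2 (v_nonneg v _) hδ
        _ = δ := mul_one δ
    · rw [map_mul]
      calc v (b j) * v (∏ i ∈ s, a i - ∏ i ∈ s, b i) ≤ 1 * δ :=
            mul_le_mul (hb j (Finset.mem_insert_self _ _)) h1 (v_nonneg v _) zero_le_one
        _ = δ := one_mul δ

lemma v_pow_sub {x y : L} {δ : ℝ} (hδ : 0 ≤ δ) (hx : v x ≤ 1) (hy : v y ≤ 1)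
    (h : v (x - y) ≤ δ) (n : ℕ) : v (x ^ n - y ^ n) ≤ δ := by
  have h1 := v_prod_sub v (Finset.range n) (fun _ => x) (fun _ => y) hδ (fun _ _ => hx)
    (fun _ _ => hy) (fun _ _ => h)
  simpa using h1

variable {K : Type} [Field K] [NumberField K] [Algebra K L]

lemma eval_small {R : MvPolynomial (Fin (N + 1)) K} {ρ : ℝ} (hρ : 0 ≤ ρ)
    (hR : ∀ m, v (algebraMap K L (R.coeff m)) ≤ ρ) {z : Fin (N + 1) → L}
    (hz : ∀ i, v (z i) ≤ 1) : v (aeval z R) ≤ ρ := by
  rw [aeval_def, eval₂_eq']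
  refine v_sum_le v _ _ hρ fun s _ => ?_
  rw [map_mul, map_prod]
  have h1 : ∏ i, v (z i ^ s i) ≤ 1 := by
    refine Finset.prod_le_one (fun i _ => v_nonneg v _) fun i _ => ?_
    rw [map_pow]
    exact pow_le_one₀ (v_nonneg v _) (hz i)
  calc v (algebraMap K L (R.coeff s)) * ∏ i, v (z i ^ s i) ≤ ρ * 1 :=
        mul_le_mul (hR s) h1 (Finset.prod_nonneg fun i _ => v_nonneg v _) hρ
    _ = ρ := mul_one ρ

lemma eval_sub_small {R : MvPolynomial (Fin (N + 1)) K} {ρ δ : ℝ} (hρ : 0 ≤ ρ) (hδ : 0 ≤ δ)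
    (hR : ∀ m, v (algebraMap K L (R.coeff m)) ≤ ρ) {z w : Fin (N + 1) → L}
    (hz : ∀ i, v (z i) ≤ 1) (hw : ∀ i, v (w i) ≤ 1) (h : ∀ i, v (z i - w i) ≤ δ) :
    v (aeval z R - aeval w R) ≤ ρ * δ := by
  rw [aeval_def, aeval_def, eval₂_eq', eval₂_eq', ← Finset.sum_sub_distrib]
  refine v_sum_le v _ _ (mul_nonneg hρ hδ) fun s _ => ?_
  rw [← mul_sub, map_mul]
  refine mul_le_mul (hR s) ?_ (v_nonneg v _) hρ
  refine v_prod_sub v _ _ _ hδ (fun i _ => ?_) (fun i _ => ?_) fun i _ => ?_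
  · rw [map_pow]
    exact pow_le_one₀ (v_nonneg v _) (hz i)
  · rw [map_pow]
    exact pow_le_one₀ (v_nonneg v _) (hw i)
  · exact v_pow_sub v hδ (hz i) (hw i) (h i) _

lemma v_pow_char {p r : ℕ} (hp : p.Prime) {ρ δ : ℝ} (hpρ : v (p : L) ≤ ρ) (hρ0 : 0 ≤ ρ)
    {x y : L} (hx : v x ≤ 1) (hy : v y ≤ 1) (h : v (x - y) ≤ δ) :
    v (x ^ (p ^ r) - y ^ (p ^ r)) ≤ max (ρ * δ) (δ ^ (p ^ r)) := by
  have h1 := H420R3.v_pow_char (v := v) (r := r) hp hpρ hρ0 hx hy
  have h2 : x ^ (p ^ r) - y ^ (p ^ r) = (x ^ (p ^ r) - y ^ (p ^ r) - (x - y) ^ (p ^ r)) +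
      (x - y) ^ (p ^ r) := by ring
  rw [h2]
  refine (FinitePlace.add_le v _ _).trans (max_le_max ?_ ?_)
  · exact h1.trans (mul_le_mul_of_nonneg_left h hρ0)
  · rw [map_pow]
    exact pow_le_pow_left₀ (v_nonneg v _) h _

/-- two vectors of norm one with close coordinates -/
structure Cl (η : ℝ) (z w : Fin (N + 1) → L) : Prop where
  hz : nmf v z = 1
  hw : nmf v w = 1
  cl : ∀ i, v (z i - w i) ≤ η

variable {v}

lemma exists_nmf (z : Fin (N + 1) → L) : ∃ i, v (z i) = nmf v z := by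
  obtain ⟨i, hi⟩ := exists_eq_ciSup_of_finite (f := fun i => v (z i))
  exact ⟨i, hi⟩

lemma Cl.mono {η η' : ℝ} {z w : Fin (N + 1) → L} (h : Cl v η z w) (hη : η ≤ η') :
    Cl v η' z w := ⟨h.hz, h.hw, fun i => (h.cl i).trans hη⟩

/-- the wedge of two close vectors -/
lemma Cl.wedge {η : ℝ} {z w : Fin (N + 1) → L} (h : Cl v η z w) (i j : Fin (N + 1)) :
    v (z i * w j - z j * w i) ≤ η := by
  have h0 : 0 ≤ η := (v_nonneg v _).trans (h.cl i)
  have h1 : z i * w j - z j * w i = z j * (z i - w i) - z i * (z j - w j) := by ring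
  rw [h1]
  refine (v_sub_le v _ _).trans (max_le ?_ ?_)
  · rw [map_mul]
    calc v (z j) * v (z i - w i) ≤ 1 * η :=
          mul_le_mul ((le_nmf v z j).trans h.hz.le) (h.cl i) (v_nonneg v _) zero_le_one
      _ = η := one_mul η
  · rw [map_mul]
    calc v (z i) * v (z j - w j) ≤ 1 * η :=
          mul_le_mul ((le_nmf v z i).trans h.hz.le) (h.cl j) (v_nonneg v _) zero_le_one
      _ = η := one_mul η

lemma nmf_smul (c : L) (z : Fin (N + 1) → L) : nmf v (c • z) = v c * nmf v z := by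
  unfold nmf
  rw [Real.mul_iSup_of_nonneg (v_nonneg v c)]
  simp only [Pi.smul_apply, smul_eq_mul, map_mul]

/-- scaled version -/
lemma Cl.wedge_smul {η : ℝ} {c d : L} {z w : Fin (N + 1) → L}
    (h : Cl v η (c • z) (d • w)) (i j : Fin (N + 1)) :
    v (z i * w j - z j * w i) ≤ η * (nmf v z * nmf v w) := by
  have h1 := h.wedge i j
  have h2 := h.hz
  have h3 := h.hw
  rw [nmf_smul] at h2 h3
  have hc : 0 < v c := by
    rcases (v_nonneg v c).eq_or_lt with h0 | h0
    · rw [← h0, zero_mul] at h2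
      exact absurd h2 (by norm_num)
    · exact h0
  have hd : 0 < v d := by
    rcases (v_nonneg v d).eq_or_lt with h0 | h0
    · rw [← h0, zero_mul] at h3
      exact absurd h3 (by norm_num)
    · exact h0
  have h4 : (c • z) i * (d • w) j - (c • z) j * (d • w) i = (c * d) * (z i * w j - z j * w i) := by
    simp only [Pi.smul_apply, smul_eq_mul]
    ring
  rw [h4, map_mul, map_mul] at h1
  have h5 : v (z i * w j - z j * w i) = (v c * v d * v (z i * w j - z j * w i)) *
      (nmf v z * nmf v w) := by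
    have : v c * v d * v (z i * w j - z j * w i) * (nmf v z * nmf v w) =
        (v c * nmf v z) * (v d * nmf v w) * v (z i * w j - z j * w i) := by ring
    rw [this, h2, h3]
    ring
  rw [h5]
  exact mul_le_mul_of_nonneg_right h1 (mul_nonneg (nmf_nonneg v z) (nmf_nonneg v w))

/-- hypothesis on the reduction of the map at a place -/
structure RedN (v : FinitePlace L) (F : Fin (N + 1) → MvPolynomial (Fin (N + 1)) K) (q : ℕ)
    (ρ : ℝ) : Prop where
  pr : ∃ p r : ℕ, p.Prime ∧ q = p ^ r ∧ 1 ≤ r ∧ v (p : L) ≤ ρ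
  pos : 0 < ρ
  lt : ρ < 1
  small : ∀ i m, v (algebraMap K L ((F i - X i ^ q).coeff m)) ≤ ρ

variable {F : Fin (N + 1) → MvPolynomial (Fin (N + 1)) K} {q : ℕ} {ρ : ℝ}

lemma act_eq (i : Fin (N + 1)) (z : Fin (N + 1) → L) :
    act F z i = z i ^ q + aeval z (F i - X i ^ q) := by
  simp [act]

lemma RedN.act_sub (h : RedN v F q ρ) {z : Fin (N + 1) → L} (hz : ∀ i, v (z i) ≤ 1)
    (i : Fin (N + 1)) : v (act F z i - z i ^ q) ≤ ρ := by
  rw [act_eq (q := q), add_sub_cancel_left]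
  exact eval_small v h.pos.le (h.small i) hz

lemma RedN.act_le (h : RedN v F q ρ) {z : Fin (N + 1) → L} (hz : ∀ i, v (z i) ≤ 1)
    (i : Fin (N + 1)) : v (act F z i) ≤ 1 := by
  have h1 : act F z i = (act F z i - z i ^ q) + z i ^ q := by ring
  rw [h1]
  refine (FinitePlace.add_le v _ _).trans (max_le ((h.act_sub hz i).trans h.lt.le) ?_)
  rw [map_pow]
  exact pow_le_one₀ (v_nonneg v _) (hz i)

lemma RedN.nm_act (h : RedN v F q ρ) {z : Fin (N + 1) → L} (hz : nmf v z = 1) :
    nmf v (act F z) = 1 := by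
  have hz' : ∀ i, v (z i) ≤ 1 := fun i => (le_nmf v z i).trans hz.le
  apply le_antisymm
  · exact nmf_le fun i => h.act_le hz' i
  · obtain ⟨i, hi⟩ := exists_nmf (v := v) z
    refine le_trans ?_ (le_nmf v _ i)
    by_contra hcon
    push Not at hcon
    have h1 : z i ^ q = act F z i - (act F z i - z i ^ q) := by ring
    have h2 := v_sub_le v (act F z i) (act F z i - z i ^ q)
    rw [← h1, map_pow, hi, hz, one_pow] at h2
    have h3 : max (v (act F z i)) (v (act F z i - z i ^ q)) < 1 :=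
      max_lt hcon (lt_of_le_of_lt (h.act_sub hz' i) h.lt)
    linarith

lemma RedN.nm_iter (h : RedN v F q ρ) {z : Fin (N + 1) → L} (hz : nmf v z = 1) (n : ℕ) :
    nmf v ((act F)^[n] z) = 1 := by
  induction n with
  | zero => exact hz
  | succ n ih =>
    rw [Function.iterate_succ_apply']
    exact h.nm_act ih

/-- one step of the contraction -/
lemma RedN.step (h : RedN v F q ρ) {η : ℝ} (hη : 0 ≤ η) {z w : Fin (N + 1) → L}
    (hc : Cl v η z w) : Cl v (max (ρ * η) (η ^ q)) (act F z) (act F w) := by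
  have hz' : ∀ i, v (z i) ≤ 1 := fun i => (le_nmf v z i).trans hc.hz.le
  have hw' : ∀ i, v (w i) ≤ 1 := fun i => (le_nmf v w i).trans hc.hw.le
  refine ⟨h.nm_act hc.hz, h.nm_act hc.hw, fun i => ?_⟩
  obtain ⟨p, r, hp, hq, -, hpρ⟩ := h.pr
  rw [act_eq (q := q), act_eq (q := q)]
  have h1 : z i ^ q + aeval z (F i - X i ^ q) - (w i ^ q + aeval w (F i - X i ^ q)) =
      (z i ^ q - w i ^ q) + (aeval z (F i - X i ^ q) - aeval w (F i - X i ^ q)) := by ring
  rw [h1]
  refine (FinitePlace.add_le v _ _).trans (max_le ?_ ?_)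
  · rw [hq]
    exact v_pow_char v hp hpρ h.pos.le (hz' i) (hw' i) (hc.cl i)
  · exact (eval_sub_small v h.pos.le hη (h.small i) hz' hw' hc.cl).trans (le_max_left _ _)

lemma RedN.two_le (h : RedN v F q ρ) : 2 ≤ q := by
  obtain ⟨p, r, hp, hq, hr, -⟩ := h.pr
  rw [hq]
  calc 2 ≤ p := hp.two_le
    _ ≤ p ^ r := Nat.le_self_pow (by omega) _

/-- iterated contraction, in terms of the growth function of the depth -/
lemma RedN.iter (h : RedN v F q (Real.exp (-ρ))) {s : ℝ} (hs : 0 ≤ s)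
    {z w : Fin (N + 1) → L} (hc : Cl v (Real.exp (-(ρ * s))) z w) (n : ℕ) :
    Cl v (Real.exp (-(ρ * (H420R3.gq q)^[n] s))) ((act F)^[n] z) ((act F)^[n] w) := by
  have hρ : 0 < ρ := by
    have := h.lt
    rw [Real.exp_lt_one_iff] at this
    linarith
  induction n with
  | zero => exact hc
  | succ n ih =>
    rw [Function.iterate_succ_apply', Function.iterate_succ_apply',
      Function.iterate_succ_apply']
    set t := (H420R3.gq q)^[n] s with ht
    refine (h.step (Real.exp_pos _).le ih).mono (max_le ?_ ?_)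
    · rw [← Real.exp_add, Real.exp_le_exp]
      have h1 : H420R3.gq q t ≤ t + 1 := min_le_right _ _
      nlinarith
    · rw [← Real.exp_nat_mul, Real.exp_le_exp]
      have h1 : H420R3.gq q t ≤ q * t := min_le_left _ _
      nlinarith

end Local

end

end Pool.Agent.H627.LP
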