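import Mathlib
import Pool.Agent.H627.LP.Loc
import Pool.Agent.H420R3.EnergyN
import Pool.Agent.W238.Leh.General

/-!
Central Frobenius elements and the inertia groups.
-/

set_option autoImplicit false
set_option linter.unusedSectionVars false

namespace Pool.Agent.H627.LP

open NumberField Module MvPolynomial
open Pool.Agent.W238.Leh
open Pool.Agent.H420R3 (mi nv TP ew v_smul v_smul_int exists_frac v_lt_one_iff v_fixed_le
  card_inertia nv_pos)
open scoped Pointwise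

noncomputable section

variable {K : Type} [Field K] [NumberField K] {L : Type} [Field L] [NumberField L]
  [Algebra K L] {N : ℕ}

/-- an automorphism acts as the power `Q` on the residue field of `v` -/
def FrobAt (v : FinitePlace L) (τ : Gal(L/K)) (Q : ℕ) : Prop :=
  τ • mi v = mi v ∧ ∀ x : 𝓞 L, τ • x - x ^ Q ∈ mi v

lemma FrobAt.pow {v : FinitePlace L} {τ : Gal(L/K)} {Q : ℕ} (h : FrobAt v τ Q) (m : ℕ) :
    FrobAt v (τ ^ m) (Q ^ m) := by
  refine ⟨?_, ?_⟩
  · induction m with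
    | zero => simp
    | succ m ih => rw [pow_succ, mul_smul, h.1, ih]
  · induction m with
    | zero => simp
    | succ m ih =>
      intro x
      have h1 := h.2 (τ ^ m • x)
      have h2 : (τ ^ m • x) ^ Q - (x ^ Q ^ m) ^ Q ∈ mi v := by
        obtain ⟨c, hc⟩ := sub_dvd_pow_sub_pow (τ ^ m • x) (x ^ Q ^ m) Q
        rw [hc]
        exact (mi v).mul_mem_right _ (ih x)
      have h3 := (mi v).add_mem h1 h2
      rw [sub_add_sub_cancel, ← pow_mul, ← pow_succ, smul_smul, ← pow_succ'] at h3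
      exact h3

lemma FrobAt.conj {v w : FinitePlace L} {τ g : Gal(L/K)} {Q : ℕ} (h : FrobAt v τ Q)
    (hg : g • mi v = mi w) (hc : τ * g = g * τ) : FrobAt w τ Q := by
  refine ⟨?_, fun x => ?_⟩
  · rw [← hg, smul_smul, hc, mul_smul, h.1]
  · have h1 := h.2 (g⁻¹ • x)
    have h2 : g • (τ • (g⁻¹ • x) - (g⁻¹ • x) ^ Q) ∈ g • mi v :=
      Ideal.smul_mem_pointwise_smul_iff.mpr h1
    rw [hg, smul_sub, smul_smul, smul_smul, smul_pow', smul_inv_smul, ← hc, mul_assoc,
      mul_inv_cancel, mul_one] at h2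
    exact h2

lemma FrobAt.lt {v : FinitePlace L} {τ : Gal(L/K)} {Q : ℕ} (h : FrobAt v τ Q) {x : L}
    (hx : v x ≤ 1) : v (τ x - x ^ Q) < 1 := by
  obtain ⟨a, c, hc, rfl⟩ := exists_frac v hx
  have hc0 : (c : L) ≠ 0 := by
    rw [RingOfIntegers.coe_ne_zero_iff]
    rintro rfl
    exact hc (Submodule.zero_mem _)
  have hvc : v (c : L) = 1 := by
    apply le_antisymm (H420R3.v_le_one v c)
    by_contra h1
    push Not at h1
    exact hc ((v_lt_one_iff v c).mp h1)
  have hvt : v (τ (c : L)) = 1 := by rw [v_smul v h.1, hvc]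
  have ht0 : τ (c : L) ≠ 0 := by
    intro h0
    rw [h0, map_zero] at hvt
    norm_num at hvt
  have h1 : τ ((a : L) / c) - ((a : L) / c) ^ Q =
      (((τ (a : L) - (a : L) ^ Q) * (c : L) ^ Q - (a : L) ^ Q * (τ (c : L) - (c : L) ^ Q))) /
        (τ (c : L) * (c : L) ^ Q) := by
    rw [map_div₀, div_pow]
    field_simp
    ring
  rw [h1, map_div₀, map_mul, map_pow, hvt, hvc, one_pow, one_mul, div_one]
  have h2 : (((τ (a : L) - (a : L) ^ Q) * (c : L) ^ Q -
      (a : L) ^ Q * (τ (c : L) - (c : L) ^ Q))) =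
      (((τ • a - a ^ Q) * c ^ Q - a ^ Q * (τ • c - c ^ Q) : 𝓞 L) : L) := by
    push_cast
    rfl
  rw [h2, v_lt_one_iff]
  exact (mi v).sub_mem ((mi v).mul_mem_right _ (h.2 a)) ((mi v).mul_mem_left _ (h.2 c))

variable {P : Ideal (𝓞 K)} [hP : P.IsMaximal]

/-- a central power of Frobenius works at all places above `P` -/
theorem exists_common [IsGalois K L] (hP0 : P ≠ ⊥) (k m : ℕ)
    (hcen : ∀ σ g : Gal(L/K), σ ^ m * g = g * σ ^ m) :
    ∃ τ : Gal(L/K), (∀ g : Gal(L/K), τ * g = g * τ) ∧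
      ∀ v ∈ TP L P, FrobAt v τ ((P.absNorm ^ k) ^ m) := by
  obtain ⟨v₀, hv₀⟩ := H420R3.TP_nonempty (M := L) (P := P) hP0
  obtain ⟨τ₀, h1, h2⟩ := H420R3.exists_frob (K := K) hP0 hv₀ k
  have h3 : FrobAt v₀ τ₀ (P.absNorm ^ k) := ⟨h1, h2⟩
  refine ⟨τ₀ ^ m, fun g => hcen τ₀ g, fun v hv => ?_⟩
  have hlo := H420R3.liesOver_of_mem hP0 hv
  have hlo₀ := H420R3.liesOver_of_mem hP0 hv₀
  obtain ⟨g, hg⟩ := Ideal.exists_smul_eq_of_isGaloisGroup P (mi v₀) (mi v) Gal(L/K)
  exact (h3.pow m).conj hg (hcen τ₀ g)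

variable {F : Fin (N + 1) → MvPolynomial (Fin (N + 1)) K} {q : ℕ} {ρ : ℝ}

lemma act_gal (g : Gal(L/K)) (z : Fin (N + 1) → L) :
    act F (fun i => g (z i)) = fun i => g (act F z i) := by
  funext i
  unfold act
  have h1 : g (aeval z (F i)) = (g.toAlgHom) (aeval z (F i)) := rfl
  rw [h1, ← AlgHom.comp_apply, comp_aeval]
  rfl

lemma act_gal_iter (g : Gal(L/K)) (z : Fin (N + 1) → L) (n : ℕ) :
    (act F)^[n] (fun i => g (z i)) = fun i => g ((act F)^[n] z i) := by
  induction n with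
  | zero => rfl
  | succ n ih => rw [Function.iterate_succ_apply', ih, act_gal, Function.iterate_succ_apply']

lemma act_iter_smul (hF : ∀ i, (F i).IsHomogeneous q) (c : L) (z : Fin (N + 1) → L) (n : ℕ) :
    (act F)^[n] (c • z) = c ^ (q ^ n) • (act F)^[n] z := by
  induction n with
  | zero => simp
  | succ n ih =>
    rw [Function.iterate_succ_apply', Function.iterate_succ_apply', ih, act_smul hF, ← pow_mul,
      ← pow_succ]

lemma RedN.iter_frob {v : FinitePlace L} (h : RedN v F q ρ) {z : Fin (N + 1) → L}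
    (hz : ∀ i, v (z i) ≤ 1) (n : ℕ) :
    ∀ i, v ((act F)^[n] z i) ≤ 1 ∧ v ((act F)^[n] z i - z i ^ (q ^ n)) ≤ ρ := by
  induction n with
  | zero =>
    intro i
    simp [hz i, h.pos.le]
  | succ n ih =>
    intro i
    rw [Function.iterate_succ_apply']
    have h1 : ∀ j, v ((act F)^[n] z j) ≤ 1 := fun j => (ih j).1
    refine ⟨h.act_le h1 i, ?_⟩
    have h2 := h.act_sub h1 i
    have h3 : v ((act F)^[n] z i ^ q - (z i ^ q ^ n) ^ q) ≤ ρ := by
      refine v_pow_sub v h.pos.le (h1 i) ?_ (ih i).2 q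
      rw [map_pow]
      exact pow_le_one₀ (v_nonneg v _) (hz i)
    have h4 : act F ((act F)^[n] z) i - z i ^ q ^ (n + 1) =
        (act F ((act F)^[n] z) i - (act F)^[n] z i ^ q) +
        ((act F)^[n] z i ^ q - (z i ^ q ^ n) ^ q) := by
      rw [← pow_mul, ← pow_succ]
      ring
    rw [h4]
    exact (FinitePlace.add_le v _ _).trans (max_le h2 h3)

/-- elements of absolute value less than one -/
lemma v_le_inv_nv {v : FinitePlace L} {y : L} (hy : v y < 1) :
    v y ≤ Real.exp (-Real.log (nv v)) := by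
  obtain ⟨a, c, hc, rfl⟩ := exists_frac v hy.le
  have hvc : v (c : L) = 1 := by
    apply le_antisymm (H420R3.v_le_one v c)
    by_contra h1
    push Not at h1
    exact hc ((v_lt_one_iff v c).mp h1)
  rw [map_div₀, hvc, div_one] at hy ⊢
  have h1 := (v_lt_one_iff v a).mp hy
  have h2 := (H420R3.v_le_iff v a 1).mpr (by rwa [pow_one])
  rw [pow_one] at h2
  rwa [Real.exp_neg, Real.exp_log (nv_pos v)]

/-- the initial closeness -/
theorem init_close {v : FinitePlace L}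
    (hF : ∀ i, (F i).IsHomogeneous q) (hR : RedN v F q ρ) {m : ℕ} {τ : Gal(L/K)}
    (hfr : FrobAt v τ (q ^ m)) {z : Fin (N + 1) → L}
    (hz : z ≠ 0) {b : ℕ} (hb : (mi v).ramificationIdx (𝓞 K) ≤ b) :
    ∃ c d : L, Cl v (Real.exp (-(ew K v * (1 / (b : ℝ))))) (c • (act F)^[m] z)
      (d • fun i => τ (z i)) := by
  classical
  obtain ⟨i₀, hi₀⟩ := exists_nmf (v := v) z
  have hpos := nmf_pos v hz
  have hz0 : z i₀ ≠ 0 := by
    intro h0
    rw [h0, map_zero] at hi₀
    linarith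
  set z' : Fin (N + 1) → L := (z i₀)⁻¹ • z with hz'
  have hz'1 : nmf v z' = 1 := by
    rw [hz', nmf_smul, map_inv₀, hi₀, inv_mul_cancel₀ hpos.ne']
  have hz'le : ∀ i, v (z' i) ≤ 1 := fun i => (le_nmf v z' i).trans hz'1.le
  refine ⟨((z i₀)⁻¹) ^ (q ^ m), τ ((z i₀)⁻¹), ?_⟩
  have e1 : ((z i₀)⁻¹) ^ (q ^ m) • (act F)^[m] z = (act F)^[m] z' := by
    rw [hz', act_iter_smul hF]
  have e2 : (τ ((z i₀)⁻¹) • fun i => τ (z i)) = fun i => τ (z' i) := by
    funext i
    simp only [hz', Pi.smul_apply, smul_eq_mul, map_mul]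
  rw [e1, e2]
  refine ⟨hR.nm_iter hz'1 m, ?_, fun i => ?_⟩
  · rw [← hz'1]
    unfold nmf
    simp only [v_smul v hfr.1]
  · have h1 := (hR.iter_frob hz'le m i).2
    have h2 := hfr.lt (hz'le i)
    have h3 : v ((act F)^[m] z' i - τ (z' i)) < 1 := by
      have h4 : (act F)^[m] z' i - τ (z' i) =
          ((act F)^[m] z' i - z' i ^ q ^ m) - (τ (z' i) - z' i ^ q ^ m) := by ring
      rw [h4]
      exact lt_of_le_of_lt (v_sub_le v _ _) (max_lt (lt_of_le_of_lt h1 hR.lt) h2)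
    refine (v_le_inv_nv h3).trans ?_
    rw [Real.exp_le_exp, neg_le_neg_iff]
    have h4 := H420R3.log_nv_pos v
    have h5 := H420R3.ramIdx_pos (K := K) v
    have h6 : (0 : ℝ) < b := by exact_mod_cast lt_of_lt_of_le h5 hb
    rw [mul_one_div, div_le_iff₀ h6]
    unfold ew
    have h7 : ((mi v).ramificationIdx (𝓞 K) : ℝ) ≤ b := by exact_mod_cast hb
    rw [mul_comm]
    exact mul_le_mul_of_nonneg_left h7 h4.le

end

end Pool.Agent.H627.LP
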