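import Mathlib
import Pool.Agent.H627.LP.Frob
import Pool.Agent.H420R3.Drop

/-!
The product formula for two points, and the central theorem for maps congruent to a power of
Frobenius.
-/

set_option autoImplicit false
set_option linter.unusedSectionVars false

namespace Pool.Agent.H627.LP

open NumberField Module MvPolynomial
open Pool.Agent.W238.Leh
open Pool.Agent.H420R3 (mi nv TP ew lP lP_pos sum_ew gq)
open scoped Pointwise

noncomputable section

section Pair

variable {L : Type} [Field L] [NumberField L] {N : ℕ}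

/-- comparison with a gain at finitely many finite places -/
lemma HasGS_le_gain {a a' : InfinitePlace L → ℝ} {b b' : FinitePlace L → ℝ} {s s' c : ℝ}
    (h : HasGS a b s) (h' : HasGS a' b' s') (ha : ∀ w, a w ≤ a' w + c)
    (T : Finset (FinitePlace L)) (g : FinitePlace L → ℝ)
    (hb : ∀ v ∉ T, b v ≤ b' v) (hbT : ∀ v ∈ T, b v ≤ b' v - g v) :
    s ≤ s' + finrank ℚ L * c - ∑ v ∈ T, g v := by
  classical
  set g' : FinitePlace L → ℝ := fun v => if v ∈ T then g v else 0 with hg'
  have hfg : (Function.support g').Finite := by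
    refine (Finset.finite_toSet T).subset fun v hv => ?_
    rw [Function.mem_support] at hv
    by_contra h
    exact hv (if_neg h)
  have h1 : ∑ᶠ v, g' v = ∑ v ∈ T, g v := by
    rw [finsum_eq_sum_of_support_subset g' (s := T) (by
      intro v hv
      rw [Function.mem_support] at hv
      by_contra h
      exact hv (if_neg h))]
    exact Finset.sum_congr rfl fun v hv => if_pos hv
  have h2 : HasGS (fun _ => 0) (fun v => - g' v) (- ∑ v ∈ T, g v) := by
    refine ⟨?_, ?_⟩
    · refine hfg.subset fun v hv => ?_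
      rw [Function.mem_support] at hv ⊢
      intro h0
      exact hv (by rw [h0, neg_zero])
    · rw [finsum_neg_distrib, h1]
      simp
  have h3 := h.le (h'.add h2) (c := c) (fun w => by simpa using ha w) (fun v => by
    by_cases hv : v ∈ T
    · simp only [hg', if_pos hv]
      have := hbT v hv
      linarith
    · simp only [hg', if_neg hv, neg_zero, add_zero]
      exact hb v hv)
  linarith

/-- the product formula for two points -/
theorem pair_ineq {α β : Fin (N + 1) → L} (hα : α ≠ 0) (hβ : β ≠ 0)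
    (hne : ∀ c : L, c ≠ 0 → α ≠ c • β) (T : Finset (FinitePlace L)) (g : FinitePlace L → ℝ)
    (hT : ∀ v ∈ T, ∀ i j, v (α i * β j - α j * β i) ≤ Real.exp (-g v) * (nmf v α * nmf v β)) :
    ∑ v ∈ T, g v ≤ Height.logHeight α + Height.logHeight β + finrank ℚ L * Real.log 2 := by
  obtain ⟨i, j, hx⟩ : ∃ i j, α i * β j - α j * β i ≠ 0 := by
    by_contra hcon
    push Not at hcon
    obtain ⟨j, hj⟩ : ∃ j, β j ≠ 0 := Function.ne_iff.mp hβ
    have h1 : α = (α j / β j) • β := by
      funext i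
      have h2 := hcon i j
      simp only [Pi.smul_apply, smul_eq_mul]
      field_simp
      linear_combination h2
    have h2 : α j / β j ≠ 0 := by
      intro h0
      rw [h0, zero_smul] at h1
      exact hα h1
    exact hne _ h2 h1
  set x := α i * β j - α j * β i with hxd
  have h1 := HasGS.prod hx
  have h2 := (HasGS.height hα).add (HasGS.height hβ)
  have h3 := HasGS_le_gain h1 h2 (c := Real.log 2) (by
    intro w
    have hw : 0 < w x := InfinitePlace.pos_iff.mpr hx
    have hα' := nmi_pos w hα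
    have hβ' := nmi_pos w hβ
    have h4 : w x ≤ 2 * (nmi w α * nmi w β) := by
      have h5 : w x ≤ w (α i * β j) + w (α j * β i) := by
        rw [hxd, sub_eq_add_neg]
        refine (w.1.add_le _ _).trans (le_of_eq ?_)
        congr 1
        exact w.1.map_neg _
      rw [map_mul, map_mul] at h5
      have h6 : w (α i) * w (β j) ≤ nmi w α * nmi w β :=
        mul_le_mul (le_nmi w α i) (le_nmi w β j) (by positivity) hα'.le
      have h7 : w (α j) * w (β i) ≤ nmi w α * nmi w β :=
        mul_le_mul (le_nmi w α j) (le_nmi w β i) (by positivity) hα'.le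
      linarith
    have h5 := Real.log_le_log hw h4
    rw [Real.log_mul (by norm_num) (by positivity), Real.log_mul hα'.ne' hβ'.ne'] at h5
    linarith) T g (by
    intro v _
    have hv : 0 < v x := FinitePlace.pos_iff.mpr hx
    have hα' := nmf_pos v hα
    have hβ' := nmf_pos v hβ
    have h4 : v x ≤ nmf v α * nmf v β := by
      rw [hxd]
      refine (v_sub_le v _ _).trans (max_le ?_ ?_)
      · rw [map_mul]
        exact mul_le_mul (le_nmf v α i) (le_nmf v β j) (v_nonneg v _) hα'.le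
      · rw [map_mul]
        exact mul_le_mul (le_nmf v α j) (le_nmf v β i) (v_nonneg v _) hα'.le
    have h5 := Real.log_le_log hv h4
    rw [Real.log_mul hα'.ne' hβ'.ne'] at h5
    exact h5) (by
    intro v hvT
    have hv : 0 < v x := FinitePlace.pos_iff.mpr hx
    have hα' := nmf_pos v hα
    have hβ' := nmf_pos v hβ
    have h5 := Real.log_le_log hv (hT v hvT i j)
    rw [Real.log_mul (Real.exp_pos _).ne' (by positivity), Real.log_exp,
      Real.log_mul hα'.ne' hβ'.ne'] at h5
    linarith)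
  linarith

lemma logHeight_aut (e : L ≃+* L) (z : Fin (N + 1) → L) :
    Height.logHeight (fun i => e (z i)) = Height.logHeight z := by
  let A : Algebra L L := e.toRingHom.toAlgebra
  have h1 := @Helper259.HtExt.logHeight_ext L L _ _ _ _ A (Fin (N + 1)) _ z
  have h2 : @finrank L L _ _ A.toModule = 1 := by
    have h3 : @IsScalarTower ℚ L L _ A.toSMul _ := by
      refine @IsScalarTower.of_algebraMap_eq' ℚ L L _ _ _ _ A _ ?_
      exact Subsingleton.elim _ _
    have h4 := @finrank_mul_finrank ℚ L L _ _ _ _ A.toModule _ h3 _ _ _ _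
    have h5 : 0 < finrank ℚ L := finrank_pos
    exact Nat.eq_of_mul_eq_mul_left h5 (by rw [h4, mul_one])
  rw [h2, Nat.cast_one, one_mul] at h1
  exact h1

end Pair

lemma gq_big {q : ℕ} (hq : 2 ≤ q) {b : ℕ} (hb : 1 ≤ b) (n : ℕ) :
    1 + (n : ℝ) ≤ (gq q)^[Nat.clog q b + n] (1 / (b : ℝ)) := by
  have hq' : (2 : ℝ) ≤ q := by exact_mod_cast hq
  have hb' : (1 : ℝ) ≤ b := by exact_mod_cast hb
  have h0 : (1 : ℝ) ≤ (gq q)^[Nat.clog q b] (1 / (b : ℝ)) := by
    refine le_trans ?_ (H420R3.gq_iter_min hq (by positivity) _)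
    refine le_min ?_ le_rfl
    have h1 : b ≤ q ^ Nat.clog q b := Nat.le_pow_clog (by omega) b
    have h2 : (b : ℝ) ≤ (q : ℝ) ^ Nat.clog q b := by exact_mod_cast h1
    rw [mul_one_div, le_div_iff₀ (by linarith), one_mul]
    exact h2
  induction n with
  | zero => simpa using h0
  | succ n ih =>
    rw [← add_assoc, Function.iterate_succ_apply']
    set s := (gq q)^[Nat.clog q b + n] (1 / (b : ℝ))
    have hn : (0 : ℝ) ≤ n := by positivity
    push_cast
    unfold gq
    refine le_min ?_ ?_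
    · nlinarith
    · linarith

lemma pow_clog_le {q : ℕ} (hq : 2 ≤ q) {b : ℕ} (hb : 1 ≤ b) : q ^ Nat.clog q b ≤ q * b := by
  rcases Nat.lt_or_ge 1 b with h | h
  · have h1 := Nat.pow_pred_clog_lt_self (b := q) (by omega) h
    have h2 : 0 < Nat.clog q b := Nat.clog_pos (by omega) h
    obtain ⟨t, ht⟩ : ∃ t, Nat.clog q b = t + 1 := ⟨Nat.clog q b - 1, by omega⟩
    rw [ht] at h1 ⊢
    simp only [Nat.pred_eq_sub_one, Nat.add_sub_cancel] at h1
    rw [pow_succ']
    exact Nat.mul_le_mul_left _ h1.le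
  · have : b = 1 := by omega
    subst this
    simp only [Nat.clog_one_right, pow_zero, mul_one]
    omega

variable {K : Type} [Field K] [NumberField K] {N : ℕ}

/-- a tuple of forms of degree `q = |k|^k'` congruent to `X_i ^ q` modulo `P` -/
structure GoodN (P : Ideal (𝓞 K)) (F : Fin (N + 1) → MvPolynomial (Fin (N + 1)) K) (q : ℕ) :
    Prop where
  hom : ∀ i, (F i).IsHomogeneous q
  pow : ∃ k, 1 ≤ k ∧ q = P.absNorm ^ k
  red : ∀ i m, ∃ c ∈ P, (F i - X i ^ q).coeff m = ((c : 𝓞 K) : K)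

variable {L : Type} [Field L] [NumberField L] [Algebra K L]
variable {P : Ideal (𝓞 K)} [hP : P.IsMaximal]
variable {F : Fin (N + 1) → MvPolynomial (Fin (N + 1)) K} {q : ℕ}

lemma GoodN.red_at (h : GoodN P F q) (hP0 : P ≠ ⊥) {v : FinitePlace L} (hv : v ∈ TP L P) :
    RedN v F q (Real.exp (-ew K v)) where
  pr := by
    obtain ⟨k, hk, hq⟩ := h.pow
    let : Field (𝓞 K ⧸ P) := Ideal.Quotient.field P
    have hfin : Finite (𝓞 K ⧸ P) := Ideal.finiteQuotientOfFreeOfNeBot P hP0
    let : Fintype (𝓞 K ⧸ P) := Fintype.ofFinite _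
    have hcard : Ideal.absNorm P = Fintype.card (𝓞 K ⧸ P) := by
      rw [Ideal.absNorm_apply, Submodule.cardQuot_apply, Nat.card_eq_fintype_card]
    obtain ⟨p, hp⟩ := CharP.exists (𝓞 K ⧸ P)
    obtain ⟨n, hpp, hn⟩ := FiniteField.card (𝓞 K ⧸ P) p
    refine ⟨p, n * k, hpp, ?_, Nat.mul_pos n.pos hk, ?_⟩
    · rw [hq, hcard, hn, ← pow_mul]
    · have h1 : (p : 𝓞 K) ∈ P := by
        rw [← Ideal.Quotient.eq_zero_iff_mem, map_natCast]
        exact CharP.cast_eq_zero _ p
      have h2 := H420R3.v_le_of_mem_P hP0 hv h1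
      rwa [map_natCast] at h2
  pos := Real.exp_pos _
  lt := by
    rw [Real.exp_lt_one_iff]
    linarith [H420R3.ew_pos (K := K) v]
  small := fun i m => by
    obtain ⟨c, hc, hcm⟩ := h.red i m
    rw [hcm]
    exact H420R3.v_le_of_mem_P hP0 hv hc

/-- the orbit of the point is infinite -/
def Wnd (F : Fin (N + 1) → MvPolynomial (Fin (N + 1)) K) (z : Fin (N + 1) → L) : Prop :=
  ¬ ∃ m n : ℕ, m ≠ n ∧ ∃ c : L, c ≠ 0 ∧ (act F)^[n] z = c • (act F)^[m] z

/-- different iterates are not conjugate -/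
lemma Wnd.ne (hF : ∀ i, (F i).IsHomogeneous q) {z : Fin (N + 1) → L} (hw : Wnd F z)
    (τ : Gal(L/K)) {m : ℕ} (hm : 1 ≤ m) (t : ℕ) {c : L} (hc : c ≠ 0) :
    (act F)^[t] ((act F)^[m] z) ≠ c • fun i => τ ((act F)^[t] z i) := by
  intro h
  set u := (act F)^[t] z with hu
  have h1 : (act F)^[m] u = c • fun i => τ (u i) := by
    rw [← h, hu, ← Function.iterate_add_apply, ← Function.iterate_add_apply, Nat.add_comm m t]
  have h2 : ∀ k : ℕ, ∃ d : L, d ≠ 0 ∧ (act F)^[m * k] u = d • fun i => (τ ^ k) (u i) := by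
    intro k
    induction k with
    | zero => exact ⟨1, one_ne_zero, by simp⟩
    | succ k ih =>
      obtain ⟨d, hd, h3⟩ := ih
      refine ⟨d ^ (q ^ m) * (τ ^ k) c, mul_ne_zero (pow_ne_zero _ hd)
        ((map_ne_zero (τ ^ k)).mpr hc), ?_⟩
      rw [Nat.mul_succ, Nat.add_comm (m * k) m, Function.iterate_add_apply, h3,
        act_iter_smul hF, act_gal_iter, h1]
      funext i
      simp only [Pi.smul_apply, smul_eq_mul, map_mul]
      rw [pow_succ, AlgEquiv.mul_apply, mul_assoc]
  obtain ⟨n, hn, hn'⟩ := (isOfFinOrder_of_finite τ).exists_pow_eq_one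
  obtain ⟨d, hd, h3⟩ := h2 n
  rw [hn'] at h3
  apply hw
  refine ⟨t, m * n + t, ?_, d, hd, ?_⟩
  · have : 0 < m * n := Nat.mul_pos hm hn
    omega
  · rw [Function.iterate_add_apply, ← hu, h3]
    rfl

/-- the constant -/
def n0 (P : Ideal (𝓞 K)) (A : ℝ) (a B : ℕ) : ℕ :=
  ⌈(B : ℝ) * (2 * hC A a + Real.log 2 + 1) / lP P⌉₊

/-- the core theorem, for maps congruent to a power of Frobenius -/
theorem GoodN.core (h : GoodN P F q) (hP0 : P ≠ ⊥) {A : ℝ} {a : ℕ} (hB : Bds F q A a)
    {m : ℕ} (hm : 1 ≤ m) {τ : Gal(L/K)} {T : Finset (FinitePlace L)} (hT : T ⊆ TP L P)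
    (hfr : ∀ v ∈ T, FrobAt v τ (q ^ m)) {B : ℕ}
    (hTB : (finrank K L : ℝ) * Real.log P.absNorm ≤ B * ∑ v ∈ T, ew K v)
    {z : Fin (N + 1) → L} (hz : z ≠ 0) (hw : Wnd F z) {b : ℕ}
    (hram : ∀ v ∈ T, (mi v).ramificationIdx (𝓞 K) ≤ b) :
    1 / (2 * (q : ℝ) ^ (m + 1 + n0 P A a B) * b) ≤ canH F q z := by
  have hlP := lP_pos hP0
  have hD := finrank_pos' (L := L)
  have hDK := finrank_pos' (L := K)
  have hdeg : (finrank ℚ L : ℝ) = finrank ℚ K * finrank K L := by
    exact_mod_cast (finrank_mul_finrank ℚ K L).symm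
  have e3 : (finrank K L : ℝ) * Real.log P.absNorm = finrank ℚ L * lP P := by
    unfold lP
    rw [hdeg]
    field_simp
  rw [e3] at hTB
  have hBpos : (0 : ℝ) < B := by
    rcases Nat.eq_zero_or_pos B with h0 | h0
    · rw [h0, Nat.cast_zero, zero_mul] at hTB
      have : 0 < (finrank ℚ L : ℝ) * lP P := by positivity
      linarith
    · exact_mod_cast h0
  have hTne : T.Nonempty := by
    rw [Finset.nonempty_iff_ne_empty]
    intro h0
    rw [h0, Finset.sum_empty, mul_zero] at hTB
    have : 0 < (finrank ℚ L : ℝ) * lP P := by positivity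
    linarith
  obtain ⟨v₀, hv₀⟩ := hTne
  have hq : 2 ≤ q := (h.red_at hP0 (hT hv₀)).two_le
  have hq' : (2 : ℝ) ≤ q := by exact_mod_cast hq
  have hb : 1 ≤ b := le_trans (H420R3.ramIdx_pos (K := K) v₀) (hram v₀ hv₀)
  have hb' : (1 : ℝ) ≤ b := by exact_mod_cast hb
  set n := n0 P A a B with hn
  set t := Nat.clog q b + n with ht
  set α := (act F)^[t] ((act F)^[m] z) with hα
  set β : Fin (N + 1) → L := fun i => τ ((act F)^[t] z i) with hβ
  have hα0 : α ≠ 0 := hB.iter_ne_zero (hB.iter_ne_zero hz m) t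
  have hβt : (act F)^[t] z ≠ 0 := hB.iter_ne_zero hz t
  have hβ0 : β ≠ 0 := by
    intro h0
    apply hβt
    funext i
    have h1 := congrFun h0 i
    simpa [hβ] using h1
  -- the local estimates
  have hloc : ∀ v ∈ T, ∀ i j, v (α i * β j - α j * β i) ≤
      Real.exp (-(ew K v * (1 + (n : ℝ)))) * (nmf v α * nmf v β) := by
    intro v hv i j
    have hR := h.red_at hP0 (hT hv)
    obtain ⟨c, d, hcl⟩ := init_close h.hom hR (hfr v hv) hz (hram v hv)
    have h1 := hR.iter (by positivity) hcl t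
    rw [act_iter_smul h.hom, act_iter_smul h.hom, act_gal_iter] at h1
    have h2 := h1.wedge_smul i j
    refine h2.trans (mul_le_mul_of_nonneg_right ?_
      (mul_nonneg (nmf_nonneg v _) (nmf_nonneg v _)))
    rw [Real.exp_le_exp, neg_le_neg_iff]
    exact mul_le_mul_of_nonneg_left (gq_big hq hb n) (H420R3.ew_pos v).le
  have hpair := pair_ineq hα0 hβ0 (fun c hc => Wnd.ne h.hom hw τ hm t hc) T
    (fun v => ew K v * (1 + (n : ℝ))) hloc
  rw [← Finset.sum_mul] at hpair
  -- heights
  have hc0 := hB.canH_nonneg hq hz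
  have e1 : Height.logHeight α ≤ finrank ℚ L * ((q : ℝ) ^ (t + m) * canH F q z + hC A a) := by
    have h1 := hB.logHeight_le hq hα0
    have h2 : α = (act F)^[t + m] z := by rw [hα, ← Function.iterate_add_apply]
    rw [h2, hB.canH_iter hq hz] at h1
    rw [h2]
    exact h1
  have e2 : Height.logHeight β ≤ finrank ℚ L * ((q : ℝ) ^ t * canH F q z + hC A a) := by
    have h1 := hB.logHeight_le hq hβt
    rw [hB.canH_iter hq hz] at h1
    have h2 := logHeight_aut (τ : L ≃+* L) ((act F)^[t] z)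
    have h3 : Height.logHeight β = Height.logHeight ((act F)^[t] z) := h2
    rw [h3]
    exact h1
  have e4 : lP P * (1 + (n : ℝ)) ≤ B *
      ((q : ℝ) ^ (t + m) * canH F q z + (q : ℝ) ^ t * canH F q z + 2 * hC A a + Real.log 2) := by
    have h1 : (finrank ℚ L : ℝ) * (lP P * (1 + (n : ℝ))) ≤ finrank ℚ L * (B *
        ((q : ℝ) ^ (t + m) * canH F q z + (q : ℝ) ^ t * canH F q z + 2 * hC A a +
          Real.log 2)) := by
      calc (finrank ℚ L : ℝ) * (lP P * (1 + (n : ℝ))) =
          finrank ℚ L * lP P * (1 + (n : ℝ)) := by ring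
        _ ≤ (B * ∑ v ∈ T, ew K v) * (1 + (n : ℝ)) :=
            mul_le_mul_of_nonneg_right hTB (by positivity)
        _ = B * ((∑ v ∈ T, ew K v) * (1 + (n : ℝ))) := by ring
        _ ≤ B * (Height.logHeight α + Height.logHeight β + finrank ℚ L * Real.log 2) :=
            mul_le_mul_of_nonneg_left hpair hBpos.le
        _ ≤ B * (finrank ℚ L * ((q : ℝ) ^ (t + m) * canH F q z + hC A a) +
            finrank ℚ L * ((q : ℝ) ^ t * canH F q z + hC A a) + finrank ℚ L * Real.log 2) := by
            gcongr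
        _ = _ := by ring
    exact le_of_mul_le_mul_left h1 hD
  have e5 : B * (2 * hC A a + Real.log 2 + 1) ≤ lP P * n := by
    have h1 := Nat.le_ceil ((B : ℝ) * (2 * hC A a + Real.log 2 + 1) / lP P)
    rw [div_le_iff₀ hlP] at h1
    rw [hn, n0]
    linarith
  have e6 : (q : ℝ) ^ t ≤ (q : ℝ) ^ (t + m) := pow_le_pow_right₀ (by linarith) (by omega)
  have e7 : 1 ≤ 2 * (q : ℝ) ^ (t + m) * canH F q z := by
    have h1 : (q : ℝ) ^ t * canH F q z ≤ (q : ℝ) ^ (t + m) * canH F q z :=
      mul_le_mul_of_nonneg_right e6 hc0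
    have h2 : (B : ℝ) * 1 ≤ B * ((q : ℝ) ^ (t + m) * canH F q z + (q : ℝ) ^ t * canH F q z) := by
      nlinarith
    have h3 := le_of_mul_le_mul_left h2 hBpos
    linarith
  have e8 : (q : ℝ) ^ (t + m) ≤ (q : ℝ) ^ (m + 1 + n) * b := by
    have h1 : q ^ Nat.clog q b ≤ q * b := pow_clog_le hq hb
    have h2 : (q : ℝ) ^ Nat.clog q b ≤ q * b := by exact_mod_cast h1
    have h3 : (q : ℝ) ^ (t + m) = (q : ℝ) ^ (m + n) * (q : ℝ) ^ Nat.clog q b := by
      rw [ht, ← pow_add]
      congr 1
      omega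
    have h4 : (q : ℝ) ^ (m + 1 + n) * b = (q : ℝ) ^ (m + n) * (q * b) := by
      rw [show m + 1 + n = (m + n) + 1 by omega, pow_succ]
      ring
    rw [h3, h4]
    exact mul_le_mul_of_nonneg_left h2 (by positivity)
  rw [div_le_iff₀ (by positivity)]
  calc (1 : ℝ) ≤ 2 * (q : ℝ) ^ (t + m) * canH F q z := e7
    _ ≤ 2 * ((q : ℝ) ^ (m + 1 + n) * b) * canH F q z := by gcongr
    _ = canH F q z * (2 * (q : ℝ) ^ (m + 1 + n) * b) := by ring

end

end Pool.Agent.H627.LP
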