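import Mathlib
import Pool.Agent.H627.LP.Pair
import Pool.Agent.H420R3.Integral

/-!
Maps with good, purely inseparable reduction: an integral model, some iterate of which is
congruent to a power of Frobenius.
-/

set_option autoImplicit false
set_option linter.unusedSectionVars false

namespace Pool.Agent.H627.LP

open NumberField Module MvPolynomial
open Pool.Agent.W238.Leh
open Pool.Agent.H420R3 (mi nv TP ew exists_frac v_lt_one_iff mi_ne_bot)
open scoped Pointwise

noncomputable section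

section Fit

variable {R : Type*} [CommRing R] {N : ℕ}

/-- iterates of a tuple of forms -/
def Fit (F : Fin (N + 1) → MvPolynomial (Fin (N + 1)) R) :
    ℕ → Fin (N + 1) → MvPolynomial (Fin (N + 1)) R
  | 0 => X
  | s + 1 => fun i => bind₁ (Fit F s) (F i)

lemma Fit_map {S : Type*} [CommRing S] (f : R →+* S)
    (F : Fin (N + 1) → MvPolynomial (Fin (N + 1)) R) (s : ℕ) (i : Fin (N + 1)) :
    map f (Fit F s i) = Fit (fun j => map f (F j)) s i := by
  induction s generalizing i with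
  | zero => exact map_X f i
  | succ s ih =>
    simp only [Fit]
    rw [map_bind₁]
    simp only [ih]

lemma act_Fit {K : Type} [Field K] {M : Type*} [Field M] [Algebra K M]
    (F : Fin (N + 1) → MvPolynomial (Fin (N + 1)) K) (s : ℕ) (z : Fin (N + 1) → M) :
    act (Fit F s) z = (act F)^[s] z := by
  induction s with
  | zero =>
    funext i
    simp [act, Fit]
  | succ s ih =>
    rw [Function.iterate_succ_apply', ← ih]
    funext i
    simp only [act, Fit]
    rw [aeval_bind₁]
    rfl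

lemma act_Fit_iter {K : Type} [Field K] {M : Type*} [Field M] [Algebra K M]
    (F : Fin (N + 1) → MvPolynomial (Fin (N + 1)) K) (s n : ℕ) (z : Fin (N + 1) → M) :
    (act (Fit F s))^[n] z = (act F)^[s * n] z := by
  induction n with
  | zero => rfl
  | succ n ih =>
    rw [Function.iterate_succ_apply', ih, act_Fit, ← Function.iterate_add_apply, Nat.mul_succ,
      Nat.add_comm s (s * n)]

lemma Fit_hom {F : Fin (N + 1) → MvPolynomial (Fin (N + 1)) R} {q : ℕ}
    (hF : ∀ i, (F i).IsHomogeneous q) (s : ℕ) (i : Fin (N + 1)) :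
    (Fit F s i).IsHomogeneous (q ^ s) := by
  induction s generalizing i with
  | zero => simpa [Fit] using isHomogeneous_X R i
  | succ s ih =>
    have := (hF i).aeval (Fit F s) ih
    rw [← pow_succ] at this
    exact this

lemma sum_one_mat (i : Fin (N + 1)) (n : ℕ) :
    ∑ l, C ((1 : Matrix (Fin (N + 1)) (Fin (N + 1)) R) i l) * X l ^ n =
      (X i ^ n : MvPolynomial (Fin (N + 1)) R) := by
  rw [Finset.sum_eq_single i]
  · rw [Matrix.one_apply_eq, C_1, one_mul]
  · intro l _ hl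
    rw [Matrix.one_apply_ne hl.symm, C_0, zero_mul]
  · intro h
    exact absurd (Finset.mem_univ i) h

end Fit

variable {K : Type} [Field K] [NumberField K] {N : ℕ}
variable {F : Fin (N + 1) → MvPolynomial (Fin (N + 1)) (𝓞 K)}
variable {P : Ideal (𝓞 K)} [hP : P.IsMaximal] {q : ℕ}

/-- reduction modulo `P` -/
def rd (P : Ideal (𝓞 K)) (f : MvPolynomial (Fin (N + 1)) (𝓞 K)) :
    MvPolynomial (Fin (N + 1)) (𝓞 K ⧸ P) := map (Ideal.Quotient.mk P) f

/-- reduction of the iterates -/
lemma rd_Fit {p r : ℕ} (hp : p.Prime) (hpP : (p : 𝓞 K) ∈ P)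
    {γ : Matrix (Fin (N + 1)) (Fin (N + 1)) (𝓞 K ⧸ P)}
    (hF : ∀ i, rd P (F i) = ∑ k, C (γ i k) * X k ^ (p ^ r)) (s : ℕ) (i : Fin (N + 1)) :
    rd P (Fit F s i) = ∑ l, C (((fun B : Matrix (Fin (N + 1)) (Fin (N + 1)) (𝓞 K ⧸ P) =>
      γ * B.map (fun x => x ^ (p ^ r)))^[s] 1) i l) * X l ^ ((p ^ r) ^ s) := by
  have hchar := H420R3.charP_quot hp hpP
  have : Fact p.Prime := ⟨hp⟩
  have hexp : ExpChar (MvPolynomial (Fin (N + 1)) (𝓞 K ⧸ P)) p := by
    have : CharP (MvPolynomial (Fin (N + 1)) (𝓞 K ⧸ P)) p := inferInstance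
    exact ExpChar.prime hp
  induction s generalizing i with
  | zero =>
    simp only [Function.iterate_zero, id_eq, pow_zero, pow_one, Fit]
    have h1 : rd P (X i : MvPolynomial (Fin (N + 1)) (𝓞 K)) = X i := map_X _ _
    have h2 := sum_one_mat (R := 𝓞 K ⧸ P) i 1
    rw [pow_one] at h2
    rw [h1, ← h2]
    refine Finset.sum_congr rfl fun l _ => ?_
    rw [pow_one]
  | succ s ih =>
    rw [Function.iterate_succ_apply']
    set B := (fun B : Matrix (Fin (N + 1)) (Fin (N + 1)) (𝓞 K ⧸ P) =>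
      γ * B.map (fun x => x ^ (p ^ r)))^[s] 1 with hB
    have h1 : rd P (Fit F (s + 1) i) = bind₁ (fun k => rd P (Fit F s k)) (rd P (F i)) :=
      map_bind₁ _ _ _
    rw [h1, hF i, map_sum]
    have h2 : ∀ k, bind₁ (fun k => rd P (Fit F s k)) (C (γ i k) * X k ^ (p ^ r)) =
        ∑ l, C (γ i k * B k l ^ (p ^ r)) * X l ^ ((p ^ r) ^ (s + 1)) := by
      intro k
      rw [map_mul, map_pow, bind₁_X_right, bind₁_C_right, ih k, sum_pow_char_pow, Finset.mul_sum]
      refine Finset.sum_congr rfl fun l _ => ?_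
      rw [mul_pow, ← C_pow, ← pow_mul, ← pow_succ, C_mul, mul_assoc]
    rw [Finset.sum_congr rfl fun k _ => h2 k, Finset.sum_comm]
    refine Finset.sum_congr rfl fun l _ => ?_
    rw [← Finset.sum_mul, Matrix.mul_apply, map_sum]
    rfl

/-- some iterate is congruent to a power of Frobenius -/
lemma exists_good (hP0 : P ≠ ⊥) {p r : ℕ} (hp : p.Prime) (hr : 1 ≤ r) (hpP : (p : 𝓞 K) ∈ P)
    (hhom : ∀ i, (F i).IsHomogeneous (p ^ r))
    {γ : Matrix (Fin (N + 1)) (Fin (N + 1)) (𝓞 K ⧸ P)} (hγ : IsUnit γ.det)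
    (hF : ∀ i, rd P (F i) = ∑ k, C (γ i k) * X k ^ (p ^ r)) :
    ∃ s, 1 ≤ s ∧ GoodN P (Fit (fun j => map (algebraMap (𝓞 K) K) (F j)) s)
      ((p ^ r) ^ s) := by
  have hchar := H420R3.charP_quot hp hpP
  have : Fact p.Prime := ⟨hp⟩
  let : Field (𝓞 K ⧸ P) := Ideal.Quotient.field P
  have hfin : Finite (𝓞 K ⧸ P) := Ideal.finiteQuotientOfFreeOfNeBot P hP0
  let : Fintype (𝓞 K ⧸ P) := Fintype.ofFinite _
  have hcard : Ideal.absNorm P = Fintype.card (𝓞 K ⧸ P) := by
    rw [Ideal.absNorm_apply, Submodule.cardQuot_apply, Nat.card_eq_fintype_card]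
  obtain ⟨h, -, hh⟩ := FiniteField.card (𝓞 K ⧸ P) p
  set T : Matrix (Fin (N + 1)) (Fin (N + 1)) (𝓞 K ⧸ P) →
      Matrix (Fin (N + 1)) (Fin (N + 1)) (𝓞 K ⧸ P) := fun B =>
      γ * B.map (fun x => x ^ (p ^ r)) with hT
  have hTinj : Function.Injective T := by
    intro A B hAB
    have h1 : A.map (fun x => x ^ (p ^ r)) = B.map (fun x => x ^ (p ^ r)) := by
      have h2 := congrArg (fun Z => γ⁻¹ * Z) hAB
      simp only [hT] at h2
      rwa [← Matrix.mul_assoc, ← Matrix.mul_assoc, Matrix.nonsing_inv_mul _ hγ, Matrix.one_mul,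
        Matrix.one_mul] at h2
    ext i j
    have h3 : A i j ^ (p ^ r) = B i j ^ (p ^ r) := congrFun (congrFun h1 i) j
    exact iterateFrobenius_inj (𝓞 K ⧸ P) p r (by
      rw [iterateFrobenius_def, iterateFrobenius_def]
      exact h3)
  obtain ⟨a, c, hac, hac'⟩ := Finite.exists_ne_map_eq_of_infinite fun n : ℕ => T^[n] 1
  obtain ⟨t, ht, ht'⟩ : ∃ t, 1 ≤ t ∧ T^[t] 1 = 1 := by
    wlog hlt : a < c generalizing a c
    · exact this c a hac.symm hac'.symm (by omega)
    refine ⟨c - a, by omega, ?_⟩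
    have h3 : T^[a] (T^[c - a] 1) = T^[a] 1 := by
      rw [← Function.iterate_add_apply, Nat.add_sub_cancel' hlt.le]
      exact hac'.symm
    exact (hTinj.iterate a) h3
  have hFK : ∀ i, (map (algebraMap (𝓞 K) K) (F i)).IsHomogeneous (p ^ r) := fun i =>
    (hhom i).map _
  refine ⟨t * h, Nat.mul_pos ht h.pos, Fit_hom hFK _, ⟨r * t, Nat.mul_pos hr ht, ?_⟩, ?_⟩
  · rw [hcard, hh, ← pow_mul, ← pow_mul]
    congr 1
    ring
  · intro i m
    have h0 : rd P (Fit F (t * h) i) = rd P (X i ^ ((p ^ r) ^ (t * (h : ℕ)))) := by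
      rw [rd_Fit hp hpP hF]
      have h1 : T^[t * h] 1 = 1 := by
        rw [Function.iterate_mul]
        exact Function.iterate_fixed ht' _
      rw [← hT, h1, rd, map_pow, map_X, sum_one_mat]
    refine ⟨(Fit F (t * h) i - X i ^ ((p ^ r) ^ (t * (h : ℕ)))).coeff m, ?_, ?_⟩
    · rw [← Ideal.Quotient.eq_zero_iff_mem, ← coeff_map, map_sub]
      have h1 : map (Ideal.Quotient.mk P) (Fit F (t * h) i) =
          map (Ideal.Quotient.mk P) (X i ^ ((p ^ r) ^ (t * (h : ℕ)))) := h0
      rw [h1, sub_self, coeff_zero]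
    · have h1 : (Fit (fun j => map (algebraMap (𝓞 K) K) (F j)) (t * h) i -
          X i ^ ((p ^ r) ^ (t * (h : ℕ)))) = map (algebraMap (𝓞 K) K)
          (Fit F (t * h) i - X i ^ ((p ^ r) ^ (t * (h : ℕ)))) := by
        rw [map_sub, Fit_map, map_pow, map_X]
      rw [h1, coeff_map]

/-! ### integral models -/

lemma exists_int_forms (v : FinitePlace K) (G : Fin (N + 1) → MvPolynomial (Fin (N + 1)) K)
    (hint : ∀ i m, v ((G i).coeff m) ≤ 1) :
    ∃ (b : 𝓞 K) (Gi : Fin (N + 1) → MvPolynomial (Fin (N + 1)) (𝓞 K)), b ∉ mi v ∧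
      ∀ i, MvPolynomial.map (algebraMap (𝓞 K) K) (Gi i) = C (b : K) * G i := by
  classical
  choose a c hc hac using fun x : Fin (N + 1) × (Fin (N + 1) →₀ ℕ) =>
    exists_frac v (hint x.1 x.2)
  have hc0 : ∀ x, (c x : K) ≠ 0 := by
    intro x
    rw [RingOfIntegers.coe_ne_zero_iff]
    intro h
    exact hc x (by rw [h]; exact Submodule.zero_mem _)
  set S : Finset (Fin (N + 1) × (Fin (N + 1) →₀ ℕ)) :=
    (Finset.univ : Finset (Fin (N + 1))) ×ˢ (Finset.univ.biUnion fun i => (G i).support) with hS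
  set b : 𝓞 K := ∏ x ∈ S, c x with hb
  have hbm : b ∉ mi v := by
    rw [hb, Ideal.IsPrime.prod_mem_iff]
    push Not
    exact fun x _ => hc x
  have hex : ∀ i m, ∃ t : 𝓞 K, (t : K) = (b : K) * (G i).coeff m := by
    intro i m
    by_cases hm : m ∈ (G i).support
    · have hx : (i, m) ∈ S := by
        rw [hS, Finset.mem_product]
        refine ⟨Finset.mem_univ _, ?_⟩
        rw [Finset.mem_biUnion]
        exact ⟨i, Finset.mem_univ _, hm⟩
      refine ⟨(∏ x ∈ S.erase (i, m), c x) * a (i, m), ?_⟩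
      have h1 : b = c (i, m) * ∏ x ∈ S.erase (i, m), c x := (Finset.mul_prod_erase S c hx).symm
      have h2 : (G i).coeff m = (a (i, m) : K) / (c (i, m) : K) := hac (i, m)
      rw [h1, h2]
      push_cast
      have := hc0 (i, m)
      field_simp
    · refine ⟨0, ?_⟩
      rw [notMem_support_iff.mp hm]
      simp
  choose t ht using hex
  refine ⟨b, fun i => ∑ m ∈ (G i).support, monomial m (t i m), hbm, fun i => ?_⟩
  rw [map_sum]
  conv_rhs => rw [(G i).as_sum, Finset.mul_sum]
  refine Finset.sum_congr rfl fun m _ => ?_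
  rw [map_monomial, C_mul_monomial]
  congr 1
  exact ht i m

/-- good purely inseparable reduction at `v` of a tuple of forms of degree `q` -/
structure InsepN (v : FinitePlace K) (q : ℕ)
    (G : Fin (N + 1) → MvPolynomial (Fin (N + 1)) K) : Prop where
  integral : ∀ i m, v ((G i).coeff m) ≤ 1
  insep : ∀ i m, (∀ j, m ≠ Finsupp.single j q) → v ((G i).coeff m) < 1
  good : v (Matrix.det (Matrix.of fun i j => (G i).coeff (Finsupp.single j q))) = 1

lemma single_inj {q : ℕ} (hq : 1 ≤ q) {i j : Fin (N + 1)}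
    (h : (Finsupp.single i q : Fin (N + 1) →₀ ℕ) = Finsupp.single j q) : i = j := by
  rw [Finsupp.single_eq_single_iff] at h
  rcases h with h | h
  · exact h.1
  · omega

/-- an integral model some iterate of which is congruent to a power of Frobenius -/
lemma InsepN.exists_model {v : FinitePlace K} {p r : ℕ} (hp : p.Prime) (hr : 1 ≤ r)
    (hv : v (p : K) < 1) {G : Fin (N + 1) → MvPolynomial (Fin (N + 1)) K}
    (hhom : ∀ i, (G i).IsHomogeneous (p ^ r)) (h : InsepN v (p ^ r) G) :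
    ∃ (b : 𝓞 K) (s : ℕ), b ≠ 0 ∧ 1 ≤ s ∧
      (∀ i m, IsIntegral ℤ ((C (b : K) * G i).coeff m)) ∧
      GoodN (mi v) (Fit (fun i => C (b : K) * G i) s) ((p ^ r) ^ s) := by
  classical
  obtain ⟨b, Gi, hb, hGi⟩ := exists_int_forms v G h.integral
  have hq1 : 1 ≤ p ^ r := Nat.one_le_pow _ _ hp.pos
  have hb0 : b ≠ 0 := by
    rintro rfl
    exact hb (Submodule.zero_mem _)
  have hvb := H420R3.v_eq_one_of_notMem v hb
  have hco : ∀ i m, (((Gi i).coeff m : 𝓞 K) : K) = (b : K) * (G i).coeff m := by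
    intro i m
    have := congrArg (fun p => p.coeff m) (hGi i)
    simp only [coeff_map, coeff_C_mul] at this
    exact this
  have hGhom : ∀ i, (Gi i).IsHomogeneous (p ^ r) := by
    intro i m hm
    apply hhom i
    intro h0
    apply hm
    have := hco i m
    rw [h0, mul_zero] at this
    exact RingOfIntegers.coe_eq_zero_iff.mp this
  have hpP : (p : 𝓞 K) ∈ mi v := by
    rw [← v_lt_one_iff]
    simpa using hv
  set γ : Matrix (Fin (N + 1)) (Fin (N + 1)) (𝓞 K ⧸ mi v) := Matrix.of fun i l =>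
    Ideal.Quotient.mk (mi v) ((Gi i).coeff (Finsupp.single l (p ^ r))) with hγ
  let : Field (𝓞 K ⧸ mi v) := Ideal.Quotient.field (mi v)
  have hdet : IsUnit γ.det := by
    set γ₀ : Matrix (Fin (N + 1)) (Fin (N + 1)) (𝓞 K) := Matrix.of fun i l =>
      (Gi i).coeff (Finsupp.single l (p ^ r)) with hγ₀
    have h1 : γ.det = Ideal.Quotient.mk (mi v) γ₀.det := by
      rw [RingHom.map_det]
      rfl
    have h2 : ((γ₀.det : 𝓞 K) : K) = (b : K) ^ (N + 1) *
        Matrix.det (Matrix.of fun i j => (G i).coeff (Finsupp.single j (p ^ r))) := by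
      have h3 : ((γ₀.det : 𝓞 K) : K) = ((algebraMap (𝓞 K) K).mapMatrix γ₀).det :=
        RingHom.map_det _ _
      have h4 : (algebraMap (𝓞 K) K).mapMatrix γ₀ =
          (b : K) • Matrix.of fun i j => (G i).coeff (Finsupp.single j (p ^ r)) := by
        ext i j
        exact hco i _
      rw [h3, h4, Matrix.det_smul, Fintype.card_fin]
    rw [isUnit_iff_ne_zero, h1, Ne, Ideal.Quotient.eq_zero_iff_mem, ← v_lt_one_iff, h2, map_mul,
      map_pow, hvb, h.good]
    norm_num
  have hrd : ∀ i, rd (mi v) (Gi i) = ∑ l, C (γ i l) * X l ^ (p ^ r) := by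
    intro i
    ext m
    have h1 : (rd (mi v) (Gi i)).coeff m = Ideal.Quotient.mk (mi v) ((Gi i).coeff m) :=
      coeff_map _ _ _
    rw [h1, coeff_sum]
    simp only [coeff_C_mul, coeff_X_pow]
    by_cases hm0 : ∃ l, Finsupp.single l (p ^ r) = m
    · obtain ⟨l, rfl⟩ := hm0
      rw [Finset.sum_eq_single l]
      · rw [if_pos rfl, mul_one]
        rfl
      · intro l' _ hl'
        rw [if_neg, mul_zero]
        intro h2
        exact hl' (single_inj hq1 h2)
      · intro h2
        exact absurd (Finset.mem_univ l) h2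
    · push Not at hm0
      rw [Finset.sum_eq_zero, Ideal.Quotient.eq_zero_iff_mem, ← v_lt_one_iff, hco, map_mul, hvb,
        one_mul]
      · exact h.insep i m fun j hj => hm0 j hj.symm
      · intro l _
        rw [if_neg (hm0 l), mul_zero]
  obtain ⟨s, hs, hgood⟩ := exists_good (mi_ne_bot v) hp hr hpP hGhom hdet hrd
  refine ⟨b, s, hb0, hs, ?_, ?_⟩
  · intro i m
    rw [coeff_C_mul, ← hco]
    exact RingOfIntegers.isIntegral_coe _
  · have h1 : (fun i => C (b : K) * G i) = fun j => map (algebraMap (𝓞 K) K) (Gi j) := by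
      funext i
      rw [hGi]
    rw [h1]
    exact hgood

end

end Pool.Agent.H627.LP
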