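import Mathlib
import Pool.Agent.H627.LP.Iter

/-!
Assembly: change of coordinates, canonical heights of the iterates.
-/

set_option autoImplicit false
set_option linter.unusedSectionVars false

namespace Pool.Agent.H627.LP

open NumberField Module MvPolynomial Filter Topology
open Pool.Agent.W238.Leh
open Pool.Agent.H420R3 (mi nv TP ew lP lP_pos sum_ew TP_nonempty)
open scoped Pointwise

noncomputable section

section Linear

variable {M : Type*} [Field M] {N : ℕ}

/-- linear action of a matrix on vectors -/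
def lin (A : Matrix (Fin (N + 1)) (Fin (N + 1)) M) (z : Fin (N + 1) → M) : Fin (N + 1) → M :=
  fun i => ∑ j, A i j * z j

lemma lin_smul (A : Matrix (Fin (N + 1)) (Fin (N + 1)) M) (c : M) (z : Fin (N + 1) → M) :
    lin A (c • z) = c • lin A z := by
  funext i
  simp only [lin, Pi.smul_apply, smul_eq_mul, Finset.mul_sum]
  exact Finset.sum_congr rfl fun j _ => by ring

lemma lin_inv {A : Matrix (Fin (N + 1)) (Fin (N + 1)) M} (hA : A.det ≠ 0)
    (z : Fin (N + 1) → M) : lin A⁻¹ (lin A z) = z := by
  have h1 : lin A⁻¹ (lin A z) = A⁻¹.mulVec (A.mulVec z) := rfl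
  rw [h1, Matrix.mulVec_mulVec, Matrix.nonsing_inv_mul _ (isUnit_iff_ne_zero.mpr hA),
    Matrix.one_mulVec]

lemma lin_inj {A : Matrix (Fin (N + 1)) (Fin (N + 1)) M} (hA : A.det ≠ 0)
    {z w : Fin (N + 1) → M} (h : lin A z = lin A w) : z = w := by
  rw [← lin_inv hA z, h, lin_inv hA]

lemma lin_ne_zero {A : Matrix (Fin (N + 1)) (Fin (N + 1)) M} (hA : A.det ≠ 0)
    {z : Fin (N + 1) → M} (hz : z ≠ 0) : lin A z ≠ 0 := by
  intro h
  apply hz
  apply lin_inj hA
  rw [h]
  funext i
  simp [lin]

variable [NumberField M]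

lemma exists_lin_bound {A : Matrix (Fin (N + 1)) (Fin (N + 1)) M} (hA : A.det ≠ 0) :
    ∃ C : ℝ, ∀ z : Fin (N + 1) → M,
      |Height.logHeight (lin A z) - Height.logHeight z| ≤ C := by
  set C1 : ℝ := Height.totalWeight M * Real.log (Nat.card (Fin (N + 1))) +
    Height.logHeight (fun x : Fin (N + 1) × Fin (N + 1) => A x.1 x.2) with hC1
  set C2 : ℝ := Height.totalWeight M * Real.log (Nat.card (Fin (N + 1))) +
    Height.logHeight (fun x : Fin (N + 1) × Fin (N + 1) => A⁻¹ x.1 x.2) with hC2
  refine ⟨max C1 C2, fun z => ?_⟩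
  have h1 : Height.logHeight (lin A z) ≤ C1 + Height.logHeight z :=
    Height.logHeight_linearMap_apply_le (fun x : Fin (N + 1) × Fin (N + 1) => A x.1 x.2) z
  have h2 : Height.logHeight (lin A⁻¹ (lin A z)) ≤ C2 + Height.logHeight (lin A z) :=
    Height.logHeight_linearMap_apply_le (fun x : Fin (N + 1) × Fin (N + 1) => A⁻¹ x.1 x.2)
      (lin A z)
  rw [lin_inv hA] at h2
  rw [abs_le]
  constructor
  · linarith [le_max_right C1 C2]
  · linarith [le_max_left C1 C2]

end Linear

section Mor

variable {K : Type} [Field K] [NumberField K] {N : ℕ}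
variable {P : Ideal (𝓞 K)} [hP : P.IsMaximal]
variable {H : Fin (N + 1) → MvPolynomial (Fin (N + 1)) K} {q : ℕ}

lemma GoodN.one_le (h : GoodN P H q) : 1 ≤ q := by
  obtain ⟨k, _, hq⟩ := h.pow
  rw [hq]
  rcases Nat.eq_zero_or_pos (P.absNorm) with h0 | h0
  · have hP0 : P = ⊥ := Ideal.absNorm_eq_zero_iff.mp h0
    exact absurd hP (by
      rw [hP0]
      intro h1
      exact RingOfIntegers.not_isField K (Ring.isField_iff_maximal_bot.mpr h1))
  · exact Nat.one_le_pow _ _ h0

/-- no common zero -/
lemma GoodN.mor (h : GoodN P H q) (hP0 : P ≠ ⊥) (z : Fin (N + 1) → AlgebraicClosure K)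
    (hz : ∀ i, aeval z (H i) = 0) : z = 0 := by
  by_contra hne
  set S : IntermediateField K (AlgebraicClosure K) :=
    IntermediateField.adjoin K (Set.range z) with hS
  have hfd : FiniteDimensional K S :=
    IntermediateField.finiteDimensional_adjoin fun x _ => Algebra.IsIntegral.isIntegral x
  have hnf : NumberField S := NumberField.of_module_finite K S
  set z' : Fin (N + 1) → S := fun i =>
    ⟨z i, IntermediateField.subset_adjoin K _ ⟨i, rfl⟩⟩ with hz'
  have hz'0 : z' ≠ 0 := by
    intro h0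
    apply hne
    funext i
    have h1 := congrFun h0 i
    exact congrArg Subtype.val h1
  have hact : act H z' = 0 := by
    funext i
    have h1 : (algebraMap S (AlgebraicClosure K)) (act H z' i) = aeval z (H i) := by
      unfold act
      rw [← MvPolynomial.aeval_algebraMap_apply]
      rfl
    rw [hz i] at h1
    exact (map_eq_zero (algebraMap S (AlgebraicClosure K))).mp h1
  obtain ⟨w, hw⟩ := TP_nonempty (M := S) (P := P) hP0
  have hR := h.red_at hP0 hw
  obtain ⟨i₀, hi₀⟩ := exists_nmf (v := w) z'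
  have hpos := nmf_pos w hz'0
  have h1 : nmf w ((z' i₀)⁻¹ • z') = 1 := by
    rw [nmf_smul, map_inv₀, hi₀, inv_mul_cancel₀ hpos.ne']
  have h2 := hR.nm_act h1
  rw [act_smul h.hom, hact, smul_zero] at h2
  have h3 : nmf w (0 : Fin (N + 1) → S) = 0 := by
    apply le_antisymm
    · exact nmf_le fun i => by simp
    · exact nmf_nonneg _ _
  rw [h3] at h2
  norm_num at h2

lemma GoodN.int (h : GoodN P H q) (i : Fin (N + 1)) (m : Fin (N + 1) →₀ ℕ) :
    IsIntegral ℤ ((H i).coeff m) := by
  classical
  obtain ⟨c, _, hc⟩ := h.red i m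
  rw [coeff_sub, sub_eq_iff_eq_add] at hc
  rw [hc, coeff_X_pow]
  refine (RingOfIntegers.isIntegral_coe c).add ?_
  split_ifs
  · exact isIntegral_one
  · exact isIntegral_zero

lemma bds_of_mor {F : Fin (N + 1) → MvPolynomial (Fin (N + 1)) K} {d : ℕ} (hd : 1 ≤ d)
    (hF : ∀ i, (F i).IsHomogeneous d) (hint : ∀ i s, IsIntegral ℤ ((F i).coeff s))
    (hmor : ∀ z : Fin (N + 1) → AlgebraicClosure K, (∀ i, aeval z (F i) = 0) → z = 0) :
    ∃ A a, Bds F d A a := by
  obtain ⟨c, hc0⟩ := exists_mem_span hmor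
  exact exists_bds hd hF hint (c := c) fun m hm p hp => hc0 m (by omega) p hp

end Mor

section Core

variable {k K L M : Type} [Field k] [NumberField k] [Field K] [NumberField K] [Field L]
  [NumberField L] [Field M] [NumberField M] [Algebra k K] [Algebra k L] [Algebra k M]
  [Algebra K M] [Algebra L M] [IsScalarTower k K M] [IsScalarTower k L M] {N : ℕ}

lemma act_base (F : Fin (N + 1) → MvPolynomial (Fin (N + 1)) k) (x : Fin (N + 1) → L) :
    act F (fun i => algebraMap L M (x i)) = fun i => algebraMap L M (act F x i) := by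
  funext i
  unfold act
  exact MvPolynomial.aeval_algebraMap_apply M x (F i)

lemma act_iter_base (F : Fin (N + 1) → MvPolynomial (Fin (N + 1)) k) (x : Fin (N + 1) → L)
    (n : ℕ) :
    (act F)^[n] (fun i => algebraMap L M (x i)) = fun i => algebraMap L M ((act F)^[n] x i) := by
  induction n with
  | zero => rfl
  | succ n ih => rw [Function.iterate_succ_apply', ih, act_base, Function.iterate_succ_apply']

/-- conjugation -/
def Conj (A : Matrix (Fin (N + 1)) (Fin (N + 1)) K)
    (F : Fin (N + 1) → MvPolynomial (Fin (N + 1)) k)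
    (G : Fin (N + 1) → MvPolynomial (Fin (N + 1)) K) : Prop :=
  ∀ i, ∑ j, C (A i j) * MvPolynomial.map (algebraMap k K) (F j) =
    bind₁ (fun l => ∑ j, C (A l j) * X j) (G i)

lemma Conj.act {A : Matrix (Fin (N + 1)) (Fin (N + 1)) K}
    {F : Fin (N + 1) → MvPolynomial (Fin (N + 1)) k}
    {G : Fin (N + 1) → MvPolynomial (Fin (N + 1)) K} (h : Conj A F G) (z : Fin (N + 1) → M) :
    W238.Leh.act G (lin (A.map (algebraMap K M)) z) =
      lin (A.map (algebraMap K M)) (W238.Leh.act F z) := by
  funext i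
  have h1 := congrArg (aeval z) (h i)
  rw [map_sum, aeval_bind₁] at h1
  have h2 : (fun l => aeval z (∑ j, C (A l j) * X j : MvPolynomial (Fin (N + 1)) K)) =
      lin (A.map (algebraMap K M)) z := by
    funext l
    rw [map_sum]
    simp only [lin, map_mul, aeval_X, aeval_C, Matrix.map_apply]
  rw [h2] at h1
  change aeval (lin (A.map (algebraMap K M)) z) (G i) = _
  rw [← h1]
  unfold lin
  refine Finset.sum_congr rfl fun j _ => ?_
  rw [map_mul, aeval_C, aeval_map_algebraMap]
  rfl

lemma Conj.act_iter {A : Matrix (Fin (N + 1)) (Fin (N + 1)) K}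
    {F : Fin (N + 1) → MvPolynomial (Fin (N + 1)) k}
    {G : Fin (N + 1) → MvPolynomial (Fin (N + 1)) K} (h : Conj A F G) (z : Fin (N + 1) → M)
    (n : ℕ) :
    (W238.Leh.act G)^[n] (lin (A.map (algebraMap K M)) z) =
      lin (A.map (algebraMap K M)) ((W238.Leh.act F)^[n] z) := by
  induction n with
  | zero => rfl
  | succ n ih => rw [Function.iterate_succ_apply', ih, h.act, Function.iterate_succ_apply']

variable {b : 𝓞 K} {G : Fin (N + 1) → MvPolynomial (Fin (N + 1)) K}

lemma act_C_mul (z : Fin (N + 1) → M) :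
    act (fun i => C (b : K) * G i) z = (algebraMap K M (b : K)) • act G z := by
  funext i
  simp only [act, map_mul, aeval_C, Pi.smul_apply, smul_eq_mul]

/-- iterates agree up to a nonzero scalar -/
lemma act_C_mul_iter (hb : b ≠ 0) {q : ℕ} (hG : ∀ i, (G i).IsHomogeneous q)
    (z : Fin (N + 1) → M) (n : ℕ) :
    ∃ c : M, c ≠ 0 ∧ (act (fun i => C (b : K) * G i))^[n] z = c • (act G)^[n] z := by
  induction n with
  | zero => exact ⟨1, one_ne_zero, (one_smul _ _).symm⟩
  | succ n ih =>
    obtain ⟨c, hc, hc'⟩ := ih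
    refine ⟨algebraMap K M (b : K) * c ^ q, mul_ne_zero ?_ (pow_ne_zero _ hc), ?_⟩
    · rw [Ne, FaithfulSMul.algebraMap_eq_zero_iff, RingOfIntegers.coe_eq_zero_iff]
      exact hb
    · rw [Function.iterate_succ_apply', hc', act_C_mul, act_smul hG, smul_smul,
        Function.iterate_succ_apply']

variable {F : Fin (N + 1) → MvPolynomial (Fin (N + 1)) k}
  {A : Matrix (Fin (N + 1)) (Fin (N + 1)) K}

/-- the transfer to the good model -/
theorem transfer (hA : A.det ≠ 0) (hconj : Conj A F G) {q s : ℕ} (hq : 2 ≤ q)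
    (hG : ∀ i, (G i).IsHomogeneous q) (hb : b ≠ 0) (hs : 1 ≤ s) {B₁ : ℝ} {b₁ : ℕ}
    (hB : Bds (fun i => C (b : K) * G i) q B₁ b₁) {x : Fin (N + 1) → L} (hx : x ≠ 0) :
    lin (A.map (algebraMap K M)) (fun i => algebraMap L M (x i)) ≠ 0 ∧
    (Wnd F x → Wnd (Fit (fun i => C (b : K) * G i) s)
      (lin (A.map (algebraMap K M)) (fun i => algebraMap L M (x i)))) ∧
    Tendsto (fun n : ℕ => Height.logHeight ((act F)^[n] x) /
        ((finrank ℚ L : ℝ) * (q : ℝ) ^ n)) atTop
      (𝓝 (canH (Fit (fun i => C (b : K) * G i) s) (q ^ s)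
        (lin (A.map (algebraMap K M)) (fun i => algebraMap L M (x i))))) := by
  set AM := A.map (algebraMap K M) with hAM
  set Gb : Fin (N + 1) → MvPolynomial (Fin (N + 1)) K := fun i => C (b : K) * G i with hGb
  have hAM0 : AM.det ≠ 0 := by
    have h1 : AM.det = algebraMap K M A.det := by
      rw [RingHom.map_det]
      rfl
    rw [h1, Ne, FaithfulSMul.algebraMap_eq_zero_iff]
    exact hA
  set z : Fin (N + 1) → M := fun i => algebraMap L M (x i) with hz
  have hinj : ∀ y : Fin (N + 1) → L, (fun i => algebraMap L M (y i)) = 0 → y = 0 := by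
    intro y h
    funext i
    have := congrFun h i
    simp only [Pi.zero_apply, FaithfulSMul.algebraMap_eq_zero_iff] at this
    exact this
  have hz0 : z ≠ 0 := fun h => hx (hinj x h)
  set u := lin AM z with hu
  have hu0 : u ≠ 0 := lin_ne_zero hAM0 hz0
  -- comparison of the orbits
  have hcomp : ∀ n, ∃ c : M, c ≠ 0 ∧ (act Gb)^[n] u =
      c • lin AM (fun i => algebraMap L M ((act F)^[n] x i)) := by
    intro n
    obtain ⟨c, hc, hc'⟩ := act_C_mul_iter hb hG u n
    refine ⟨c, hc, ?_⟩
    rw [hGb, hc', hu, hconj.act_iter, hz, act_iter_base]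
  have hFn : ∀ n, (act F)^[n] x ≠ 0 := by
    intro n h0
    obtain ⟨c, hc, h1⟩ := hcomp n
    apply hB.iter_ne_zero hu0 n
    rw [h1, h0]
    have h2 : (fun i : Fin (N + 1) => algebraMap L M ((0 : Fin (N + 1) → L) i)) = 0 := by
      funext i
      simp
    rw [h2]
    funext i
    simp [lin]
  refine ⟨hu0, ?_, ?_⟩
  · rintro hw ⟨m, n, hmn, c, hc, h⟩
    rw [act_Fit_iter, act_Fit_iter] at h
    obtain ⟨c₁, hc₁, h₁⟩ := hcomp (s * n)
    obtain ⟨c₂, hc₂, h₂⟩ := hcomp (s * m)
    rw [h₁, h₂, smul_smul, ← lin_smul, ← lin_smul] at h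
    have h3 := lin_inj hAM0 h
    obtain ⟨j, hj⟩ : ∃ j, (act F)^[s * m] x j ≠ 0 := Function.ne_iff.mp (hFn (s * m))
    set e : L := (act F)^[s * n] x j / (act F)^[s * m] x j with he
    have h4 : ∀ i, c₁ * algebraMap L M ((act F)^[s * n] x i) =
        (c * c₂) * algebraMap L M ((act F)^[s * m] x i) := fun i => congrFun h3 i
    have hjM : algebraMap L M ((act F)^[s * m] x j) ≠ 0 := by
      rwa [Ne, FaithfulSMul.algebraMap_eq_zero_iff]
    have h5 : ∀ i, (act F)^[s * n] x i = e * (act F)^[s * m] x i := by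
      intro i
      have h6 : (act F)^[s * n] x i * (act F)^[s * m] x j =
          (act F)^[s * n] x j * (act F)^[s * m] x i := by
        apply (algebraMap L M).injective
        rw [map_mul, map_mul]
        have h7 := h4 i
        have h8 := h4 j
        apply mul_left_cancel₀ hc₁
        linear_combination (algebraMap L M ((act F)^[s * m] x j)) * h7 -
          (algebraMap L M ((act F)^[s * m] x i)) * h8
      rw [he]
      field_simp
      exact h6
    have he0 : e ≠ 0 := by
      intro h0
      apply hFn (s * n)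
      funext i
      rw [h5 i, h0, zero_mul]
      rfl
    refine hw ⟨s * m, s * n, ?_, e, he0, funext h5⟩
    intro h6
    exact hmn (Nat.eq_of_mul_eq_mul_left (by omega) h6)
  · obtain ⟨CA, hCA⟩ := exists_lin_bound hAM0
    have hn := finrank_pos' (L := L)
    have hnM := finrank_pos' (L := M)
    have hQM : (finrank ℚ M : ℝ) = finrank ℚ L * finrank L M := by
      exact_mod_cast (finrank_mul_finrank ℚ L M).symm
    have hLM : (0 : ℝ) < finrank L M := by exact_mod_cast (finrank_pos : 0 < finrank L M)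
    have hq' : (2 : ℝ) ≤ q := by exact_mod_cast hq
    -- canonical height of the iterate
    have hcan : canH (Fit Gb s) (q ^ s) u = canH Gb q u := by
      have h1 := hB.canH_tendsto hq hu0
      have h2 : Tendsto (fun n : ℕ => s * n) atTop atTop :=
        tendsto_id.const_mul_atTop' (by omega)
      have h3 := h1.comp h2
      have h4 : ((fun n : ℕ => Height.logHeight ((act Gb)^[n] u) /
          ((finrank ℚ M : ℝ) * (q : ℝ) ^ n)) ∘ fun n : ℕ => s * n) =
          fun n : ℕ => Height.logHeight ((act (Fit Gb s))^[n] u) /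
            ((finrank ℚ M : ℝ) * ((q ^ s : ℕ) : ℝ) ^ n) := by
        funext n
        simp only [Function.comp_apply]
        rw [act_Fit_iter]
        push_cast
        rw [pow_mul]
      rw [h4] at h3
      exact h3.limUnder_eq
    rw [hcan]
    have h1 := hB.canH_tendsto hq hu0
    have h2 : Tendsto (fun n : ℕ => Height.logHeight ((act F)^[n] x) /
        ((finrank ℚ L : ℝ) * (q : ℝ) ^ n) - Height.logHeight ((act Gb)^[n] u) /
          ((finrank ℚ M : ℝ) * (q : ℝ) ^ n)) atTop (𝓝 0) := by
      have h3 : ∀ n : ℕ, ‖Height.logHeight ((act F)^[n] x) /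
        ((finrank ℚ L : ℝ) * (q : ℝ) ^ n) - Height.logHeight ((act Gb)^[n] u) /
          ((finrank ℚ M : ℝ) * (q : ℝ) ^ n)‖ ≤ (CA / finrank ℚ M) * (1 / (q : ℝ)) ^ n := by
        intro n
        obtain ⟨c, hc, hc'⟩ := hcomp n
        have h5 : Height.logHeight ((act F)^[n] x) / ((finrank ℚ L : ℝ) * (q : ℝ) ^ n) =
            Height.logHeight (fun i => algebraMap L M ((act F)^[n] x i)) /
              ((finrank ℚ M : ℝ) * (q : ℝ) ^ n) := by
          rw [Helper259.HtExt.logHeight_ext, hQM]
          field_simp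
        rw [h5, hc', Height.logHeight_smul_eq_logHeight _ hc, ← sub_div, Real.norm_eq_abs,
          abs_div, abs_of_pos (show (0 : ℝ) < (finrank ℚ M : ℝ) * (q : ℝ) ^ n by positivity),
          div_le_iff₀ (by positivity)]
        have h6 : CA / finrank ℚ M * (1 / (q : ℝ)) ^ n * ((finrank ℚ M : ℝ) * (q : ℝ) ^ n) =
            CA := by
          rw [div_pow, one_pow]
          field_simp
        rw [h6, abs_sub_comm]
        exact hCA _
      refine squeeze_zero_norm h3 ?_
      have h4 : Tendsto (fun n : ℕ => (1 / (q : ℝ)) ^ n) atTop (𝓝 0) := by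
        apply tendsto_pow_atTop_nhds_zero_of_lt_one (by positivity)
        rw [div_lt_one (by linarith)]
        linarith
      simpa using h4.const_mul (CA / finrank ℚ M)
    have h3 := h2.add h1
    simp only [sub_add_cancel, zero_add] at h3
    exact h3

end Core

end

end Pool.Agent.H627.LP
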