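import Mathlib
import Pool.Agent.H627.LP.Asm

/-!
The theorem for extensions with an automorphism acting as a Frobenius at many places.
-/

set_option autoImplicit false
set_option linter.unusedSectionVars false

namespace Pool.Agent.H627.LP

open NumberField Module MvPolynomial Filter Topology
open Pool.Agent.W238.Leh
open Pool.Agent.H420R3 (mi nv TP ew lP lP_pos sum_ew TP_nonempty mem_TP)
open scoped Pointwise

noncomputable section

section Ram

variable {K M : Type} [Field K] [NumberField K] [Field M] [NumberField M] [Algebra K M]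
  {P : Ideal (𝓞 K)} [hP : P.IsMaximal]

lemma log_absNorm_pos (hP0 : P ≠ ⊥) : 0 < Real.log P.absNorm := by
  apply Real.log_pos
  have h1 : P.absNorm ≠ 1 := by
    intro h
    exact hP.ne_top (Ideal.absNorm_eq_one_iff.mp h)
  have h2 : P.absNorm ≠ 0 := by
    intro h
    exact hP0 (Ideal.absNorm_eq_zero_iff.mp h)
  have h3 : 1 < P.absNorm := by omega
  exact_mod_cast h3

/-- the weight of a place, in terms of the ramification index and the residue degree -/
lemma ew_eq (hP0 : P ≠ ⊥) {w : FinitePlace M} (hw : w ∈ TP M P) :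
    ew K w = ((mi w).ramificationIdx (𝓞 K) * (mi w).inertiaDeg (𝓞 K) : ℕ) *
      Real.log P.absNorm := by
  have hlo := H420R3.liesOver_of_mem hP0 hw
  have h1 := Ideal.absNorm_eq_pow_inertiaDeg'_of_liesOver (mi w) P inferInstance hP0
  rw [Ideal.inertiaDeg'_eq_inertiaDeg] at h1
  unfold ew nv
  rw [h1]
  push_cast
  rw [Real.log_pow]
  ring

lemma sum_ef (hP0 : P ≠ ⊥) :
    ∑ w ∈ TP M P, (mi w).ramificationIdx (𝓞 K) * (mi w).inertiaDeg (𝓞 K) = finrank K M := by
  have h1 := sum_ew (M := M) (P := P) hP0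
  have h2 := log_absNorm_pos (K := K) hP0
  rw [Finset.sum_congr rfl fun w hw => ew_eq hP0 hw, ← Finset.sum_mul] at h1
  have h3 := mul_right_cancel₀ h2.ne' h1
  exact_mod_cast h3

lemma ramIdx_le_finrank (hP0 : P ≠ ⊥) {w : FinitePlace M} (hw : w ∈ TP M P) :
    (mi w).ramificationIdx (𝓞 K) ≤ finrank K M := by
  have h1 := sum_ef (K := K) (M := M) (P := P) hP0
  have h2 : (mi w).ramificationIdx (𝓞 K) * (mi w).inertiaDeg (𝓞 K) ≤ finrank K M := by
    rw [← h1]
    exact Finset.single_le_sum (f := fun w : FinitePlace M =>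
      (mi w).ramificationIdx (𝓞 K) * (mi w).inertiaDeg (𝓞 K)) (fun _ _ => Nat.zero_le _) hw
  have h3 : 0 < (mi w).inertiaDeg (𝓞 K) := (mi w).inertiaDeg_pos (𝓞 K)
  exact (Nat.le_mul_of_pos_right _ h3).trans h2

end Ram

variable {k K : Type} [Field k] [NumberField k] [Field K] [NumberField K] [Algebra k K] {N : ℕ}

/-- the bound at the places in `T` -/
theorem main {p r : ℕ} (hp : p.Prime) (hr : 1 ≤ r)
    (F : Fin (N + 1) → MvPolynomial (Fin (N + 1)) k)
    (A : Matrix (Fin (N + 1)) (Fin (N + 1)) K) (hA : A.det ≠ 0)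
    (G : Fin (N + 1) → MvPolynomial (Fin (N + 1)) K) (hG : ∀ i, (G i).IsHomogeneous (p ^ r))
    (hconj : Conj A F G) (v : FinitePlace K) (hv : v (p : K) < 1) (hred : InsepN v (p ^ r) G)
    {m : ℕ} (hm : 1 ≤ m) (B : ℕ) :
    ∃ C : ℝ, 0 < C ∧ ∀ (L M : Type) [Field L] [NumberField L] [Field M] [NumberField M]
      [Algebra k L] [Algebra k M] [Algebra K M] [Algebra L M] [IsScalarTower k K M]
      [IsScalarTower k L M] (x : Fin (N + 1) → L), x ≠ 0 → Wnd F x →
      ∃ h : ℝ, Tendsto (fun n : ℕ => Height.logHeight ((act F)^[n] x) /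
          ((finrank ℚ L : ℝ) * ((p ^ r : ℕ) : ℝ) ^ n)) atTop (𝓝 h) ∧
        ∀ (τ : Gal(M/K)) (T : Finset (FinitePlace M)), T ⊆ TP M (mi v) →
        (∀ w ∈ T, FrobAt w τ ((mi v).absNorm ^ m)) →
        finrank K M ≤ B * ∑ w ∈ T, (mi w).ramificationIdx (𝓞 K) * (mi w).inertiaDeg (𝓞 K) →
        1 / (C * finrank K M) ≤ h ∧
        ∀ e : ℕ, (∀ w ∈ T, (mi w).ramificationIdx (𝓞 K) ≤ e) → 1 / (C * e) ≤ h := by
  obtain ⟨b, s, hb, hs, hint, hgood⟩ := hred.exists_model hp hr hv hG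
  have hP0 := H420R3.mi_ne_bot v
  have hq : 2 ≤ p ^ r := by
    calc 2 ≤ p := hp.two_le
      _ ≤ p ^ r := Nat.le_self_pow (by omega) _
  set Gb : Fin (N + 1) → MvPolynomial (Fin (N + 1)) K := fun i => C (b : K) * G i with hGb
  have hGbhom : ∀ i, (Gb i).IsHomogeneous (p ^ r) := by
    intro i
    have h7 := (isHomogeneous_C (Fin (N + 1)) (b : K)).mul (hG i)
    rwa [zero_add] at h7
  have hHmor := fun z => hgood.mor hP0 z
  have hGbmor : ∀ z : Fin (N + 1) → AlgebraicClosure K, (∀ i, aeval z (Gb i) = 0) → z = 0 := by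
    intro z hz
    apply hHmor
    intro i
    have h1 : act (Fit Gb s) z = 0 := by
      rw [act_Fit]
      obtain ⟨s', rfl⟩ : ∃ s', s = s' + 1 := ⟨s - 1, by omega⟩
      have h0 : act Gb z = 0 := funext hz
      rw [Function.iterate_succ_apply, h0]
      have h2 : act Gb (0 : Fin (N + 1) → AlgebraicClosure K) = 0 := by
        have := act_smul hGbhom (0 : AlgebraicClosure K) (0 : Fin (N + 1) → AlgebraicClosure K)
        rwa [zero_smul, zero_pow (by omega), zero_smul] at this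
      clear hHmor hs hgood
      induction s' with
      | zero => rfl
      | succ s' ih => rw [Function.iterate_succ_apply', ih, h2]
    exact congrFun h1 i
  obtain ⟨A₁, a₁, hB₁⟩ := bds_of_mor (by omega) hGbhom hint hGbmor
  obtain ⟨A₂, a₂, hB₂⟩ := bds_of_mor hgood.one_le hgood.hom hgood.int hHmor
  obtain ⟨κ, hκ, hκq⟩ := hgood.pow
  set Q := (p ^ r) ^ s with hQ
  have hQ1 : 1 ≤ Q := Nat.one_le_pow _ _ (by omega)
  have hQ1' : (1 : ℝ) ≤ Q := by exact_mod_cast hQ1
  set n₁ := n0 (mi v) A₂ a₂ B with hn₁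
  refine ⟨2 * (Q : ℝ) ^ (m + 1 + n₁), by positivity, ?_⟩
  intro L M _ _ _ _ _ _ _ _ _ _ x hx hw
  obtain ⟨hu0, hwnd, hlim⟩ := transfer (M := M) (F := F) hA hconj hq hG hb hs hB₁ hx
  set u := lin (A.map (algebraMap K M)) (fun i => algebraMap L M (x i)) with hu
  refine ⟨_, hlim, ?_⟩
  intro τ T hT hfr hTB
  have hfr' : ∀ w ∈ T, FrobAt w (τ ^ κ) (Q ^ m) := by
    intro w hwT
    have h1 := (hfr w hwT).pow κ
    rwa [← pow_mul, mul_comm m κ, pow_mul, ← hκq] at h1
  have hTB' : (finrank K M : ℝ) * Real.log (mi v).absNorm ≤ B * ∑ w ∈ T, ew K w := by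
    have h1 := log_absNorm_pos (K := K) hP0
    rw [Finset.sum_congr rfl fun w hw => ew_eq hP0 (hT hw), ← Finset.sum_mul, ← mul_assoc]
    refine mul_le_mul_of_nonneg_right ?_ h1.le
    have h2 : ((finrank K M : ℕ) : ℝ) ≤ ((B * ∑ w ∈ T,
      (mi w).ramificationIdx (𝓞 K) * (mi w).inertiaDeg (𝓞 K) : ℕ) : ℝ) := by exact_mod_cast hTB
    refine h2.trans (le_of_eq ?_)
    push_cast
    rfl
  have hcore : ∀ e : ℕ, (∀ w ∈ T, (mi w).ramificationIdx (𝓞 K) ≤ e) →
      1 / (2 * (Q : ℝ) ^ (m + 1 + n₁) * e) ≤ canH (Fit Gb s) Q u := by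
    intro e he
    exact hgood.core hP0 hB₂ hm hT hfr' hTB' hu0 (hwnd hw) he
  exact ⟨hcore _ fun w hwT => ramIdx_le_finrank hP0 (hT hwT), hcore⟩

end

end Pool.Agent.H627.LP
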