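import Mathlib
import Pool.Agent.H627.LP.Top

/-!
An automorphism acting as a power of Frobenius at a positive proportion of the places, for
Galois extensions in which the powers `σ ^ m` have few conjugates.
-/

set_option autoImplicit false
set_option linter.unusedSectionVars false

namespace Pool.Agent.H627.LP

open NumberField Module
open Pool.Agent.H420R3 (mi nv TP ew TP_nonempty mem_TP)
open scoped Pointwise

noncomputable section

section Group

variable {G : Type*} [Group G] [Finite G]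

/-- the number of elements is at most the number of conjugates times the order of the
centralizer -/
lemma card_le_conj (x : G) {B : ℕ} (h : (Set.range fun g : G => g * x * g⁻¹).ncard ≤ B) :
    Nat.card G ≤ B * Nat.card (Subgroup.centralizer {x}) := by
  classical
  let := Fintype.ofFinite G
  set f : G → G := fun g => g * x * g⁻¹ with hf
  have h1 : (Finset.univ : Finset G).card ≤
      Nat.card (Subgroup.centralizer {x}) * (Finset.univ.image f).card := by
    refine Finset.card_le_mul_card_image _ _ fun b hb => ?_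
    obtain ⟨g₀, _, rfl⟩ := Finset.mem_image.mp hb
    rw [← Fintype.card_coe, ← Nat.card_eq_fintype_card]
    refine Nat.card_le_card_of_injective
      (fun g : (Finset.univ.filter fun g => f g = f g₀) =>
        (⟨g₀⁻¹ * g, ?_⟩ : Subgroup.centralizer {x})) ?_
    · have h2 : f g = f g₀ := (Finset.mem_filter.mp g.2).2
      rw [Subgroup.mem_centralizer_singleton_iff]
      simp only [hf] at h2
      have h3 : g₀⁻¹ * ((g : G) * x * (g : G)⁻¹) * g = g₀⁻¹ * (g₀ * x * g₀⁻¹) * g := by rw [h2]
      calc g₀⁻¹ * (g : G) * x = g₀⁻¹ * ((g : G) * x * (g : G)⁻¹) * g := by group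
        _ = g₀⁻¹ * (g₀ * x * g₀⁻¹) * g := h3
        _ = x * (g₀⁻¹ * g) := by group
    · intro a b hab
      apply Subtype.ext
      have := congrArg Subtype.val hab
      exact mul_left_cancel this
  have h2 : (Finset.univ.image f).card ≤ B := by
    rw [Set.ncard_eq_toFinset_card'] at h
    refine le_trans (le_of_eq ?_) h
    congr 1
    ext y
    simp [hf]
  rw [Nat.card_eq_fintype_card, ← Finset.card_univ]
  calc _ ≤ _ := h1
    _ ≤ Nat.card (Subgroup.centralizer {x}) * B := Nat.mul_le_mul_left _ h2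
    _ = _ := mul_comm _ _

end Group

section Place

variable {K L : Type} [Field K] [NumberField K] [Field L] [NumberField L] [Algebra K L]

lemma liesOver_smul (g : Gal(L/K)) (I : Ideal (𝓞 L)) (P : Ideal (𝓞 K)) [h : I.LiesOver P] :
    (g • I).LiesOver P := by
  constructor
  rw [h.over]
  ext x
  rw [Ideal.mem_comap, Ideal.mem_comap, Ideal.mem_pointwise_smul_iff_inv_smul_mem]
  have h1 : g⁻¹ • (algebraMap (𝓞 K) (𝓞 L) x) = algebraMap (𝓞 K) (𝓞 L) x := by
    apply RingOfIntegers.coe_injective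
    exact (g⁻¹).commutes (x : K)
  rw [h1]

/-- the conjugate of a place -/
lemma exists_place_smul {P : Ideal (𝓞 K)} [hP : P.IsMaximal] (hP0 : P ≠ ⊥)
    {v₀ : FinitePlace L} (hv₀ : v₀ ∈ TP L P) (g : Gal(L/K)) :
    ∃ w ∈ TP L P, mi w = g • mi v₀ := by
  have hlo₀ := H420R3.liesOver_of_mem hP0 hv₀
  have hpr : (g • mi v₀).IsPrime := inferInstance
  have hne : g • mi v₀ ≠ ⊥ := by
    intro h0
    apply H420R3.mi_ne_bot v₀
    have h4 : g⁻¹ • (g • mi v₀) = g⁻¹ • (⊥ : Ideal (𝓞 L)) := by rw [h0]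
    rw [inv_smul_smul] at h4
    rw [h4]
    exact Ideal.smul_bot _
  let I : IsDedekindDomain.HeightOneSpectrum (𝓞 L) := ⟨g • mi v₀, hpr, hne⟩
  have hI : mi (FinitePlace.mk I) = g • mi v₀ := by
    unfold mi
    rw [FinitePlace.maximalIdeal_mk]
  refine ⟨FinitePlace.mk I, ?_, hI⟩
  rw [mem_TP hP0, hI]
  exact ⟨hpr, liesOver_smul g _ P⟩

end Place

variable {K L : Type} [Field K] [NumberField K] [Field L] [NumberField L] [Algebra K L]
  [IsGalois K L] {P : Ideal (𝓞 K)} [hP : P.IsMaximal]

/-- the order of the decomposition group -/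
lemma card_stab (hP0 : P ≠ ⊥) {w : FinitePlace L} (hw : w ∈ TP L P) :
    Nat.card (MulAction.stabilizer Gal(L/K) (mi w)) =
      (mi w).ramificationIdx (𝓞 K) * (mi w).inertiaDeg (𝓞 K) := by
  have hlo := H420R3.liesOver_of_mem hP0 hw
  rw [Ideal.card_stabilizer_eq (G := Gal(L/K)) P (mi w),
    Ideal.ramificationIdxIn_eq_ramificationIdx P (mi w) Gal(L/K),
    Ideal.inertiaDegIn_eq_inertiaDeg P (mi w) Gal(L/K)]

theorem exists_few (hP0 : P ≠ ⊥) (m B : ℕ)
    (hconj : ∀ σ : Gal(L/K), (Set.range fun g : Gal(L/K) => g * σ ^ m * g⁻¹).ncard ≤ B) :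
    ∃ (τ : Gal(L/K)) (T : Finset (FinitePlace L)), T ⊆ TP L P ∧
      (∀ v ∈ T, FrobAt v τ (P.absNorm ^ m)) ∧
      finrank K L ≤ B * ∑ w ∈ T, (mi w).ramificationIdx (𝓞 K) * (mi w).inertiaDeg (𝓞 K) := by
  classical
  obtain ⟨v₀, hv₀⟩ := TP_nonempty (M := L) (P := P) hP0
  obtain ⟨τ₀, h1, h2⟩ := H420R3.exists_frob (K := K) hP0 hv₀ 1
  rw [pow_one] at h2
  have h3 : FrobAt v₀ (τ₀ ^ m) (P.absNorm ^ m) := (show FrobAt v₀ τ₀ P.absNorm from ⟨h1, h2⟩).pow m
  set τ := τ₀ ^ m with hτ
  set T := (TP L P).filter fun w => FrobAt w τ (P.absNorm ^ m) with hT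
  refine ⟨τ, T, Finset.filter_subset _ _, fun v hv => (Finset.mem_filter.mp hv).2, ?_⟩
  set S := Nat.card (MulAction.stabilizer Gal(L/K) (mi v₀)) with hS
  have hef : ∀ w ∈ T, (mi w).ramificationIdx (𝓞 K) * (mi w).inertiaDeg (𝓞 K) = S := by
    intro w hw
    have hwT := (Finset.mem_filter.mp hw).1
    have hlo := H420R3.liesOver_of_mem hP0 hwT
    have hlo₀ := H420R3.liesOver_of_mem hP0 hv₀
    rw [hS, Ideal.card_stabilizer_eq (G := Gal(L/K)) P (mi v₀),
      Ideal.ramificationIdxIn_eq_ramificationIdx P (mi w) Gal(L/K),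
      Ideal.inertiaDegIn_eq_inertiaDeg P (mi w) Gal(L/K)]
  rw [Finset.sum_congr rfl hef, Finset.sum_const, smul_eq_mul]
  set Z := Subgroup.centralizer {τ} with hZ
  have hcard := card_le_conj τ (hconj τ₀)
  have hG : Nat.card Gal(L/K) = finrank K L := IsGalois.card_aut_eq_finrank K L
  rw [hG] at hcard
  refine hcard.trans (Nat.mul_le_mul_left _ ?_)
  -- the orbit of the place under the centralizer
  have hex : ∀ g : Z, ∃ w ∈ T, mi w = (g : Gal(L/K)) • mi v₀ := by
    intro g
    obtain ⟨w, hw, hwg⟩ := exists_place_smul hP0 hv₀ (g : Gal(L/K))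
    refine ⟨w, ?_, hwg⟩
    rw [hT, Finset.mem_filter]
    refine ⟨hw, h3.conj hwg.symm ?_⟩
    have := Subgroup.mem_centralizer_singleton_iff.mp g.2
    exact this.symm
  choose w hwT hwg using hex
  let := Fintype.ofFinite Z
  have h4 : (Finset.univ : Finset Z).card ≤ S * (Finset.univ.image w).card := by
    refine Finset.card_le_mul_card_image _ _ fun b hb => ?_
    obtain ⟨g₀, _, rfl⟩ := Finset.mem_image.mp hb
    rw [← Fintype.card_coe, ← Nat.card_eq_fintype_card]
    refine Nat.card_le_card_of_injective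
      (fun g : (Finset.univ.filter fun g => w g = w g₀) =>
        (⟨((g₀ : Z) : Gal(L/K))⁻¹ * ((g : Z) : Gal(L/K)), ?_⟩ :
          MulAction.stabilizer Gal(L/K) (mi v₀))) ?_
    · have h5 : w g = w g₀ := (Finset.mem_filter.mp g.2).2
      rw [MulAction.mem_stabilizer_iff, mul_smul, ← hwg, h5, hwg, inv_smul_smul]
    · intro a b hab
      apply Subtype.ext
      apply Subtype.ext
      have := congrArg Subtype.val hab
      exact mul_left_cancel this
  have h5 : (Finset.univ.image w).card ≤ T.card := by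
    apply Finset.card_le_card
    intro x hx
    obtain ⟨g, _, rfl⟩ := Finset.mem_image.mp hx
    exact hwT g
  rw [Nat.card_eq_fintype_card, ← Finset.card_univ]
  calc _ ≤ _ := h4
    _ ≤ S * T.card := Nat.mul_le_mul_left _ h5
    _ = _ := mul_comm _ _

end

end Pool.Agent.H627.LP
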