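import Mathlib
import Pool.Agent.H627.LP.Few

/-!
Elements fixed by the inertia group approximate all elements, and the refined estimate for the
initial closeness.
-/

set_option autoImplicit false
set_option linter.unusedSectionVars false

namespace Pool.Agent.H627.LP

open NumberField Module MvPolynomial
open Pool.Agent.W238.Leh
open Pool.Agent.H420R3 (mi nv TP ew TP_nonempty mem_TP exists_frac v_lt_one_iff v_fixed_le
  card_inertia nv_pos v_smul)
open scoped Pointwise

noncomputable section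

section Center

variable {K M : Type} [Field K] [NumberField K] [Field M] [NumberField M] [Algebra K M]
  [IsGalois K M]

/-- integers are congruent to integers fixed by the inertia group -/
lemma center_int (v : FinitePlace M) (x : 𝓞 M) :
    ∃ c : 𝓞 M, (∀ h ∈ (mi v).inertia Gal(M/K), h • c = c) ∧ x - c ∈ mi v := by
  set H : Subgroup Gal(M/K) := (mi v).inertia Gal(M/K) with hH
  let E : IntermediateField K M := FixedPoints.intermediateField H
  have hnE : NumberField E := inferInstance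
  have hg : IsGaloisGroup H E M := inferInstance
  have hgi : IsGaloisGroup H (𝓞 E) (𝓞 M) := IsGaloisGroup.of_isFractionRing H (𝓞 E) (𝓞 M) E M
  let q : Ideal (𝓞 E) := (mi v).under (𝓞 E)
  have hlo : (mi v).LiesOver q := ⟨rfl⟩
  have hqm : q.IsMaximal := inferInstance
  have h1 := Ideal.card_stabilizer_eq_card_inertia_mul_finrank (G := H) q (mi v)
  have h3 : Nat.card ((mi v).inertia H) = Nat.card H := by
    have : (mi v).inertia H = ⊤ := by
      rw [eq_top_iff]
      intro h _
      rw [AddSubgroup.mem_inertia]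
      intro x
      exact (AddSubgroup.mem_inertia.mp h.2) x
    rw [this]
    exact Subgroup.card_top
  have h4 : Nat.card (MulAction.stabilizer H (mi v)) ≤ Nat.card H :=
    Subgroup.card_le_card_group _
  have h5 : 0 < Nat.card H := Nat.card_pos
  have h6 : 0 < (mi v).inertiaDeg (𝓞 E) := (mi v).inertiaDeg_pos (𝓞 E)
  have h7 : (mi v).inertiaDeg (𝓞 E) = 1 := by
    rw [h3] at h1
    have h4' : Nat.card H * (mi v).inertiaDeg (𝓞 E) ≤ Nat.card H := h1.symm.le.trans h4
    have h8 : (mi v).inertiaDeg (𝓞 E) ≤ 1 := by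
      by_contra hcon
      push Not at hcon
      have h9 : Nat.card H * 2 ≤ Nat.card H * (mi v).inertiaDeg (𝓞 E) :=
        Nat.mul_le_mul_left _ hcon
      omega
    omega
  rw [Ideal.inertiaDeg_eq_of_isMaximal q (mi v)] at h7
  let : Field (𝓞 E ⧸ q) := Ideal.Quotient.field q
  have h8 := (Algebra.finrank_eq_one_iff_bijective_algebraMap.mp h7).2
  obtain ⟨c₀, hc₀⟩ := h8 (Ideal.Quotient.mk (mi v) x)
  obtain ⟨c, rfl⟩ := Ideal.Quotient.mk_surjective c₀
  refine ⟨algebraMap (𝓞 E) (𝓞 M) c, ?_, ?_⟩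
  · intro h hh
    have h9 : (⟨h, hh⟩ : H) • algebraMap (𝓞 E) (𝓞 M) c = algebraMap (𝓞 E) (𝓞 M) c :=
      smul_algebraMap (⟨h, hh⟩ : H) c
    exact h9
  · rw [← Ideal.Quotient.eq, ← hc₀]
    rfl

/-- elements are congruent to elements fixed by the inertia group -/
lemma center (v : FinitePlace M) {x : M} (hx : v x ≤ 1) :
    ∃ c : M, (∀ h ∈ (mi v).inertia Gal(M/K), h c = c) ∧ v c ≤ 1 ∧ v (x - c) < 1 := by
  obtain ⟨a, b, hb, rfl⟩ := exists_frac v hx
  obtain ⟨ca, ha1, ha2⟩ := center_int (K := K) v a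
  obtain ⟨cb, hb1, hb2⟩ := center_int (K := K) v b
  have hcb : cb ∉ mi v := by
    intro h
    apply hb
    have := (mi v).add_mem hb2 h
    rwa [sub_add_cancel] at this
  have hvb : v (b : M) = 1 := H420R3.v_eq_one_of_notMem v hb
  have hvcb : v (cb : M) = 1 := H420R3.v_eq_one_of_notMem v hcb
  have hb0 : (b : M) ≠ 0 := by
    intro h
    rw [h, map_zero] at hvb
    norm_num at hvb
  have hcb0 : (cb : M) ≠ 0 := by
    intro h
    rw [h, map_zero] at hvcb
    norm_num at hvcb
  refine ⟨(ca : M) / (cb : M), ?_, ?_, ?_⟩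
  · intro h hh
    have e1 : h (ca : M) = (ca : M) := by
      have := congrArg (fun y : 𝓞 M => (y : M)) (ha1 h hh)
      exact this
    have e2 : h (cb : M) = (cb : M) := by
      have := congrArg (fun y : 𝓞 M => (y : M)) (hb1 h hh)
      exact this
    rw [map_div₀, e1, e2]
  · rw [map_div₀, hvcb, div_one]
    exact H420R3.v_le_one v ca
  · have e1 : (a : M) / (b : M) - (ca : M) / (cb : M) =
        (((a * cb - b * ca : 𝓞 M)) : M) / ((b : M) * (cb : M)) := by
      push_cast
      field_simp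
    rw [e1, map_div₀, map_mul, hvb, hvcb, one_mul, div_one, v_lt_one_iff]
    have e2 : a * cb - b * ca = (a - ca) * cb - (b - cb) * ca := by ring
    rw [e2]
    exact (mi v).sub_mem ((mi v).mul_mem_right _ ha2) ((mi v).mul_mem_right _ hb2)

/-- conjugation of the inertia group -/
lemma inertia_conj {v : FinitePlace M} {τ : Gal(M/K)} (hτ : τ • mi v = mi v) {g : Gal(M/K)}
    (hg : g ∈ (mi v).inertia Gal(M/K)) : τ⁻¹ * g * τ ∈ (mi v).inertia Gal(M/K) := by
  rw [AddSubgroup.mem_inertia]
  intro x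
  have h1 := AddSubgroup.mem_inertia.mp hg (τ • x)
  have h2 : τ⁻¹ • (g • τ • x - τ • x) ∈ τ⁻¹ • mi v :=
    Ideal.smul_mem_pointwise_smul_iff.mpr h1
  have h3 : τ⁻¹ • mi v = mi v := by rw [inv_smul_eq_iff, hτ]
  rw [h3, smul_sub, inv_smul_smul] at h2
  have h4 : (τ⁻¹ * g * τ) • x = τ⁻¹ • g • τ • x := by
    rw [mul_smul, mul_smul]
  change (τ⁻¹ * g * τ) • x - x ∈ mi v
  rw [h4]
  exact h2

end Center

section Near

variable {K M : Type} [Field K] [NumberField K] [Field M] [NumberField M] [Algebra K M] {N : ℕ}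
variable {F : Fin (N + 1) → MvPolynomial (Fin (N + 1)) K} {q : ℕ} {ρ : ℝ}

/-- iterates do not separate close vectors -/
lemma RedN.iter_le {v : FinitePlace M} (h : RedN v F q ρ) {η : ℝ} (hη : 0 ≤ η) (hη1 : η ≤ 1)
    {z w : Fin (N + 1) → M} (hc : Cl v η z w) (n : ℕ) :
    Cl v η ((act F)^[n] z) ((act F)^[n] w) := by
  induction n with
  | zero => exact hc
  | succ n ih =>
    rw [Function.iterate_succ_apply', Function.iterate_succ_apply']
    refine (h.step hη ih).mono (max_le ?_ ?_)
    · exact mul_le_of_le_one_left hη h.lt.le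
    · have := h.two_le
      exact pow_le_of_le_one hη hη1 (by omega)

variable [IsGalois K M]

/-- the refined initial closeness -/
theorem init_near {P : Ideal (𝓞 K)} [hP : P.IsMaximal] (hP0 : P ≠ ⊥) {v : FinitePlace M}
    (hv : v ∈ TP M P) (hF : ∀ i, (F i).IsHomogeneous q) (hR : RedN v F q ρ) {j : ℕ}
    {τ : Gal(M/K)} (hfr : FrobAt v τ (q ^ j)) {H : Subgroup Gal(M/K)}
    (hH : H ≤ (mi v).inertia Gal(M/K)) {w : Fin (N + 1) → M} (hw : w ≠ 0)
    (hwH : ∀ h ∈ H, ∀ i, h (w i) = w i) {e : ℕ}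
    (he : Nat.card ((mi v).inertia Gal(M/K)) ≤ e * Nat.card H) :
    ∃ c d : M, Cl v (Real.exp (-(ew K v * (1 / (e : ℝ))))) (c • (act F)^[j] w)
      (d • fun i => τ (w i)) := by
  classical
  set I := (mi v).inertia Gal(M/K) with hI
  set η := Real.exp (-(ew K v * (1 / (e : ℝ)))) with hη
  have hη0 : 0 < η := Real.exp_pos _
  have hew := H420R3.ew_pos (K := K) v
  have he1 : 1 ≤ e := by
    rcases Nat.eq_zero_or_pos e with h0 | h0
    · rw [h0, zero_mul] at he
      have : 0 < Nat.card I := Nat.card_pos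
      omega
    · exact h0
  have he' : (1 : ℝ) ≤ e := by exact_mod_cast he1
  have hη1 : η ≤ 1 := by
    rw [hη, Real.exp_le_one_iff]
    have : 0 ≤ ew K v * (1 / (e : ℝ)) := by positivity
    linarith
  have hlog := H420R3.log_nv_pos v
  -- the bound for elements fixed by `H`
  have hbH : (nv v ^ Nat.card H)⁻¹ ≤ η := by
    have h1 : (nv v ^ Nat.card H)⁻¹ = Real.exp (-(Nat.card H * Real.log (nv v))) := by
      rw [Real.exp_neg, Real.exp_nat_mul, Real.exp_log (nv_pos v)]
    rw [h1, hη, Real.exp_le_exp, neg_le_neg_iff, ← card_inertia hP0 hv, mul_one_div,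
      div_le_iff₀ (by linarith)]
    have h2 : (Nat.card I : ℝ) ≤ e * Nat.card H := by exact_mod_cast he
    nlinarith
  have hbI : (nv v ^ Nat.card I)⁻¹ ≤ η := by
    have h1 : (nv v ^ Nat.card I)⁻¹ = Real.exp (-(Nat.card I * Real.log (nv v))) := by
      rw [Real.exp_neg, Real.exp_nat_mul, Real.exp_log (nv_pos v)]
    rw [h1, hη, Real.exp_le_exp, neg_le_neg_iff, card_inertia hP0 hv]
    calc ew K v * (1 / (e : ℝ)) ≤ ew K v * 1 := by
          apply mul_le_mul_of_nonneg_left _ hew.le
          rw [div_le_one (by linarith)]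
          exact he'
      _ = ew K v := mul_one _
  -- normalisation
  obtain ⟨i₀, hi₀⟩ := exists_nmf (v := v) w
  have hpos := nmf_pos v hw
  set w' : Fin (N + 1) → M := (w i₀)⁻¹ • w with hw'
  have hw'1 : nmf v w' = 1 := by
    rw [hw', nmf_smul, map_inv₀, hi₀, inv_mul_cancel₀ hpos.ne']
  have hw'le : ∀ i, v (w' i) ≤ 1 := fun i => (le_nmf v w' i).trans hw'1.le
  have hw'H : ∀ h ∈ H, ∀ i, h (w' i) = w' i := by
    intro h hh i
    simp only [hw', Pi.smul_apply, smul_eq_mul, map_mul, map_inv₀, hwH h hh]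
  -- centres
  choose c hc1 hc2 hc3 using fun i => center (K := K) v (hw'le i)
  have hcl : ∀ i, v (w' i - c i) ≤ η := by
    intro i
    refine le_trans (v_fixed_le v H hH ?_ (hc3 i)) hbH
    intro h hh
    rw [map_sub, hw'H h hh, hc1 i h (hH hh)]
  have hw'i₀ : w' i₀ = 1 := by
    have h0 : w i₀ ≠ 0 := by
      intro h0
      rw [h0, map_zero] at hi₀
      linarith
    simp only [hw', Pi.smul_apply, smul_eq_mul]
    exact inv_mul_cancel₀ h0
  have hcn : nmf v c = 1 := by
    apply le_antisymm (nmf_le hc2)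
    by_contra hcon
    push Not at hcon
    have h1 := lt_of_le_of_lt (le_nmf v c i₀) hcon
    have h2 := v_sub_le v (w' i₀ - c i₀) (- c i₀)
    rw [sub_neg_eq_add, sub_add_cancel, hw'i₀, map_one] at h2
    have h3 : v (- c i₀) < 1 := by
      rw [← FinitePlace.norm_embedding_eq, map_neg, norm_neg, FinitePlace.norm_embedding_eq]
      exact h1
    have h4 := max_lt (hc3 i₀) h3
    rw [hw'i₀] at h4
    linarith
  have hClw : Cl v η w' c := ⟨hw'1, hcn, hcl⟩
  have hit := hR.iter_le hη0.le hη1 hClw j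
  refine ⟨((w i₀)⁻¹) ^ (q ^ j), τ ((w i₀)⁻¹), ?_⟩
  have e1 : ((w i₀)⁻¹) ^ (q ^ j) • (act F)^[j] w = (act F)^[j] w' := by
    rw [hw', act_iter_smul hF]
  have e2 : (τ ((w i₀)⁻¹) • fun i => τ (w i)) = fun i => τ (w' i) := by
    funext i
    simp only [hw', Pi.smul_apply, smul_eq_mul, map_mul]
  rw [e1, e2]
  refine ⟨hit.hz, ?_, fun i => ?_⟩
  · rw [← hw'1]
    unfold nmf
    simp only [v_smul v hfr.1]
  · -- the centres
    have h1 : v ((act F)^[j] c i - τ (c i)) ≤ η := by
      refine le_trans (v_fixed_le v I le_rfl ?_ ?_) hbI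
      · intro g hg
        have h2 : g ((act F)^[j] c i) = (act F)^[j] c i := by
          have h3 := congrFun (act_gal_iter (F := F) g c j) i
          rw [← h3]
          congr 1
          have h4 : (fun i => g (c i)) = c := by
            funext i'
            exact hc1 i' g hg
          rw [h4]
        have h3 : g (τ (c i)) = τ (c i) := by
          have h4 := hc1 i _ (inertia_conj hfr.1 hg)
          have h5 : τ ((τ⁻¹ * g * τ) (c i)) = τ (c i) := by rw [h4]
          rw [← AlgEquiv.mul_apply, ← mul_assoc, ← mul_assoc, mul_inv_cancel, one_mul,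
            AlgEquiv.mul_apply] at h5
          exact h5
        rw [map_sub, h2, h3]
      · have h2 := (hR.iter_frob hc2 j i).2
        have h3 := hfr.lt (hc2 i)
        have h4 : (act F)^[j] c i - τ (c i) =
            ((act F)^[j] c i - c i ^ q ^ j) - (τ (c i) - c i ^ q ^ j) := by ring
        rw [h4]
        exact lt_of_le_of_lt (v_sub_le v _ _) (max_lt (lt_of_le_of_lt h2 hR.lt) h3)
    have h2 : v (τ (c i) - τ (w' i)) ≤ η := by
      rw [← map_sub, v_smul v hfr.1]
      have h3 : c i - w' i = -(w' i - c i) := by ring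
      rw [h3, ← FinitePlace.norm_embedding_eq, map_neg, norm_neg, FinitePlace.norm_embedding_eq]
      exact hcl i
    have h3 : (act F)^[j] w' i - τ (w' i) = ((act F)^[j] w' i - (act F)^[j] c i) +
        (((act F)^[j] c i - τ (c i)) + (τ (c i) - τ (w' i))) := by ring
    rw [h3]
    refine (FinitePlace.add_le v _ _).trans (max_le (hit.cl i) ?_)
    exact (FinitePlace.add_le v _ _).trans (max_le h1 h2)

end Near

section Tower

variable {K L M : Type} [Field K] [NumberField K] [Field L] [NumberField L] [Field M]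
  [NumberField M] [Algebra K L] [Algebra K M] [Algebra L M] [IsScalarTower K L M]
  [IsGalois K M] {P : Ideal (𝓞 K)} [hP : P.IsMaximal]

/-- the subgroup of the inertia group fixing a conjugate of `L` -/
theorem exists_H (hP0 : P ≠ ⊥) {v : FinitePlace M} (hv : v ∈ TP M P) (σ : Gal(M/K)) {e : ℕ}
    (he : ∀ 𝔓 : Ideal (𝓞 L), 𝔓.IsPrime → 𝔓.under (𝓞 K) = P → 𝔓.ramificationIdx (𝓞 K) ≤ e) :
    ∃ H : Subgroup Gal(M/K), H ≤ (mi v).inertia Gal(M/K) ∧
      (∀ h ∈ H, ∀ y : L, h (σ (algebraMap L M y)) = σ (algebraMap L M y)) ∧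
      Nat.card ((mi v).inertia Gal(M/K)) ≤ e * Nat.card H := by
  classical
  have hGL : IsGalois L M := IsGalois.tower_top_of_isGalois K L M
  obtain ⟨w, hw, hwσ⟩ := exists_place_smul hP0 hv σ⁻¹
  have hlov := H420R3.liesOver_of_mem hP0 hv
  have hlow := H420R3.liesOver_of_mem hP0 hw
  set I := (mi v).inertia Gal(M/K) with hI
  set H : Subgroup Gal(M/K) := I ⊓
    { carrier := {h | ∀ y : L, h (σ (algebraMap L M y)) = σ (algebraMap L M y)}
      mul_mem' := by
        intro a b ha hb y
        rw [AlgEquiv.mul_apply, hb y, ha y]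
      one_mem' := fun y => rfl
      inv_mem' := by
        intro a ha y
        have h1 : a⁻¹ (a (σ (algebraMap L M y))) = a⁻¹ (σ (algebraMap L M y)) := by rw [ha y]
        rw [← AlgEquiv.mul_apply, inv_mul_cancel] at h1
        exact h1.symm } with hHdef
  refine ⟨H, inf_le_left, fun h hh y => hh.2 y, ?_⟩
  -- the prime of `L`
  set 𝔓 : Ideal (𝓞 L) := (mi w).under (𝓞 L) with h𝔓
  have h𝔓m : 𝔓.IsMaximal := Ideal.isMaximal_comap_of_isIntegral_of_isMaximal (mi w)
  have hlo1 : (mi w).LiesOver 𝔓 := ⟨rfl⟩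
  have h𝔓P : 𝔓.under (𝓞 K) = P := by
    rw [h𝔓, Ideal.under_under]
    exact hlow.over.symm
  have h1 : Nat.card I = (mi w).ramificationIdx (𝓞 K) := by
    rw [hI, Ideal.card_inertia_eq_ramificationIdxIn (G := Gal(M/K)) P (mi v)]
    exact Ideal.ramificationIdxIn_eq_ramificationIdx P (mi w) Gal(M/K)
  have h2 : (mi w).ramificationIdx (𝓞 K) =
      𝔓.ramificationIdx (𝓞 K) * (mi w).ramificationIdx (𝓞 L) :=
    Ideal.ramificationIdx_tower (R := 𝓞 K) 𝔓 (mi w)
  have h3 : Nat.card ((mi w).inertia Gal(M/L)) = (mi w).ramificationIdx (𝓞 L) := by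
    rw [Ideal.card_inertia_eq_ramificationIdxIn (G := Gal(M/L)) 𝔓 (mi w)]
    exact Ideal.ramificationIdxIn_eq_ramificationIdx 𝔓 (mi w) Gal(M/L)
  have key : ∀ g : (mi w).inertia Gal(M/L),
      σ * (g : Gal(M/L)).restrictScalars K * σ⁻¹ ∈ H := by
    intro g
    refine ⟨?_, ?_⟩
    · change σ * (g : Gal(M/L)).restrictScalars K * σ⁻¹ ∈ (mi v).inertia Gal(M/K)
      rw [AddSubgroup.mem_inertia]
      intro x
      have h4 := AddSubgroup.mem_inertia.mp g.2 (σ⁻¹ • x)
      have h5 : σ • ((g : Gal(M/L)) • (σ⁻¹ • x) - σ⁻¹ • x) ∈ σ • mi w :=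
        Ideal.smul_mem_pointwise_smul_iff.mpr h4
      have h5' : σ • mi w = mi v := by rw [hwσ, smul_inv_smul]
      rw [h5', smul_sub, smul_inv_smul] at h5
      have h6 : (σ * (g : Gal(M/L)).restrictScalars K * σ⁻¹) • x =
          σ • ((g : Gal(M/L)) • (σ⁻¹ • x)) := by
        rw [mul_smul, mul_smul]
        rfl
      change (σ * (g : Gal(M/L)).restrictScalars K * σ⁻¹) • x - x ∈ mi v
      rw [h6]
      exact h5
    · intro y
      rw [AlgEquiv.mul_apply, AlgEquiv.mul_apply]
      have h4 : σ⁻¹ (σ (algebraMap L M y)) = algebraMap L M y := by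
        rw [← AlgEquiv.mul_apply, inv_mul_cancel]
        rfl
      rw [h4]
      have h5 : (g : Gal(M/L)).restrictScalars K (algebraMap L M y) = algebraMap L M y :=
        (g : Gal(M/L)).commutes y
      rw [h5]
  have h4 : Nat.card ((mi w).inertia Gal(M/L)) ≤ Nat.card H := by
    refine Nat.card_le_card_of_injective (fun g => (⟨_, key g⟩ : H)) ?_
    intro a b hab
    have h5 := congrArg Subtype.val hab
    have h6 : (a : Gal(M/L)).restrictScalars K = (b : Gal(M/L)).restrictScalars K :=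
      mul_left_cancel (mul_right_cancel h5)
    apply Subtype.ext
    ext x
    exact AlgEquiv.congr_fun h6 x
  rw [h1, h2, ← h3]
  exact Nat.mul_le_mul (he 𝔓 h𝔓m.isPrime h𝔓P) h4

end Tower

end

end Pool.Agent.H627.LP
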