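import Mathlib
import Pool.Agent.H627.LP.Few
import Pool.Agent.H420R3.Top

/-!
Galois extensions of the small field, and their composita with the field over which the
reduction is good.
-/

set_option autoImplicit false
set_option linter.unusedSectionVars false

namespace Pool.Agent.H627.LP

open NumberField Module MvPolynomial Filter Topology
open Pool.Agent.W238.Leh
open Pool.Agent.H420R3 (mi nv TP ew lP lP_pos sum_ew TP_nonempty mem_TP CP finrank_CP_le jL jK'
  embL embK')
open scoped Pointwise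

noncomputable section

section Comp

variable {k K L M : Type} [Field k] [NumberField k] [Field K] [NumberField K] [Field L]
  [NumberField L] [Field M] [NumberField M] [Algebra k K] [Algebra k L] [Algebra k M]
  [Algebra K M] [Algebra L M] [IsScalarTower k K M] [IsScalarTower k L M]

variable (k K L M) in
/-- `M` is generated by `K` and `L` -/
def Gen : Prop :=
  (IsScalarTower.toAlgHom k L M).fieldRange ⊔ (IsScalarTower.toAlgHom k K M).fieldRange = ⊤

lemma isGalois_comp [IsGalois k L] (hgen : Gen k K L M) : IsGalois K M := by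
  set e1 := AlgEquiv.ofInjectiveField (IsScalarTower.toAlgHom k L M) with he1
  set e2 := AlgEquiv.ofInjectiveField (IsScalarTower.toAlgHom k K M) with he2
  have h1 : IsGalois k (IsScalarTower.toAlgHom k L M).fieldRange := IsGalois.of_algEquiv e1
  have h2 : FiniteDimensional k (IsScalarTower.toAlgHom k L M).fieldRange :=
    e1.toLinearEquiv.finiteDimensional
  have h3 := IsGalois.sup_right _ _ hgen
  let f : (IsScalarTower.toAlgHom k K M).fieldRange ≃+* K := e2.symm.toRingEquiv
  refine IsGalois.of_equiv_equiv (f := f) (g := RingEquiv.refl M) ?_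
  refine RingHom.ext fun x => ?_
  obtain ⟨y, rfl⟩ := e2.surjective x
  change algebraMap K M (e2.symm (e2 y)) = ((e2 y : _) : M)
  rw [AlgEquiv.symm_apply_apply]
  rfl

/-- restriction of automorphisms -/
def resH [IsGalois k L] (σ : Gal(M/K)) : Gal(L/k) := (σ.restrictScalars k).restrictNormal L

lemma resH_commutes [IsGalois k L] (σ : Gal(M/K)) (y : L) :
    algebraMap L M ((resH σ : Gal(L/k)) y) = σ (algebraMap L M y) :=
  (σ.restrictScalars k).restrictNormal_commutes L y

lemma resH_mul [IsGalois k L] (σ g : Gal(M/K)) :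
    (resH (σ * g) : Gal(L/k)) = resH σ * resH g := by
  ext y
  apply (algebraMap L M).injective
  rw [AlgEquiv.mul_apply, resH_commutes, resH_commutes, resH_commutes]
  rfl

lemma resH_pow [IsGalois k L] (σ : Gal(M/K)) (n : ℕ) :
    (resH (σ ^ n) : Gal(L/k)) = resH σ ^ n := by
  induction n with
  | zero =>
    ext y
    apply (algebraMap L M).injective
    rw [pow_zero, pow_zero, resH_commutes]
    rfl
  | succ n ih => rw [pow_succ, resH_mul, ih, pow_succ]

lemma resH_inj [IsGalois k L] (hgen : Gen k K L M) {σ g : Gal(M/K)}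
    (h : (resH σ : Gal(L/k)) = resH g) : σ = g := by
  set τ : Gal(M/k) := (g⁻¹ * σ).restrictScalars k with hτ
  have hL : ∀ y : L, τ (algebraMap L M y) = algebraMap L M y := by
    intro y
    change g⁻¹ (σ (algebraMap L M y)) = _
    rw [← resH_commutes (k := k), h, resH_commutes]
    change (g⁻¹ * g) (algebraMap L M y) = _
    rw [inv_mul_cancel]
    rfl
  have hK : ∀ y : K, τ (algebraMap K M y) = algebraMap K M y := by
    intro y
    exact (g⁻¹ * σ).commutes y
  have h1 : τ ∈ (⊤ : IntermediateField k M).fixingSubgroup := by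
    have hgen' : (IsScalarTower.toAlgHom k L M).fieldRange ⊔
      (IsScalarTower.toAlgHom k K M).fieldRange = ⊤ := hgen
    rw [← hgen', IntermediateField.fixingSubgroup_sup]
    refine ⟨?_, ?_⟩
    · rintro ⟨x, hx⟩
      obtain ⟨y, rfl⟩ := hx
      exact hL y
    · rintro ⟨x, hx⟩
      obtain ⟨y, rfl⟩ := hx
      exact hK y
  rw [IntermediateField.fixingSubgroup_top, Subgroup.mem_bot] at h1
  ext x
  have h2 : τ x = x := by rw [h1]; rfl
  have h3 : g⁻¹ (σ x) = x := h2
  have h4 : g (g⁻¹ (σ x)) = g x := by rw [h3]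
  rw [← AlgEquiv.mul_apply, mul_inv_cancel] at h4
  exact h4

lemma resH_one [IsGalois k L] : (resH (1 : Gal(M/K)) : Gal(L/k)) = 1 := by
  have := resH_pow (k := k) (L := L) (1 : Gal(M/K)) 0
  simpa using this

lemma resH_inv [IsGalois k L] (g : Gal(M/K)) : (resH g⁻¹ : Gal(L/k)) = (resH g)⁻¹ := by
  apply eq_inv_of_mul_eq_one_left
  rw [← resH_mul, inv_mul_cancel, resH_one]

lemma conj_comp [IsGalois k L] (hgen : Gen k K L M) {m B : ℕ}
    (hconj : ∀ σ : Gal(L/k), (Set.range fun g : Gal(L/k) => g * σ ^ m * g⁻¹).ncard ≤ B)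
    (σ : Gal(M/K)) : (Set.range fun g : Gal(M/K) => g * σ ^ m * g⁻¹).ncard ≤ B := by
  refine le_trans ?_ (hconj (resH σ))
  refine Set.ncard_le_ncard_of_injOn (fun g : Gal(M/K) => (resH g : Gal(L/k))) ?_ ?_
    (Set.toFinite _)
  · rintro _ ⟨g, rfl⟩
    refine ⟨resH g, ?_⟩
    simp only [resH_mul, resH_pow, resH_inv]
  · intro a _ b _ h
    exact resH_inj hgen h

/-- ramification does not increase in the compositum -/
lemma ram_comp [IsGalois k L] [IsGalois K M] (hgen : Gen k K L M) (w : FinitePlace M) :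
    (mi w).ramificationIdx (𝓞 K) ≤
      ((mi w).comap (algebraMap (𝓞 L) (𝓞 M))).ramificationIdx (𝓞 k) := by
  classical
  set 𝔓 : Ideal (𝓞 L) := (mi w).comap (algebraMap (𝓞 L) (𝓞 M)) with h𝔓
  have h𝔓m : 𝔓.IsMaximal := Ideal.isMaximal_comap_of_isIntegral_of_isMaximal (mi w)
  set P : Ideal (𝓞 K) := (mi w).under (𝓞 K) with hP
  set p : Ideal (𝓞 k) := 𝔓.under (𝓞 k) with hp
  have hPm : P.IsMaximal := Ideal.isMaximal_comap_of_isIntegral_of_isMaximal (mi w)
  have hpm : p.IsMaximal := Ideal.isMaximal_comap_of_isIntegral_of_isMaximal 𝔓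
  have hlo1 : (mi w).LiesOver P := ⟨rfl⟩
  have hlo2 : 𝔓.LiesOver p := ⟨rfl⟩
  have hP0 : P ≠ ⊥ := by
    intro h0
    have : (mi w) = ⊥ := Ideal.eq_bot_of_comap_eq_bot (R := 𝓞 K) h0
    exact H420R3.mi_ne_bot w this
  have h𝔓0 : 𝔓 ≠ ⊥ := by
    intro h0
    have : (mi w) = ⊥ := Ideal.eq_bot_of_comap_eq_bot (R := 𝓞 L) h0
    exact H420R3.mi_ne_bot w this
  have hp0 : p ≠ ⊥ := by
    intro h0
    have : 𝔓 = ⊥ := Ideal.eq_bot_of_comap_eq_bot (R := 𝓞 k) h0
    exact h𝔓0 this
  have h1 : Nat.card ((mi w).inertia Gal(M/K)) = (mi w).ramificationIdx (𝓞 K) := by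
    rw [Ideal.card_inertia_eq_ramificationIdxIn (G := Gal(M/K)) P (mi w)]
    exact Ideal.ramificationIdxIn_eq_ramificationIdx P (mi w) Gal(M/K)
  have h2 : Nat.card (𝔓.inertia Gal(L/k)) = 𝔓.ramificationIdx (𝓞 k) := by
    rw [Ideal.card_inertia_eq_ramificationIdxIn (G := Gal(L/k)) p 𝔓]
    exact Ideal.ramificationIdxIn_eq_ramificationIdx p 𝔓 Gal(L/k)
  rw [← h1, ← h2]
  have key : ∀ σ : (mi w).inertia Gal(M/K), (resH (σ : Gal(M/K)) : Gal(L/k)) ∈
      𝔓.inertia Gal(L/k) := by
    intro σ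
    rw [AddSubgroup.mem_inertia]
    intro y
    have h3 := AddSubgroup.mem_inertia.mp σ.2 (algebraMap (𝓞 L) (𝓞 M) y)
    change (algebraMap (𝓞 L) (𝓞 M) ((resH (σ : Gal(M/K)) : Gal(L/k)) • y - y)) ∈ mi w
    have h4 : algebraMap (𝓞 L) (𝓞 M) ((resH (σ : Gal(M/K)) : Gal(L/k)) • y - y) =
        (σ : Gal(M/K)) • algebraMap (𝓞 L) (𝓞 M) y - algebraMap (𝓞 L) (𝓞 M) y := by
      rw [map_sub]
      congr 1
      apply RingOfIntegers.coe_injective
      exact resH_commutes (k := k) (σ : Gal(M/K)) (y : L)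
    rw [h4]
    exact h3
  refine Nat.card_le_card_of_injective (fun σ => (⟨_, key σ⟩ : 𝔓.inertia Gal(L/k))) ?_
  intro σ g h
  apply Subtype.ext
  exact resH_inj hgen (congrArg Subtype.val h)

end Comp

section CPgen

variable (k K L : Type) [Field k] [NumberField k] [Field K] [NumberField K] [Field L]
  [NumberField L] [Algebra k K] [Algebra k L]

lemma gen_CP : Gen k K L (CP k K L) := by
  unfold Gen
  rw [← IntermediateField.lift_inj, IntermediateField.lift_top, IntermediateField.lift_sup]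
  have h1 : IntermediateField.lift (IsScalarTower.toAlgHom k L (CP k K L)).fieldRange =
      (embL k L).fieldRange := by
    ext x
    constructor
    · intro hx
      obtain ⟨y, ⟨a, rfl⟩, rfl⟩ := hx
      exact ⟨a, rfl⟩
    · rintro ⟨a, rfl⟩
      exact ⟨jL k K L a, ⟨a, rfl⟩, rfl⟩
  have h2 : IntermediateField.lift (IsScalarTower.toAlgHom k K (CP k K L)).fieldRange =
      (embK' k K L).fieldRange := by
    ext x
    constructor
    · intro hx
      obtain ⟨y, ⟨a, rfl⟩, rfl⟩ := hx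
      exact ⟨a, rfl⟩
    · rintro ⟨a, rfl⟩
      exact ⟨jK' k K L a, ⟨a, rfl⟩, rfl⟩
  rw [h1, h2]

end CPgen

variable {k K : Type} [Field k] [NumberField k] [Field K] [NumberField K] [Algebra k K] {N : ℕ}

/-- Galois extensions of the small field -/
theorem galois {p r : ℕ} (hp : p.Prime) (hr : 1 ≤ r)
    (F : Fin (N + 1) → MvPolynomial (Fin (N + 1)) k)
    (A : Matrix (Fin (N + 1)) (Fin (N + 1)) K) (hA : A.det ≠ 0)
    (G : Fin (N + 1) → MvPolynomial (Fin (N + 1)) K) (hG : ∀ i, (G i).IsHomogeneous (p ^ r))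
    (hconj : Conj A F G) (v : FinitePlace K) (hv : v (p : K) < 1) (hred : InsepN v (p ^ r) G)
    {m : ℕ} (hm : 1 ≤ m) (B : ℕ) :
    ∃ C : ℝ, 0 < C ∧ ∀ (L : Type) [Field L] [NumberField L] [Algebra k L] [IsGalois k L],
      (∀ σ : Gal(L/k), (Set.range fun g : Gal(L/k) => g * σ ^ m * g⁻¹).ncard ≤ B) →
      ∀ x : Fin (N + 1) → L, x ≠ 0 → Wnd F x →
      ∃ h : ℝ, Tendsto (fun n : ℕ => Height.logHeight ((act F)^[n] x) /
          ((finrank ℚ L : ℝ) * ((p ^ r : ℕ) : ℝ) ^ n)) atTop (𝓝 h) ∧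
        1 / (C * finrank k L) ≤ h ∧
        ∀ e : ℕ, (∀ 𝔓 : Ideal (𝓞 L), 𝔓.IsPrime →
          𝔓.comap (algebraMap (𝓞 k) (𝓞 L)) = (mi v).comap (algebraMap (𝓞 k) (𝓞 K)) →
          𝔓.ramificationIdx (𝓞 k) ≤ e) → 1 / (C * e) ≤ h := by
  obtain ⟨C, hC, hmain⟩ := main hp hr F A hA G hG hconj v hv hred hm B
  refine ⟨C, hC, ?_⟩
  intro L _ _ _ _ hcen x hx hw
  have hP0 := H420R3.mi_ne_bot v
  have hgen := gen_CP k K L
  have hgal : IsGalois K (CP k K L) := isGalois_comp hgen
  obtain ⟨h, hlim, hbd⟩ := hmain L (CP k K L) x hx hw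
  refine ⟨h, hlim, ?_⟩
  obtain ⟨τ, T, hT, hτ, hTB⟩ := exists_few (K := K) (L := CP k K L) hP0 m B
    (conj_comp hgen hcen)
  have h1 := hbd τ T hT hτ hTB
  refine ⟨le_trans ?_ h1.1, ?_⟩
  · have h2 : (finrank K (CP k K L) : ℝ) ≤ finrank k L := by
      exact_mod_cast finrank_CP_le k K L
    have h3 : (0 : ℝ) < finrank K (CP k K L) := by
      exact_mod_cast (finrank_pos : 0 < finrank K (CP k K L))
    gcongr
  · intro e he
    apply h1.2 e
    intro w hw'
    refine (ram_comp hgen w).trans (he _ ?_ ?_)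
    · exact Ideal.comap_isPrime _ _
    · have hlo := H420R3.liesOver_of_mem hP0 (hT hw')
      have h4 : mi v = (mi w).comap (algebraMap (𝓞 K) (𝓞 (CP k K L))) := hlo.over
      rw [Ideal.comap_comap, h4, Ideal.comap_comap]
      congr 1
      refine RingHom.ext fun a => ?_
      apply RingOfIntegers.coe_injective
      change algebraMap L (CP k K L) (algebraMap k L (a : k)) =
        algebraMap K (CP k K L) (algebraMap k K (a : k))
      exact (IsScalarTower.algebraMap_apply k L (CP k K L) (a : k)).symm.trans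
        (IsScalarTower.algebraMap_apply k K (CP k K L) (a : k))

end

end Pool.Agent.H627.LP
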