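import Mathlib
import Pool.Agent.H627.LP.Pair
import Pool.Agent.W238.Leh.Region

/-!
Interpolation determinants at points which are close to few points at finitely many finite
places.
-/

set_option autoImplicit false
set_option linter.unusedSectionVars false

namespace Pool.Agent.H627.LP

open NumberField Module MvPolynomial
open Pool.Agent.W238.Leh

noncomputable section

/-! ### polynomials with integral coefficients -/

section IntP

variable {M : Type} [Field M] [NumberField M] {v : FinitePlace M} {N : ℕ}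

variable (v) in
/-- the coefficients are integral at `v` -/
def IntP (p : MvPolynomial (Fin (N + 1)) M) : Prop := ∀ m, v (p.coeff m) ≤ 1

lemma IntP.add {p q : MvPolynomial (Fin (N + 1)) M} (hp : IntP v p) (hq : IntP v q) :
    IntP v (p + q) := fun m => by
  rw [coeff_add]
  exact (FinitePlace.add_le v _ _).trans (max_le (hp m) (hq m))

lemma IntP.sum {ι : Type*} {s : Finset ι} {f : ι → MvPolynomial (Fin (N + 1)) M}
    (h : ∀ i ∈ s, IntP v (f i)) : IntP v (∑ i ∈ s, f i) := fun m => by
  rw [coeff_sum]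
  exact v_sum_le v _ _ zero_le_one fun i hi => h i hi m

lemma IntP.mul {p q : MvPolynomial (Fin (N + 1)) M} (hp : IntP v p) (hq : IntP v q) :
    IntP v (p * q) := fun m => by
  classical
  rw [coeff_mul]
  refine v_sum_le v _ _ zero_le_one fun x _ => ?_
  rw [map_mul]
  exact mul_le_one₀ (hp _) (v_nonneg v _) (hq _)

lemma IntP.const {c : M} (hc : v c ≤ 1) : IntP v (C c : MvPolynomial (Fin (N + 1)) M) :=
  fun m => by
  classical
  rw [coeff_C]
  split_ifs
  · exact hc
  · rw [map_zero]
    exact zero_le_one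

lemma IntP.one : IntP v (1 : MvPolynomial (Fin (N + 1)) M) := by
  rw [← C_1]
  exact IntP.const (by rw [map_one])

lemma IntP.var (i : Fin (N + 1)) : IntP v (X i : MvPolynomial (Fin (N + 1)) M) := fun m => by
  classical
  rw [coeff_X']
  split_ifs
  · rw [map_one]
  · rw [map_zero]
    exact zero_le_one

lemma IntP.pow {p : MvPolynomial (Fin (N + 1)) M} (hp : IntP v p) (n : ℕ) : IntP v (p ^ n) := by
  induction n with
  | zero => rw [pow_zero]; exact IntP.one
  | succ n ih => rw [pow_succ]; exact ih.mul hp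

lemma IntP.prod {ι : Type*} {s : Finset ι} {f : ι → MvPolynomial (Fin (N + 1)) M}
    (h : ∀ i ∈ s, IntP v (f i)) : IntP v (∏ i ∈ s, f i) := by
  classical
  induction s using Finset.induction_on with
  | empty => simpa using IntP.one
  | insert a s ha ih =>
    rw [Finset.prod_insert ha]
    exact (h a (Finset.mem_insert_self _ _)).mul
      (ih fun i hi => h i (Finset.mem_insert_of_mem hi))

lemma IntP.bind {f : Fin (N + 1) → MvPolynomial (Fin (N + 1)) M}
    {p : MvPolynomial (Fin (N + 1)) M} (hf : ∀ i, IntP v (f i)) (hp : IntP v p) :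
    IntP v (bind₁ f p) := by
  have h1 : bind₁ f p = ∑ s ∈ p.support, C (p.coeff s) * ∏ i, f i ^ s i := by
    change aeval f p = _
    rw [aeval_def, eval₂_eq']
    rfl
  rw [h1]
  exact IntP.sum fun s _ => (IntP.const (hp s)).mul (IntP.prod fun i _ => (hf i).pow _)

end IntP

/-! ### expansion around a centre -/

section Expand

variable {M : Type} [Field M] [NumberField M] {v : FinitePlace M} {N : ℕ}

/-- the exponents less than `s` in all variables, and zero in the variable `i₀` -/
def box (s : ℕ) (i₀ : Fin (N + 1)) : Finset (Fin (N + 1) →₀ ℕ) :=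
  (Fintype.piFinset fun t : Fin (N + 1) => if t = i₀ then {0} else Finset.range s).map
    Finsupp.equivFunOnFinite.symm.toEmbedding

lemma mem_box {s : ℕ} {i₀ : Fin (N + 1)} {α : Fin (N + 1) →₀ ℕ} :
    α ∈ box s i₀ ↔ α i₀ = 0 ∧ ∀ t, t ≠ i₀ → α t < s := by
  unfold box
  rw [Finset.mem_map]
  constructor
  · rintro ⟨f, hf, rfl⟩
    rw [Fintype.mem_piFinset] at hf
    refine ⟨?_, fun t ht => ?_⟩
    · have := hf i₀
      rw [if_pos rfl, Finset.mem_singleton] at this
      exact this
    · have := hf t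
      rw [if_neg ht, Finset.mem_range] at this
      exact this
  · rintro ⟨h0, h1⟩
    refine ⟨fun t => α t, ?_, ?_⟩
    · rw [Fintype.mem_piFinset]
      intro t
      split_ifs with ht
      · rw [ht, Finset.mem_singleton]
        exact h0
      · rw [Finset.mem_range]
        exact h1 t ht
    · ext t
      rfl

lemma card_box (s : ℕ) (i₀ : Fin (N + 1)) : (box s i₀).card = s ^ N := by
  unfold box
  rw [Finset.card_map, Fintype.card_piFinset]
  have h1 : ∀ t : Fin (N + 1), (if t = i₀ then ({0} : Finset ℕ) else Finset.range s).card =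
      if t = i₀ then 1 else s := by
    intro t
    split_ifs <;> simp
  rw [Finset.prod_congr rfl fun t _ => h1 t, ← Finset.mul_prod_erase _ _ (Finset.mem_univ i₀),
    if_pos rfl, one_mul, Finset.prod_congr rfl fun t ht => if_neg (Finset.ne_of_mem_erase ht),
    Finset.prod_const, Finset.card_erase_of_mem (Finset.mem_univ _), Finset.card_univ,
    Fintype.card_fin, Nat.add_sub_cancel]

/-- expansion in a small polydisc -/
lemma expand {ψ : MvPolynomial (Fin (N + 1)) M} (hψ : IntP v ψ) {i₀ : Fin (N + 1)}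
    {δ : Fin (N + 1) → M} {η : ℝ} (hη : 0 ≤ η) (hη1 : η ≤ 1) (h0 : δ i₀ = 0)
    (hδ : ∀ t, v (δ t) ≤ η) (s : ℕ) :
    v (eval δ ψ - ∑ α ∈ box s i₀, ψ.coeff α * ∏ t, δ t ^ α t) ≤ η ^ s := by
  classical
  set f : (Fin (N + 1) →₀ ℕ) → M := fun α => ψ.coeff α * ∏ t, δ t ^ α t with hf
  have h1 : eval δ ψ = ∑ α ∈ ψ.support ∪ box s i₀, f α := by
    rw [eval_eq']
    refine Finset.sum_subset Finset.subset_union_left fun α _ hα => ?_
    rw [notMem_support_iff.mp hα, zero_mul]
  rw [h1, ← Finset.sum_sdiff (Finset.subset_union_right : box s i₀ ⊆ ψ.support ∪ box s i₀),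
    add_sub_cancel_right]
  refine v_sum_le v _ _ (pow_nonneg hη s) fun α hα => ?_
  have hα' := (Finset.mem_sdiff.mp hα).2
  rw [mem_box] at hα'
  by_cases hi : α i₀ = 0
  · have : ∃ t, t ≠ i₀ ∧ s ≤ α t := by
      by_contra hcon
      push Not at hcon
      exact hα' ⟨hi, hcon⟩
    obtain ⟨t, _, ht⟩ := this
    simp only [hf]
    rw [map_mul, ← Finset.mul_prod_erase _ _ (Finset.mem_univ t), map_mul, map_prod, map_pow]
    have h2 : v (δ t) ^ α t ≤ η ^ s :=
      (pow_le_pow_left₀ (v_nonneg v _) (hδ t) _).trans (pow_le_pow_of_le_one hη hη1 ht)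
    have h3 : ∏ i ∈ Finset.univ.erase t, v (δ i ^ α i) ≤ 1 := by
      refine Finset.prod_le_one (fun i _ => v_nonneg v _) fun i _ => ?_
      rw [map_pow]
      exact pow_le_one₀ (v_nonneg v _) ((hδ i).trans hη1)
    have h4 : 0 ≤ ∏ i ∈ Finset.univ.erase t, v (δ i ^ α i) :=
      Finset.prod_nonneg fun i _ => v_nonneg v _
    calc v (ψ.coeff α) * (v (δ t) ^ α t * ∏ i ∈ Finset.univ.erase t, v (δ i ^ α i)) ≤
        1 * (η ^ s * 1) := by
          refine mul_le_mul (hψ α) (mul_le_mul h2 h3 h4 (pow_nonneg hη s))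
            (mul_nonneg (pow_nonneg (v_nonneg v _) _) h4) zero_le_one
      _ = η ^ s := by ring
  · simp only [hf]
    have h2 : ∏ t, δ t ^ α t = 0 := by
      apply Finset.prod_eq_zero (Finset.mem_univ i₀)
      rw [h0, zero_pow hi]
    rw [h2, mul_zero, map_zero]
    exact pow_nonneg hη s

end Expand

/-! ### determinants of matrices close to matrices of small rank -/

section Rank

variable {M : Type} [Field M] [NumberField M] (v : FinitePlace M)
variable {ι : Type*} [Fintype ι] [DecidableEq ι]

lemma v_sign (σ : Equiv.Perm ι) (x : M) : v (Equiv.Perm.sign σ • x) = v x := by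
  rw [Units.smul_def, zsmul_eq_mul, map_mul]
  rcases Int.units_eq_one_or (Equiv.Perm.sign σ) with h | h
  · simp [h]
  · rw [h, Units.val_neg, Units.val_one, Int.cast_neg, Int.cast_one]
    have : v (-1 : M) = 1 := by
      rw [← FinitePlace.norm_embedding_eq, map_neg, norm_neg, FinitePlace.norm_embedding_eq,
        map_one]
    rw [this, one_mul]

lemma det_rows_le (W : Matrix ι ι M) (b : ι → ℝ) (hb : ∀ i, 0 ≤ b i)
    (h : ∀ i j, v (W i j) ≤ b i) : v W.det ≤ ∏ i, b i := by
  rw [Matrix.det_apply]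
  refine v_sum_le v _ _ (Finset.prod_nonneg fun i _ => hb i) fun σ _ => ?_
  rw [v_sign, map_prod]
  calc ∏ i, v (W (σ i) i) ≤ ∏ i, b (σ i) :=
        Finset.prod_le_prod (fun i _ => v_nonneg v _) fun i _ => h _ _
    _ = ∏ i, b i := Equiv.prod_comp σ b

lemma det_rank_le (X Y : Matrix ι ι M) {θ : ℝ} (hθ0 : 0 ≤ θ) (hθ1 : θ ≤ 1)
    (hX : ∀ i j, v (X i j) ≤ 1) (hY : ∀ i j, v (Y i j) ≤ θ) {R : ℕ} (S : Submodule M (ι → M))
    (hS : finrank M S ≤ R) (hXS : ∀ i, X i ∈ S) :
    v (X + Y).det ≤ θ ^ (Fintype.card ι - R) := by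
  have h1 : (X + Y).det = ∑ s : Finset ι, Matrix.det (Matrix.of (s.piecewise X Y)) := by
    have h2 := (Matrix.detRowAlternating (n := ι) (R := M)).toMultilinearMap.map_add_univ X Y
    exact h2
  rw [h1]
  refine v_sum_le v _ _ (pow_nonneg hθ0 _) fun s _ => ?_
  by_cases hs : s.card ≤ R
  · have h2 := det_rows_le v (Matrix.of (s.piecewise X Y)) (fun i => if i ∈ s then 1 else θ)
      (fun i => by split_ifs <;> linarith) (fun i j => by
        simp only [Matrix.of_apply]
        by_cases hi : i ∈ s
        · rw [Finset.piecewise_eq_of_mem _ _ _ hi, if_pos hi]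
          exact hX i j
        · rw [Finset.piecewise_eq_of_notMem _ _ _ hi, if_neg hi]
          exact hY i j)
    refine h2.trans ?_
    rw [Finset.prod_ite, Finset.prod_const_one, one_mul, Finset.prod_const]
    apply pow_le_pow_of_le_one hθ0 hθ1
    have h3 := Finset.card_filter_add_card_filter_not (s := (Finset.univ : Finset ι))
      (fun i => i ∈ s)
    rw [Finset.card_univ] at h3
    have h4 : (Finset.univ.filter fun i => i ∈ s).card = s.card := by
      congr 1
      ext i
      simp
    omega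
  · push Not at hs
    have h2 : Matrix.det (Matrix.of (s.piecewise X Y)) = 0 := by
      apply (Matrix.detRowAlternating (n := ι) (R := M)).map_linearDependent
      intro hli
      have h3 : LinearIndependent M (fun i : s => X i) := by
        have h4 := hli.comp (fun i : s => (i : ι)) Subtype.val_injective
        convert! h4 using 1
        funext i
        change X i = s.piecewise X Y i
        rw [Finset.piecewise_eq_of_mem _ _ _ i.2]
      have h4 := finrank_span_eq_card h3
      have h5 : Submodule.span M (Set.range fun i : s => X i) ≤ S := by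
        rw [Submodule.span_le]
        rintro _ ⟨i, rfl⟩
        exact hXS i
      have h6 := Submodule.finrank_mono h5
      rw [h4, Fintype.card_coe] at h6
      omega
    rw [h2, map_zero]
    exact pow_nonneg hθ0 _

end Rank

/-! ### the determinant of forms at points with close points -/

section Local

variable {K : Type} [Field K] [NumberField K] {M : Type} [Field M] [NumberField M] [Algebra K M]
  {N : ℕ} {F : Fin (N + 1) → MvPolynomial (Fin (N + 1)) K} {q : ℕ} {ρ : ℝ}
  {v : FinitePlace M}

lemma RedN.intP (h : RedN v F q ρ) (i : Fin (N + 1)) :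
    IntP v (map (algebraMap K M) (F i)) := fun m => by
  classical
  rw [coeff_map]
  have h1 : (F i).coeff m = (F i - X i ^ q).coeff m + (X i ^ q : MvPolynomial _ K).coeff m := by
    rw [coeff_sub, sub_add_cancel]
  rw [h1, map_add]
  refine (FinitePlace.add_le v _ _).trans (max_le ((h.small i m).trans h.lt.le) ?_)
  rw [coeff_X_pow]
  split_ifs
  · rw [map_one, map_one]
  · rw [map_zero, map_zero]
    exact zero_le_one

lemma GG_intP (hF : ∀ i, IntP v (map (algebraMap K M) (F i))) (l : List ℕ)
    {φ : MvPolynomial (Fin (N + 1)) K} (hφ : φ ∈ GG F l) :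
    IntP v (map (algebraMap K M) φ) := by
  induction l generalizing φ with
  | nil =>
    rw [GG, Set.mem_singleton_iff] at hφ
    rw [hφ, map_one]
    exact IntP.one
  | cons r l ih =>
    obtain ⟨s, _, g, hg, rfl⟩ := hφ
    rw [map_mul, map_monomial, map_one, map_bind₁]
    refine IntP.mul ?_ (IntP.bind hF (ih hg))
    rw [monomial_eq, C_1, one_mul, Finsupp.prod]
    exact IntP.prod fun i _ => (IntP.var i).pow _

lemma GG_hom (hF : ∀ i, (F i).IsHomogeneous q) (l : List ℕ)
    {φ : MvPolynomial (Fin (N + 1)) K} (hφ : φ ∈ GG F l) : φ.IsHomogeneous (ldeg q l) := by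
  induction l generalizing φ with
  | nil =>
    rw [GG, Set.mem_singleton_iff] at hφ
    rw [hφ]
    exact isHomogeneous_one _ _
  | cons r l ih =>
    obtain ⟨s, hs, g, hg, rfl⟩ := hφ
    have h1 : (bind₁ F g).IsHomogeneous (q * ldeg q l) := (ih hg).aeval F hF
    have h2 : (monomial s (1 : K)).IsHomogeneous r := by
      apply isHomogeneous_monomial
      exact hs
    exact h2.mul h1

lemma RedN.nmf_act (h : RedN v F q ρ) (hF : ∀ i, (F i).IsHomogeneous q) {x : Fin (N + 1) → M}
    (hx : x ≠ 0) : nmf v (act F x) = nmf v x ^ q := by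
  obtain ⟨i₀, hi₀⟩ := exists_nmf (v := v) x
  have hpos := nmf_pos v hx
  have hx0 : x i₀ ≠ 0 := by
    intro h0
    rw [h0, map_zero] at hi₀
    linarith
  have h1 : nmf v ((x i₀)⁻¹ • x) = 1 := by
    rw [nmf_smul, map_inv₀, hi₀, inv_mul_cancel₀ hpos.ne']
  have h2 := h.nm_act h1
  rw [act_smul hF, nmf_smul, map_pow, map_inv₀, hi₀, inv_pow] at h2
  have h3 : 0 < nmf v x ^ q := by positivity
  field_simp at h2
  exact h2

lemma RedN.wt_eq (h : RedN v F q ρ) (hF : ∀ i, (F i).IsHomogeneous q) (l : List ℕ)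
    {x : Fin (N + 1) → M} (hx : x ≠ 0) : wt (nmf v) (act F) l x = nmf v x ^ ldeg q l := by
  induction l generalizing x with
  | nil => simp [wt, ldeg]
  | cons r l ih =>
    have h1 := h.nmf_act hF hx
    have h2 : act F x ≠ 0 := by
      intro h0
      rw [h0] at h1
      have h3 : nmf v (0 : Fin (N + 1) → M) = 0 := by
        apply le_antisymm
        · exact nmf_le fun i => by simp
        · exact nmf_nonneg _ _
      rw [h3] at h1
      have := nmf_pos v hx
      have : 0 < nmf v x ^ q := by positivity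
      linarith
    rw [wt, ldeg, ih h2, h1, pow_add, pow_mul]

/-- closeness of two points -/
def Near (v : FinitePlace M) (η : ℝ) (y y' : Fin (N + 1) → M) : Prop :=
  ∀ s t, v (y s * y' t - y t * y' s) ≤ η * (nmf v y * nmf v y')

lemma Near.coord {η : ℝ} (hη1 : η < 1) {y y' : Fin (N + 1) → M} (hy : y ≠ 0)
    (hy' : y' ≠ 0) (h : Near v η y y') {i₀ : Fin (N + 1)} (hi₀ : v (y' i₀) = nmf v y') :
    v (y i₀) = nmf v y := by
  apply le_antisymm (le_nmf v y i₀)
  obtain ⟨s, hs⟩ := exists_nmf (v := v) y
  have h1 := h s i₀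
  have hp := nmf_pos v hy
  have hp' := nmf_pos v hy'
  by_contra hcon
  push Not at hcon
  have h2 : y s * y' i₀ = (y s * y' i₀ - y i₀ * y' s) + y i₀ * y' s := by ring
  have h3 := FinitePlace.add_le v (y s * y' i₀ - y i₀ * y' s) (y i₀ * y' s)
  rw [← h2, map_mul, hs, hi₀] at h3
  have h4 : v (y s * y' i₀ - y i₀ * y' s) < nmf v y * nmf v y' := by
    refine lt_of_le_of_lt h1 ?_
    have : 0 < nmf v y * nmf v y' := mul_pos hp hp'
    nlinarith
  have h5 : v (y i₀ * y' s) < nmf v y * nmf v y' := by
    rw [map_mul]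
    calc v (y i₀) * v (y' s) ≤ v (y i₀) * nmf v y' :=
          mul_le_mul_of_nonneg_left (le_nmf v y' s) (v_nonneg v _)
      _ < nmf v y * nmf v y' := mul_lt_mul_of_pos_right hcon hp'
  have := max_lt h4 h5
  linarith

variable {ι : Type*} [Fintype ι] [DecidableEq ι]

/-- **the local gain** -/
theorem local_gain (hR : RedN v F q ρ) (hF : ∀ i, (F i).IsHomogeneous q) (l : List ℕ)
    (Φ : ι → MvPolynomial (Fin (N + 1)) K) (hΦ : ∀ j, Φ j ∈ GG F l) (p : ι → Fin (N + 1) → M)
    (hp : ∀ i, p i ≠ 0) (c : ι → ι) {η : ℝ} (hη : 0 < η) (hη1 : η < 1)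
    (hnear : ∀ i, Near v η (p i) (p (c i))) {t : ℕ} (ht : (Finset.univ.image c).card ≤ t)
    (s : ℕ) :
    v (Matrix.of fun i j => aeval (p i) (Φ j)).det ≤
      (∏ i, nmf v (p i) ^ ldeg q l) * (η ^ s) ^ (Fintype.card ι - t * s ^ N) := by
  classical
  set m := ldeg q l with hm
  choose a ha using fun i => exists_nmf (v := v) (p i)
  -- normalised vectors
  have hpa : ∀ i, v (p i (a (c i))) = nmf v (p i) := fun i =>
    (hnear i).coord hη1 (hp i) (hp (c i)) (ha (c i))
  have hpa0 : ∀ i, p i (a (c i)) ≠ 0 := by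
    intro i h0
    have h1 := hpa i
    rw [h0, map_zero] at h1
    have := nmf_pos v (hp i)
    linarith
  have hca0 : ∀ i, p i (a i) ≠ 0 := by
    intro i h0
    have h1 := ha i
    rw [h0, map_zero] at h1
    have := nmf_pos v (hp i)
    linarith
  set u : ι → Fin (N + 1) → M := fun i => (p i (a i))⁻¹ • p i with hu
  set z : ι → Fin (N + 1) → M := fun i => (p i (a (c i)))⁻¹ • p i with hz
  have hui : ∀ i t, v (u i t) ≤ 1 := by
    intro i t
    simp only [hu, Pi.smul_apply, smul_eq_mul, map_mul, map_inv₀, ha]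
    have := nmf_pos v (hp i)
    rw [inv_mul_le_iff₀ this, mul_one]
    exact le_nmf v _ _
  set δ : ι → Fin (N + 1) → M := fun i => z i - u (c i) with hδ
  have hδ0 : ∀ i, δ i (a (c i)) = 0 := by
    intro i
    simp only [hδ, hz, hu, Pi.sub_apply, Pi.smul_apply, smul_eq_mul]
    rw [inv_mul_cancel₀ (hpa0 i), inv_mul_cancel₀ (hca0 (c i)), sub_self]
  have hδv : ∀ i t, v (δ i t) ≤ η := by
    intro i t
    have h1 : δ i t = (p i t * p (c i) (a (c i)) - p i (a (c i)) * p (c i) t) *
        ((p i (a (c i)))⁻¹ * (p (c i) (a (c i)))⁻¹) := by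
      simp only [hδ, hz, hu, Pi.sub_apply, Pi.smul_apply, smul_eq_mul]
      have h2 := hpa0 i
      have h3 := hca0 (c i)
      field_simp
    rw [h1, map_mul, map_mul, map_inv₀, map_inv₀, hpa, ha]
    have h2 := nmf_pos v (hp i)
    have h3 := nmf_pos v (hp (c i))
    have h4 := hnear i t (a (c i))
    rw [← mul_inv, ← div_eq_mul_inv, div_le_iff₀ (mul_pos h2 h3)]
    exact h4
  -- the expansions
  set ψ : ι → ι → MvPolynomial (Fin (N + 1)) M := fun b j =>
    bind₁ (fun t => C (u b t) + X t) (map (algebraMap K M) (Φ j)) with hψ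
  have hψint : ∀ b j, IntP v (ψ b j) := by
    intro b j
    refine IntP.bind (fun t => (IntP.const (hui b t)).add (IntP.var t)) ?_
    exact GG_intP hR.intP l (hΦ j)
  have hψev : ∀ i j, eval (δ i) (ψ (c i) j) = aeval (z i) (Φ j) := by
    intro i j
    have h1 : eval (δ i) (ψ (c i) j) =
        eval (fun t => eval (δ i) (C (u (c i) t) + X t)) (map (algebraMap K M) (Φ j)) := by
      simp only [hψ]
      exact eval₂Hom_bind₁ _ _ _ _
    rw [h1, eval_map, aeval_def]
    congr 1
    funext t
    rw [map_add, eval_C, eval_X]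
    simp only [hδ, Pi.sub_apply]
    ring
  set X' : Matrix ι ι M := Matrix.of fun i j =>
    ∑ α ∈ box s (a (c i)), (ψ (c i) j).coeff α * ∏ t, δ i t ^ α t with hX'
  set W' : Matrix ι ι M := Matrix.of fun i j => aeval (z i) (Φ j) with hW'
  have hY : ∀ i j, v ((W' - X') i j) ≤ η ^ s := by
    intro i j
    have h1 : (W' - X') i j = eval (δ i) (ψ (c i) j) -
        ∑ α ∈ box s (a (c i)), (ψ (c i) j).coeff α * ∏ t, δ i t ^ α t := by
      rw [hψev]
      rfl
    rw [h1]
    exact expand (hψint _ _) hη.le hη1.le (hδ0 i) (hδv i) s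
  have hX1 : ∀ i j, v (X' i j) ≤ 1 := by
    intro i j
    simp only [hX', Matrix.of_apply]
    refine v_sum_le v _ _ zero_le_one fun α _ => ?_
    rw [map_mul, map_prod]
    refine mul_le_one₀ (hψint _ _ _) (Finset.prod_nonneg fun i _ => v_nonneg v _) ?_
    refine Finset.prod_le_one (fun i _ => v_nonneg v _) fun t _ => ?_
    rw [map_pow]
    exact pow_le_one₀ (v_nonneg v _) ((hδv i t).trans hη1.le)
  -- the rank
  set S : Submodule M (ι → M) := Submodule.span M
    (((Finset.univ.image c).biUnion fun b => (box s (a b)).image fun α => fun j =>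
      (ψ b j).coeff α : Finset (ι → M)) : Set (ι → M)) with hS
  have hSr : finrank M S ≤ t * s ^ N := by
    refine (finrank_span_finset_le_card _).trans ?_
    refine Finset.card_biUnion_le.trans ?_
    calc ∑ b ∈ Finset.univ.image c, ((box s (a b)).image fun α => fun j =>
          (ψ b j).coeff α).card ≤ ∑ b ∈ Finset.univ.image c, s ^ N := by
          refine Finset.sum_le_sum fun b _ => ?_
          exact Finset.card_image_le.trans (card_box s (a b)).le
      _ = (Finset.univ.image c).card * s ^ N := by rw [Finset.sum_const, smul_eq_mul]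
      _ ≤ t * s ^ N := Nat.mul_le_mul_right _ ht
  have hXS : ∀ i, X' i ∈ S := by
    intro i
    have h1 : X' i = ∑ α ∈ box s (a (c i)), (∏ t, δ i t ^ α t) •
        fun j => (ψ (c i) j).coeff α := by
      funext j
      rw [Finset.sum_apply]
      simp only [hX', Matrix.of_apply, Pi.smul_apply, smul_eq_mul]
      exact Finset.sum_congr rfl fun α _ => mul_comm _ _
    rw [h1]
    refine Submodule.sum_mem _ fun α hα => Submodule.smul_mem _ _ (Submodule.subset_span ?_)
    rw [Finset.mem_coe, Finset.mem_biUnion]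
    exact ⟨c i, Finset.mem_image_of_mem _ (Finset.mem_univ i),
      Finset.mem_image_of_mem _ hα⟩
  have h1 := det_rank_le v X' (W' - X') (pow_nonneg hη.le s) (pow_le_one₀ hη.le hη1.le) hX1 hY S
    hSr hXS
  rw [add_sub_cancel] at h1
  -- scaling
  have h2 : (Matrix.of fun i j => aeval (p i) (Φ j)) =
      Matrix.diagonal (fun i => p i (a (c i)) ^ m) * W' := by
    ext i j
    rw [Matrix.diagonal_mul]
    simp only [Matrix.of_apply, hW']
    have h3 : p i = p i (a (c i)) • z i := by
      simp only [hz]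
      rw [smul_smul, mul_inv_cancel₀ (hpa0 i), one_smul]
    conv_lhs => rw [h3]
    exact aeval_smul_hom (GG_hom hF l (hΦ j)) _ _
  rw [h2, Matrix.det_mul, Matrix.det_diagonal, map_mul, map_prod]
  have h3 : ∏ i, v (p i (a (c i)) ^ m) = ∏ i, nmf v (p i) ^ m :=
    Finset.prod_congr rfl fun i _ => by rw [map_pow, hpa]
  rw [h3]
  refine mul_le_mul_of_nonneg_left h1 (Finset.prod_nonneg fun i _ => ?_)
  exact pow_nonneg (nmf_nonneg v _) _

end Local

end

end Pool.Agent.H627.LP
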