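import Mathlib
import Pool.Agent.H627.LP.Cmp

/-!
The final form: statements in terms of prime ideals.
-/

set_option autoImplicit false
set_option linter.unusedSectionVars false

namespace Pool.Agent.H627.LP

open NumberField Module MvPolynomial Filter Topology
open Pool.Agent.W238.Leh
open Pool.Agent.H420R3 (mi nv TP ew lP lP_pos sum_ew TP_nonempty mem_TP)
open scoped Pointwise

noncomputable section

section Ideals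

variable {K M : Type} [Field K] [NumberField K] [Field M] [NumberField M] [Algebra K M]
  {P : Ideal (𝓞 K)} [hP : P.IsMaximal]

/-- an automorphism congruent to a power fixes the ideal -/
lemma smul_eq_of_congr {τ : Gal(M/K)} {Q : ℕ} (hQ : Q ≠ 0) {𝔓 : Ideal (𝓞 M)} (h𝔓 : 𝔓.IsPrime)
    (h0 : 𝔓 ≠ ⊥) (h : ∀ a : 𝓞 M, τ • a - a ^ Q ∈ 𝔓) : τ • 𝔓 = 𝔓 := by
  have hmax : 𝔓.IsMaximal := h𝔓.isMaximal h0
  have h1 : 𝔓 ≤ τ⁻¹ • 𝔓 := by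
    intro a ha
    rw [Ideal.mem_inv_pointwise_smul_iff]
    have h2 := 𝔓.add_mem (h a) (𝔓.pow_mem_of_mem ha Q (Nat.pos_of_ne_zero hQ))
    rwa [sub_add_cancel] at h2
  have h2 : (τ⁻¹ • 𝔓).IsPrime := inferInstance
  have h3 := hmax.eq_of_le h2.ne_top h1
  conv_lhs => rw [h3]
  rw [smul_inv_smul]

/-- from ideals to places -/
lemma exists_places (hP0 : P ≠ ⊥) (T : Finset (Ideal (𝓞 M)))
    (hT : ∀ 𝔓 ∈ T, 𝔓.IsPrime ∧ 𝔓.under (𝓞 K) = P) :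
    ∃ T' : Finset (FinitePlace M), T' ⊆ TP M P ∧ (∀ w ∈ T', mi w ∈ T) ∧
      ∀ f : Ideal (𝓞 M) → ℕ, ∑ w ∈ T', f (mi w) = ∑ 𝔓 ∈ T, f 𝔓 := by
  classical
  refine ⟨(TP M P).filter fun w => mi w ∈ T, Finset.filter_subset _ _,
    fun w hw => (Finset.mem_filter.mp hw).2, fun f => ?_⟩
  refine Finset.sum_bij (fun w _ => mi w) (fun w hw => (Finset.mem_filter.mp hw).2) ?_ ?_
    fun _ _ => rfl
  · intro a _ b _ h
    apply FinitePlace.maximalIdeal_injective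
    exact IsDedekindDomain.HeightOneSpectrum.ext h
  · intro 𝔓 h𝔓
    obtain ⟨h1, h2⟩ := hT 𝔓 h𝔓
    have hlo : 𝔓.LiesOver P := ⟨h2.symm⟩
    have h0 : 𝔓 ≠ ⊥ := Ideal.ne_bot_of_liesOver_of_ne_bot hP0 𝔓
    let I : IsDedekindDomain.HeightOneSpectrum (𝓞 M) := ⟨𝔓, h1, h0⟩
    have hI : mi (FinitePlace.mk I) = 𝔓 := by
      unfold mi
      rw [FinitePlace.maximalIdeal_mk]
    refine ⟨FinitePlace.mk I, ?_, hI⟩
    rw [Finset.mem_filter, mem_TP hP0, hI]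
    exact ⟨⟨h1, hlo⟩, h𝔓⟩

/-- residue degrees dividing `m` -/
lemma congr_of_dvd (hP0 : P ≠ ⊥) {m : ℕ} {𝔓 : Ideal (𝓞 M)} (h1 : 𝔓.IsPrime)
    (h2 : 𝔓.under (𝓞 K) = P) (hm : 𝔓.inertiaDeg (𝓞 K) ∣ m) (a : 𝓞 M) :
    (1 : Gal(M/K)) • a - a ^ (P.absNorm ^ m) ∈ 𝔓 := by
  have hlo : 𝔓.LiesOver P := ⟨h2.symm⟩
  have h0 : 𝔓 ≠ ⊥ := Ideal.ne_bot_of_liesOver_of_ne_bot hP0 𝔓
  have hmax : 𝔓.IsMaximal := h1.isMaximal h0
  let : Field (𝓞 M ⧸ 𝔓) := Ideal.Quotient.field 𝔓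
  have hfin : Finite (𝓞 M ⧸ 𝔓) := Ideal.finiteQuotientOfFreeOfNeBot 𝔓 h0
  let : Fintype (𝓞 M ⧸ 𝔓) := Fintype.ofFinite _
  have hcard : Ideal.absNorm 𝔓 = Fintype.card (𝓞 M ⧸ 𝔓) := by
    rw [Ideal.absNorm_apply, Submodule.cardQuot_apply, Nat.card_eq_fintype_card]
  have h3 := Ideal.absNorm_eq_pow_inertiaDeg'_of_liesOver 𝔓 P inferInstance hP0
  rw [Ideal.inertiaDeg'_eq_inertiaDeg] at h3
  obtain ⟨t, ht⟩ := hm
  have h4 : P.absNorm ^ m = Fintype.card (𝓞 M ⧸ 𝔓) ^ t := by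
    rw [← hcard, h3, ← pow_mul, ← ht]
  rw [one_smul, ← Ideal.Quotient.eq_zero_iff_mem, map_sub, map_pow, h4, FiniteField.pow_card_pow,
    sub_self]

end Ideals

variable {k K : Type} [Field k] [NumberField k] [Field K] [NumberField K] [Algebra k K] {N : ℕ}

/-- the theorem in terms of ideals -/
theorem final {p r : ℕ} (hp : p.Prime) (hr : 1 ≤ r)
    (F : Fin (N + 1) → MvPolynomial (Fin (N + 1)) k)
    (A : Matrix (Fin (N + 1)) (Fin (N + 1)) K) (hA : A.det ≠ 0)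
    (G : Fin (N + 1) → MvPolynomial (Fin (N + 1)) K) (hG : ∀ i, (G i).IsHomogeneous (p ^ r))
    (hconj : Conj A F G) (v : FinitePlace K) (hv : v (p : K) < 1) (hred : InsepN v (p ^ r) G)
    {m : ℕ} (hm : 1 ≤ m) (B : ℕ) :
    ∃ C : ℝ, 0 < C ∧
      (∀ (L : Type) [Field L] [NumberField L] [Algebra k L] [IsGalois k L],
        (∀ σ : Gal(L/k), (Set.range fun g : Gal(L/k) => g * σ ^ m * g⁻¹).ncard ≤ B) →
        ∀ x : Fin (N + 1) → L, x ≠ 0 → Wnd F x →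
        ∃ h : ℝ, Tendsto (fun n : ℕ => Height.logHeight ((act F)^[n] x) /
            ((finrank ℚ L : ℝ) * ((p ^ r : ℕ) : ℝ) ^ n)) atTop (𝓝 h) ∧
          1 / (C * finrank k L) ≤ h ∧
          ∀ e : ℕ, (∀ 𝔓 : Ideal (𝓞 L), 𝔓.IsPrime →
            𝔓.under (𝓞 k) = v.maximalIdeal.asIdeal.under (𝓞 k) →
            𝔓.ramificationIdx (𝓞 k) ≤ e) → 1 / (C * e) ≤ h) ∧
      (∀ (L : Type) [Field L] [NumberField L] [Algebra k L] [Algebra K L] [IsScalarTower k K L]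
        (τ : Gal(L/K)) (T : Finset (Ideal (𝓞 L))),
        (∀ 𝔓 ∈ T, 𝔓.IsPrime ∧ 𝔓.under (𝓞 K) = v.maximalIdeal.asIdeal ∧
          ∀ a : 𝓞 L, τ • a - a ^ (v.maximalIdeal.asIdeal.absNorm ^ m) ∈ 𝔓) →
        finrank K L ≤ B * ∑ 𝔓 ∈ T, 𝔓.ramificationIdx (𝓞 K) * 𝔓.inertiaDeg (𝓞 K) →
        ∀ x : Fin (N + 1) → L, x ≠ 0 → Wnd F x →
        ∃ h : ℝ, Tendsto (fun n : ℕ => Height.logHeight ((act F)^[n] x) /
            ((finrank ℚ L : ℝ) * ((p ^ r : ℕ) : ℝ) ^ n)) atTop (𝓝 h) ∧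
          1 / (C * finrank K L) ≤ h ∧
          ∀ e : ℕ, (∀ 𝔓 ∈ T, 𝔓.ramificationIdx (𝓞 K) ≤ e) → 1 / (C * e) ≤ h) ∧
      (∀ (L : Type) [Field L] [NumberField L] [Algebra k L] [Algebra K L] [IsScalarTower k K L]
        (T : Finset (Ideal (𝓞 L))),
        (∀ 𝔓 ∈ T, 𝔓.IsPrime ∧ 𝔓.under (𝓞 K) = v.maximalIdeal.asIdeal ∧
          𝔓.inertiaDeg (𝓞 K) ∣ m) →
        finrank K L ≤ B * ∑ 𝔓 ∈ T, 𝔓.ramificationIdx (𝓞 K) * 𝔓.inertiaDeg (𝓞 K) →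
        ∀ x : Fin (N + 1) → L, x ≠ 0 → Wnd F x →
        ∃ h : ℝ, Tendsto (fun n : ℕ => Height.logHeight ((act F)^[n] x) /
            ((finrank ℚ L : ℝ) * ((p ^ r : ℕ) : ℝ) ^ n)) atTop (𝓝 h) ∧
          1 / (C * finrank K L) ≤ h ∧
          ∀ e : ℕ, (∀ 𝔓 ∈ T, 𝔓.ramificationIdx (𝓞 K) ≤ e) → 1 / (C * e) ≤ h) := by
  obtain ⟨C₁, hC₁, hgal⟩ := galois hp hr F A hA G hG hconj v hv hred hm B
  obtain ⟨C₂, hC₂, hmain⟩ := main hp hr F A hA G hG hconj v hv hred hm B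
  have hP0 := H420R3.mi_ne_bot v
  set C := max C₁ C₂ with hC
  have hle : ∀ {C' : ℝ} {n : ℕ} {h : ℝ}, 0 < C' → C' ≤ C → 1 / (C' * n) ≤ h →
      1 / (C * n) ≤ h := by
    intro C' n h hC' hC'C h1
    refine le_trans ?_ h1
    rcases Nat.eq_zero_or_pos n with h0 | h0
    · rw [h0]
      simp
    · have h2 : (0 : ℝ) < n := by exact_mod_cast h0
      exact one_div_le_one_div_of_le (by positivity) (mul_le_mul_of_nonneg_right hC'C h2.le)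
  have h2 : ∀ (L : Type) [Field L] [NumberField L] [Algebra k L] [Algebra K L]
      [IsScalarTower k K L] (τ : Gal(L/K)) (T : Finset (Ideal (𝓞 L))),
      (∀ 𝔓 ∈ T, 𝔓.IsPrime ∧ 𝔓.under (𝓞 K) = v.maximalIdeal.asIdeal ∧
        ∀ a : 𝓞 L, τ • a - a ^ (v.maximalIdeal.asIdeal.absNorm ^ m) ∈ 𝔓) →
      finrank K L ≤ B * ∑ 𝔓 ∈ T, 𝔓.ramificationIdx (𝓞 K) * 𝔓.inertiaDeg (𝓞 K) →
      ∀ x : Fin (N + 1) → L, x ≠ 0 → Wnd F x →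
      ∃ h : ℝ, Tendsto (fun n : ℕ => Height.logHeight ((act F)^[n] x) /
          ((finrank ℚ L : ℝ) * ((p ^ r : ℕ) : ℝ) ^ n)) atTop (𝓝 h) ∧
        1 / (C * finrank K L) ≤ h ∧
        ∀ e : ℕ, (∀ 𝔓 ∈ T, 𝔓.ramificationIdx (𝓞 K) ≤ e) → 1 / (C * e) ≤ h := by
    intro L _ _ _ _ _ τ T hT hTB x hx hw
    obtain ⟨h, hlim, hbd⟩ := hmain L L x hx hw
    obtain ⟨T', hT', hT'T, hsum⟩ := exists_places (P := mi v) hP0 T
      fun 𝔓 h𝔓 => ⟨(hT 𝔓 h𝔓).1, (hT 𝔓 h𝔓).2.1⟩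
    have hfr : ∀ w ∈ T', FrobAt w τ ((mi v).absNorm ^ m) := by
      intro w hw'
      obtain ⟨h1, h2, h3⟩ := hT _ (hT'T w hw')
      refine ⟨smul_eq_of_congr ?_ h1 (H420R3.mi_ne_bot w) h3, h3⟩
      apply pow_ne_zero
      intro h0
      exact hP0 (Ideal.absNorm_eq_zero_iff.mp h0)
    have h1 := hbd τ T' hT' hfr (by
      rw [hsum fun 𝔓 => 𝔓.ramificationIdx (𝓞 K) * 𝔓.inertiaDeg (𝓞 K)]
      exact hTB)
    refine ⟨h, hlim, hle hC₂ (le_max_right _ _) h1.1, fun e he => ?_⟩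
    exact hle hC₂ (le_max_right _ _) (h1.2 e fun w hw' => he _ (hT'T w hw'))
  refine ⟨C, lt_max_of_lt_left hC₁, ?_, h2, ?_⟩
  · intro L _ _ _ _ hcen x hx hw
    obtain ⟨h, hlim, h3, h4⟩ := hgal L hcen x hx hw
    refine ⟨h, hlim, hle hC₁ (le_max_left _ _) h3, fun e he => ?_⟩
    exact hle hC₁ (le_max_left _ _) (h4 e he)
  · intro L _ _ _ _ _ T hT hTB x hx hw
    refine h2 L 1 T (fun 𝔓 h𝔓 => ?_) hTB x hx hw
    obtain ⟨h1, h2, h3⟩ := hT 𝔓 h𝔓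
    exact ⟨h1, h2, congr_of_dvd (P := mi v) hP0 h1 h2 h3⟩

end

end Pool.Agent.H627.LP
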