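import Mathlib
import Pool.Agent.H627.LP.Det

/-!
The product formula for interpolation determinants with a gain at finitely many finite places.
-/

set_option autoImplicit false
set_option linter.unusedSectionVars false

namespace Pool.Agent.H627.LP

open NumberField Module MvPolynomial
open Pool.Agent.W238.Leh

noncomputable section

section Sep

variable {K : Type} [Field K] [NumberField K] {M : Type} [Field M] [NumberField M] [Algebra K M]
  {N : ℕ} {ι : Type} [Fintype ι] [DecidableEq ι]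

lemma wedge_ne {y y' : Fin (N + 1) → M} (hy' : y' ≠ 0)
    (h : ∀ b : M, y ≠ b • y') : ∃ s t, y s * y' t - y t * y' s ≠ 0 := by
  by_contra hcon
  push Not at hcon
  obtain ⟨j, hj⟩ : ∃ j, y' j ≠ 0 := Function.ne_iff.mp hy'
  apply h (y j / y' j)
  funext i
  have h2 := hcon i j
  simp only [Pi.smul_apply, smul_eq_mul]
  field_simp
  linear_combination h2

/-- separation of a point from finitely many others -/
lemma sep {p : ι → Fin (N + 1) → M} (hp : ∀ i, p i ≠ 0)
    (hne : ∀ i j, i ≠ j → ∀ b : M, p i ≠ b • p j) (i : ι) (U : Finset ι) (hi : i ∉ U) :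
    ∃ x ∈ EL K p U.card, x i ≠ 0 ∧ ∀ j ∈ U, x j = 0 := by
  induction U using Finset.induction_on with
  | empty => exact ⟨fun _ => 1, one_mem_EL p, one_ne_zero, by simp⟩
  | insert k U hk ih =>
    rw [Finset.mem_insert, not_or] at hi
    obtain ⟨x, hx, hx0, hxU⟩ := ih hi.2
    obtain ⟨s, t, hst⟩ := wedge_ne (hp k) (hne i k hi.1)
    rw [Finset.card_insert_of_notMem hk]
    refine ⟨p k t • (fun j => p j s * x j) - p k s • (fun j => p j t * x j),
      Submodule.sub_mem _ (Submodule.smul_mem _ _ (mul_mem_EL hx s))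
        (Submodule.smul_mem _ _ (mul_mem_EL hx t)), ?_, ?_⟩
    · simp only [Pi.sub_apply, Pi.smul_apply, smul_eq_mul]
      have h1 : p k t * (p i s * x i) - p k s * (p i t * x i) =
          (p i s * p k t - p i t * p k s) * x i := by ring
      rw [h1]
      exact mul_ne_zero hst hx0
    · intro j hj
      simp only [Pi.sub_apply, Pi.smul_apply, smul_eq_mul]
      rcases Finset.mem_insert.mp hj with rfl | hj
      · ring
      · rw [hxU j hj]
        ring

lemma sep_pad {p : ι → Fin (N + 1) → M} (hp : ∀ i, p i ≠ 0) {i : ι} {U : Finset ι} {m : ℕ}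
    {x : ι → M} (hx : x ∈ EL K p m) (hx0 : x i ≠ 0) (hxU : ∀ j ∈ U, x j = 0) (k : ℕ) :
    ∃ x ∈ EL K p (m + k), x i ≠ 0 ∧ ∀ j ∈ U, x j = 0 := by
  induction k with
  | zero => exact ⟨x, hx, hx0, hxU⟩
  | succ k ih =>
    obtain ⟨y, hy, hy0, hyU⟩ := ih
    obtain ⟨s, hs⟩ : ∃ s, p i s ≠ 0 := Function.ne_iff.mp (hp i)
    refine ⟨_, mul_mem_EL hy s, mul_ne_zero hs hy0, fun j hj => ?_⟩
    change p j s * y j = 0
    rw [hyU j hj, mul_zero]

lemma card_le_finrank_EL {p : ι → Fin (N + 1) → M} (hp : ∀ i, p i ≠ 0)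
    (hne : ∀ i j, i ≠ j → ∀ b : M, p i ≠ b • p j) {m : ℕ} (hm : Fintype.card ι ≤ m + 1) :
    Fintype.card ι ≤ finrank M (EL K p m) := by
  have h1 : ∀ i : ι, ∃ x ∈ EL K p m, x i ≠ 0 ∧ ∀ j ∈ Finset.univ.erase i, x j = 0 := by
    intro i
    obtain ⟨x, hx, hx0, hxU⟩ := sep (K := K) hp hne i (Finset.univ.erase i)
      (Finset.notMem_erase _ _)
    rw [Finset.card_erase_of_mem (Finset.mem_univ i), Finset.card_univ] at hx
    obtain ⟨y, hy, hy0, hyU⟩ := sep_pad hp hx hx0 hxU (m - (Fintype.card ι - 1))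
    rw [Nat.add_sub_cancel' (by omega)] at hy
    exact ⟨y, hy, hy0, hyU⟩
  choose x hx hx0 hxU using h1
  have hli : LinearIndependent M x := by
    rw [Fintype.linearIndependent_iff]
    intro g hg i
    have h2 := congrFun hg i
    rw [Finset.sum_apply, Finset.sum_eq_single i] at h2
    · simp only [Pi.smul_apply, smul_eq_mul, Pi.zero_apply] at h2
      exact (mul_eq_zero.mp h2).resolve_right (hx0 i)
    · intro j _ hji
      simp only [Pi.smul_apply, smul_eq_mul]
      rw [hxU j i (Finset.mem_erase.mpr ⟨hji.symm, Finset.mem_univ i⟩), mul_zero]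
    · intro h
      exact absurd (Finset.mem_univ i) h
  have h3 := finrank_span_eq_card hli
  rw [← h3]
  apply Submodule.finrank_mono
  rw [Submodule.span_le]
  rintro _ ⟨i, rfl⟩
  exact hx i

variable {F : Fin (N + 1) → MvPolynomial (Fin (N + 1)) K} {q c : ℕ}

/-- products of monomials of the iterates with nonvanishing determinant -/
lemma exists_forms (hF : ∀ i, (F i).IsHomogeneous q)
    (hc : ∀ m, c + q ≤ m → ∀ p : MvPolynomial (Fin (N + 1)) K, p.IsHomogeneous m →
      p ∈ Ideal.span (Set.range F)) {p : ι → Fin (N + 1) → M} (hp : ∀ i, p i ≠ 0)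
    (hne : ∀ i j, i ≠ j → ∀ b : M, p i ≠ b • p j) (l : List ℕ) (hl : LOK c l)
    (hlc : Fintype.card ι ≤ ldeg q l + 1) :
    ∃ Φ : ι → MvPolynomial (Fin (N + 1)) K, (∀ j, Φ j ∈ GG F l) ∧
      (Matrix.of fun i j => aeval (p i) (Φ j)).det ≠ 0 := by
  have h1 := (card_le_finrank_EL (K := K) hp hne hlc).trans
    (Submodule.finrank_mono (EL_le_span hF hc p l hl))
  obtain ⟨φv, hφt, hφli⟩ := exists_indep (L := M)
    {v : ι → M | ∃ φ ∈ GG F l, v = fun i => aeval (p i) φ} h1
  choose φ hφG hφe using hφt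
  let e : ι ≃ Fin (Fintype.card ι) := Fintype.equivFin ι
  refine ⟨fun j => φ (e j), fun j => hφG _, ?_⟩
  have h2 : LinearIndependent M (Matrix.of fun j i => aeval (p i) (φ (e j))).row := by
    have h3 : (Matrix.of fun j i => aeval (p i) (φ (e j))).row = fun j => φv (e j) := by
      funext j
      rw [hφe]
      rfl
    rw [h3]
    exact hφli.comp e e.injective
  rw [Matrix.linearIndependent_rows_iff_isUnit, Matrix.isUnit_iff_isUnit_det] at h2
  have h3 : (Matrix.of fun i j => aeval (p i) (φ (e j))) =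
      (Matrix.of fun j i => aeval (p i) (φ (e j))).transpose := by
    ext i j
    rfl
  rw [h3, Matrix.det_transpose]
  exact h2.ne_zero

end Sep

section Arch

variable {M : Type} [Field M] [NumberField M] {ι : Type} [Fintype ι] [DecidableEq ι]

lemma det_rows_le_inf (w : InfinitePlace M) (W : Matrix ι ι M) (b : ι → ℝ)
    (h : ∀ i j, w (W i j) ≤ b i) : w W.det ≤ (Fintype.card ι).factorial * ∏ i, b i := by
  rw [Matrix.det_apply]
  have h1 : w (∑ σ : Equiv.Perm ι, Equiv.Perm.sign σ • ∏ i, W (σ i) i) ≤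
      ∑ σ : Equiv.Perm ι, w (Equiv.Perm.sign σ • ∏ i, W (σ i) i) := by
    rw [← InfinitePlace.norm_embedding_eq, map_sum]
    refine (norm_sum_le _ _).trans (le_of_eq ?_)
    refine Finset.sum_congr rfl fun σ _ => ?_
    rw [InfinitePlace.norm_embedding_eq]
  refine h1.trans ?_
  have h2 : ∀ σ ∈ (Finset.univ : Finset (Equiv.Perm ι)),
      w (Equiv.Perm.sign σ • ∏ i, W (σ i) i) ≤ ∏ i, b i := by
    intro σ _
    have h3 : w (Equiv.Perm.sign σ • ∏ i, W (σ i) i) = ∏ i, w (W (σ i) i) := by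
      rw [Units.smul_def, zsmul_eq_mul, map_mul, map_prod]
      rcases Int.units_eq_one_or (Equiv.Perm.sign σ) with h | h
      · simp [h]
      · rw [h, Units.val_neg, Units.val_one, Int.cast_neg, Int.cast_one]
        have : w (-1 : M) = 1 := by
          rw [← InfinitePlace.norm_embedding_eq, map_neg, norm_neg, map_one, norm_one]
        rw [this, one_mul]
    rw [h3]
    calc ∏ i, w (W (σ i) i) ≤ ∏ i, b (σ i) :=
          Finset.prod_le_prod (fun i _ => by positivity) fun i _ => h _ _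
      _ = ∏ i, b i := Equiv.prod_comp σ b
  refine (Finset.sum_le_sum h2).trans (le_of_eq ?_)
  rw [Finset.sum_const, Finset.card_univ, Fintype.card_perm, nsmul_eq_mul]

end Arch

section Main

variable {K : Type} [Field K] [NumberField K] {M : Type} [Field M] [NumberField M] [Algebra K M]
  {N : ℕ} {ι : Type} [Fintype ι] [DecidableEq ι]
variable {F : Fin (N + 1) → MvPolynomial (Fin (N + 1)) K} {q c a : ℕ} {A : ℝ}

/-- **the inequality** -/
theorem det_ineq (hB : Bds F q A a) (hF : ∀ i, (F i).IsHomogeneous q)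
    (hc : ∀ m, c + q ≤ m → ∀ p : MvPolynomial (Fin (N + 1)) K, p.IsHomogeneous m →
      p ∈ Ideal.span (Set.range F)) {p : ι → Fin (N + 1) → M} (hp : ∀ i, p i ≠ 0)
    (hne : ∀ i j, i ≠ j → ∀ b : M, p i ≠ b • p j) (l : List ℕ) (hl : LOK c l)
    (hlc : Fintype.card ι ≤ ldeg q l + 1) (T : Finset (FinitePlace M))
    (hT : ∀ v ∈ T, ∃ ρ, RedN v F q ρ) (g : FinitePlace M → ℝ) (hg : ∀ v ∈ T, 0 < g v)
    {t : ℕ} (hnear : ∀ v ∈ T, ∃ cc : ι → ι, (Finset.univ.image cc).card ≤ t ∧
      ∀ i, Near v (Real.exp (-g v)) (p i) (p (cc i))) (s : ℕ) :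
    (∑ v ∈ T, g v) * (s * (Fintype.card ι - t * s ^ N : ℕ)) ≤
      ∑ i, HL F l (p i) + finrank ℚ M * Real.log (Fintype.card ι).factorial := by
  obtain ⟨Φ, hΦ, hdet⟩ := exists_forms hF hc hp hne l hl hlc
  set W := (Matrix.of fun i j => aeval (p i) (Φ j)) with hW
  have hiter : ∀ i j, (act F)^[j] (p i) ≠ 0 := fun i j => hB.iter_ne_zero (hp i) j
  have hwtpos : ∀ (w : InfinitePlace M) i, 0 < wt (nmi w) (act F) l (p i) :=
    fun w i => wt_pos l fun j => nmi_pos w (hiter _ j)
  have hwtposf : ∀ (v : FinitePlace M) i, 0 < wt (nmf v) (act F) l (p i) :=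
    fun v i => wt_pos l fun j => nmf_pos v (hiter _ j)
  have hinf : ∀ w : InfinitePlace M, Real.log (w W.det) ≤
      ∑ i, Real.log (wt (nmi w) (act F) l (p i)) + Real.log (Fintype.card ι).factorial := by
    intro w
    have h1 : w W.det ≤ (Fintype.card ι).factorial * ∏ i, wt (nmi w) (act F) l (p i) := by
      apply det_rows_le_inf
      intro i j
      exact abs_le_wt (w.1.toMonoidWithZeroHom) (fun x => w.1.nonneg x)
        (fun x j => le_nmi w x j) (fun x => nmi_nonneg w x) l (hΦ j) (p i)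
    have h2 : 0 < w W.det := InfinitePlace.pos_iff.mpr hdet
    have h3 := Real.log_le_log h2 h1
    have h4 : (0 : ℝ) < ((Fintype.card ι).factorial : ℝ) := by
      exact_mod_cast Nat.factorial_pos _
    rw [Real.log_mul h4.ne' (Finset.prod_pos fun k _ => hwtpos w k).ne',
      Real.log_prod (fun k _ => (hwtpos w k).ne')] at h3
    linarith
  have hfin : ∀ v : FinitePlace M, Real.log (v W.det) ≤
      ∑ i, Real.log (wt (nmf v) (act F) l (p i)) := by
    intro v
    have h1 : v W.det ≤ ∏ i, wt (nmf v) (act F) l (p i) := by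
      apply det_rows_le v _ _ (fun k => (hwtposf v k).le)
      intro i j
      exact abs_le_wt (v.1.toMonoidWithZeroHom) (fun x => v.1.nonneg x)
        (fun x j => le_nmf v x j) (fun x => nmf_nonneg v x) l (hΦ j) (p i)
    have h2 : 0 < v W.det := FinitePlace.pos_iff.mpr hdet
    have h3 := Real.log_le_log h2 h1
    rwa [Real.log_prod (fun k _ => (hwtposf v k).ne')] at h3
  have hfinT : ∀ v ∈ T, Real.log (v W.det) ≤
      ∑ i, Real.log (wt (nmf v) (act F) l (p i)) -
        g v * (s * (Fintype.card ι - t * s ^ N : ℕ)) := by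
    intro v hv
    obtain ⟨ρ, hR⟩ := hT v hv
    obtain ⟨cc, hcc, hcc'⟩ := hnear v hv
    have hgv := hg v hv
    have h1 := local_gain hR hF l Φ hΦ p hp cc (Real.exp_pos (-g v))
      (by rw [Real.exp_lt_one_iff]; linarith) hcc' hcc s
    rw [← hW] at h1
    have h2 : 0 < v W.det := FinitePlace.pos_iff.mpr hdet
    have h3 := Real.log_le_log h2 h1
    have h4 : ∏ i, nmf v (p i) ^ ldeg q l = ∏ i, wt (nmf v) (act F) l (p i) :=
      Finset.prod_congr rfl fun i _ => (hR.wt_eq hF l (hp i)).symm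
    rw [h4, Real.log_mul (Finset.prod_pos fun i _ => hwtposf v i).ne'
      (pow_pos (pow_pos (Real.exp_pos _) _) _).ne',
      Real.log_prod (fun k _ => (hwtposf v k).ne'), Real.log_pow, Real.log_pow, Real.log_exp]
      at h3
    refine h3.trans (le_of_eq ?_)
    ring
  have hgs1 : HasGS (fun w => ∑ i, Real.log (wt (nmi w) (act F) l (p i)))
      (fun v => ∑ i, Real.log (wt (nmf v) (act F) l (p i))) (∑ i, HL F l (p i)) :=
    HasGS.sum Finset.univ fun k _ => HasGS.wt l (hiter k)
  have hmain := HasGS_le_gain (HasGS.prod hdet) hgs1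
    (c := Real.log (Fintype.card ι).factorial) hinf T
    (fun v => g v * (s * (Fintype.card ι - t * s ^ N : ℕ))) (fun v _ => hfin v) hfinT
  rw [← Finset.sum_mul] at hmain
  linarith

/-- the inequality in terms of canonical heights -/
theorem det_ineq' (hB : Bds F q A a) (hq : 2 ≤ q) (hF : ∀ i, (F i).IsHomogeneous q)
    (hc : ∀ m, c + q ≤ m → ∀ p : MvPolynomial (Fin (N + 1)) K, p.IsHomogeneous m →
      p ∈ Ideal.span (Set.range F)) {p : ι → Fin (N + 1) → M} (hp : ∀ i, p i ≠ 0)
    (hne : ∀ i j, i ≠ j → ∀ b : M, p i ≠ b • p j) (hι : 1 ≤ Fintype.card ι)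
    (T : Finset (FinitePlace M))
    (hT : ∀ v ∈ T, ∃ ρ, RedN v F q ρ) (g : FinitePlace M → ℝ) (hg : ∀ v ∈ T, 0 < g v)
    {t : ℕ} (hnear : ∀ v ∈ T, ∃ cc : ι → ι, (Finset.univ.image cc).card ≤ t ∧
      ∀ i, Near v (Real.exp (-g v)) (p i) (p (cc i))) (s : ℕ) {H : ℝ}
    (hH : ∀ i, canH F q (p i) ≤ H) :
    (∑ v ∈ T, g v) * (s * (Fintype.card ι - t * s ^ N : ℕ)) ≤
      finrank ℚ M * (Fintype.card ι * (Fintype.card ι * H +
        hC A a * ((c + q : ℕ) * (1 + Nat.log 2 (Fintype.card ι) : ℕ)) +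
        Real.log (Fintype.card ι))) := by
  set r := Fintype.card ι with hr
  obtain ⟨l, hl1, hl2, hl3, hl4⟩ := exists_list (c := c) hq r
  have h1 := det_ineq hB hF hc hp hne l hl2 (by omega) T hT g hg hnear s
  refine h1.trans ?_
  have hD := finrank_pos' (L := M)
  have hr' : (1 : ℝ) ≤ r := by exact_mod_cast hι
  have hHL : ∀ i, HL F l (p i) ≤ finrank ℚ M * (r * H +
      hC A a * ((c + q : ℕ) * (1 + Nat.log 2 r : ℕ))) := by
    intro i
    refine (hB.HL_le hq l (hp i)).trans ?_
    rw [hl1]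
    have h2 : (l.sum : ℝ) ≤ (c + q : ℕ) * (1 + Nat.log 2 r : ℕ) := by
      have h3 : l.sum ≤ l.length * (c + q) := by
        have := List.sum_le_card_nsmul l (c + q) hl3
        simpa using this
      have h4 : l.length * (c + q) ≤ (c + q) * (1 + Nat.log 2 r) := by
        rw [mul_comm]
        exact Nat.mul_le_mul_left _ hl4
      exact_mod_cast h3.trans h4
    have h3 : (r : ℝ) * canH F q (p i) ≤ r * H :=
      mul_le_mul_of_nonneg_left (hH i) (by linarith)
    have h4 : hC A a * l.sum ≤ hC A a * ((c + q : ℕ) * (1 + Nat.log 2 r : ℕ)) :=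
      mul_le_mul_of_nonneg_left h2 hB.hC_nonneg
    exact mul_le_mul_of_nonneg_left (by linarith) hD.le
  have hsum : ∑ i, HL F l (p i) ≤ r * (finrank ℚ M * (r * H +
      hC A a * ((c + q : ℕ) * (1 + Nat.log 2 r : ℕ)))) := by
    have h7 := Finset.sum_le_sum (fun k (_ : k ∈ (Finset.univ : Finset ι)) => hHL k)
    rwa [Finset.sum_const, Finset.card_univ, nsmul_eq_mul] at h7
  have hfac : Real.log r.factorial ≤ r * Real.log r := by
    have h2 : (r.factorial : ℝ) ≤ (r : ℝ) ^ r := by exact_mod_cast Nat.factorial_le_pow r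
    have h3 := Real.log_le_log (by exact_mod_cast Nat.factorial_pos r) h2
    rwa [Real.log_pow] at h3
  have h5 := mul_le_mul_of_nonneg_left hfac hD.le
  calc ∑ i, HL F l (p i) + finrank ℚ M * Real.log r.factorial ≤
      r * (finrank ℚ M * (r * H + hC A a * ((c + q : ℕ) * (1 + Nat.log 2 r : ℕ)))) +
        finrank ℚ M * (r * Real.log r) := by linarith
    _ = _ := by ring

end Main

end

end Pool.Agent.H627.LP
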