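import Mathlib
import Pool.Agent.H627.LP.Cen
import Pool.Agent.H627.LP.Glo
import Pool.Agent.H627.LP.Asm

/-!
The conjugates of several consecutive iterates of a wandering point.
-/

set_option autoImplicit false
set_option linter.unusedSectionVars false

namespace Pool.Agent.H627.LP

open NumberField Module MvPolynomial Filter Topology
open Pool.Agent.W238.Leh
open Pool.Agent.H420R3 (mi nv TP ew lP lP_pos sum_ew gq TP_nonempty mem_TP)
open scoped Pointwise

noncomputable section

section NearLemmas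

variable {M : Type} [Field M] [NumberField M] {v : FinitePlace M} {N : ℕ}

lemma v_neg' (x : M) : v (-x) = v x := by
  rw [← FinitePlace.norm_embedding_eq, map_neg, norm_neg, FinitePlace.norm_embedding_eq]

lemma Near.symm {η : ℝ} {y y' : Fin (N + 1) → M} (h : Near v η y y') : Near v η y' y := by
  intro s t
  have h1 := h t s
  have h2 : y' s * y t - y' t * y s = -(y s * y' t - y t * y' s) := by ring
  have h3 : y t * y' s - y s * y' t = -(y s * y' t - y t * y' s) := by ring
  rw [h3] at h1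
  rw [h2, mul_comm (nmf v y')]
  exact h1

lemma Near.smul_right {η : ℝ} {y y' : Fin (N + 1) → M} (h : Near v η y y') (b : M) :
    Near v η y (b • y') := by
  intro s t
  have h1 := h s t
  have h2 : y s * (b • y') t - y t * (b • y') s = b * (y s * y' t - y t * y' s) := by
    simp only [Pi.smul_apply, smul_eq_mul]
    ring
  rw [h2, map_mul, nmf_smul]
  calc v b * v (y s * y' t - y t * y' s) ≤ v b * (η * (nmf v y * nmf v y')) :=
        mul_le_mul_of_nonneg_left h1 (v_nonneg v b)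
    _ = _ := by ring

lemma Near.mono {η η' : ℝ} {y y' : Fin (N + 1) → M} (h : Near v η y y') (hη : η ≤ η') :
    Near v η' y y' := fun s t =>
  (h s t).trans (mul_le_mul_of_nonneg_right hη (mul_nonneg (nmf_nonneg v _) (nmf_nonneg v _)))

lemma Cl.near {η : ℝ} {c d : M} {z w : Fin (N + 1) → M} (h : Cl v η (c • z) (d • w)) :
    Near v η z w := fun s t => h.wedge_smul s t

end NearLemmas

variable {K : Type} [Field K] [NumberField K] {N : ℕ}
variable {F : Fin (N + 1) → MvPolynomial (Fin (N + 1)) K} {q : ℕ}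
variable {M : Type} [Field M] [NumberField M] [Algebra K M]

/-- conjugates of the iterates -/
def pt (F : Fin (N + 1) → MvPolynomial (Fin (N + 1)) K) (z : Fin (N + 1) → M) (n : ℕ)
    (σ : Gal(M/K)) : Fin (N + 1) → M := (act F)^[n] fun i => σ (z i)

/-- equality of the projective points -/
def ptS (F : Fin (N + 1) → MvPolynomial (Fin (N + 1)) K) (z : Fin (N + 1) → M) (n : ℕ) :
    Setoid Gal(M/K) where
  r σ σ' := ∃ c : M, c ≠ 0 ∧ pt F z n σ = c • pt F z n σ'
  iseqv := by
    refine ⟨fun σ => ⟨1, one_ne_zero, (one_smul _ _).symm⟩, ?_, ?_⟩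
    · rintro σ σ' ⟨c, hc, h⟩
      exact ⟨c⁻¹, inv_ne_zero hc, by rw [h, smul_smul, inv_mul_cancel₀ hc, one_smul]⟩
    · rintro σ σ' σ'' ⟨c, hc, h⟩ ⟨d, hd, h'⟩
      exact ⟨c * d, mul_ne_zero hc hd, by rw [h, h', smul_smul]⟩

/-- the set of conjugates of an iterate -/
abbrev QQ (F : Fin (N + 1) → MvPolynomial (Fin (N + 1)) K) (z : Fin (N + 1) → M) (n : ℕ) :
    Type := Quotient (ptS F z n)

instance (z : Fin (N + 1) → M) (n : ℕ) : Finite (QQ F z n) := by
  unfold QQ
  infer_instance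

instance (z : Fin (N + 1) → M) (n : ℕ) : Fintype (QQ F z n) := Fintype.ofFinite _

/-- the number of conjugates decreases -/
lemma QQ_succ (hF : ∀ i, (F i).IsHomogeneous q) (z : Fin (N + 1) → M) (n : ℕ) :
    Fintype.card (QQ F z (n + 1)) ≤ Fintype.card (QQ F z n) := by
  have hmap : ∀ σ σ' : Gal(M/K), (ptS F z n) σ σ' → (ptS F z (n + 1)) σ σ' := by
    rintro σ σ' ⟨c, hc, h⟩
    refine ⟨c ^ q, pow_ne_zero _ hc, ?_⟩
    unfold pt at h ⊢
    rw [Function.iterate_succ_apply', Function.iterate_succ_apply', h, act_smul hF]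
  refine Fintype.card_le_of_surjective (Quotient.map (sa := ptS F z n) (sb := ptS F z (n + 1))
    id hmap) ?_
  intro x
  induction x using Quotient.inductionOn with
  | _ σ => exact ⟨Quotient.mk (ptS F z n) σ, rfl⟩

lemma QQ_anti (hF : ∀ i, (F i).IsHomogeneous q) (z : Fin (N + 1) → M) {m n : ℕ} (h : m ≤ n) :
    Fintype.card (QQ F z n) ≤ Fintype.card (QQ F z m) := by
  induction n, h using Nat.le_induction with
  | base => exact le_rfl
  | succ n _ ih => exact (QQ_succ hF z n).trans ih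

/-- the number of conjugates is at most the degree -/
lemma QQ_le {L : Type} [Field L] [NumberField L] [Algebra K L] [Algebra L M]
    [IsScalarTower K L M] (x : Fin (N + 1) → L) (n : ℕ) :
    Fintype.card (QQ F (fun i => algebraMap L M (x i)) n) ≤ finrank K L := by
  have h1 := card_algHom_le_finrank K L M
  refine le_trans ?_ h1
  rw [← Nat.card_eq_fintype_card]
  refine Nat.card_le_card_of_injective
    (fun y : QQ F (fun i => algebraMap L M (x i)) n =>
      (y.out.toAlgHom.comp (IsScalarTower.toAlgHom K L M) : L →ₐ[K] M)) ?_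
  intro y y' h
  rw [← Quotient.out_equiv_out]
  refine ⟨1, one_ne_zero, ?_⟩
  rw [one_smul]
  unfold pt
  congr 1
  funext i
  exact AlgHom.congr_fun h (x i)

/-- base change of wandering points -/
lemma Wnd.base {A : ℝ} {a : ℕ} (hB : Bds F q A a) {L : Type} [Field L] [NumberField L]
    [Algebra K L] [Algebra L M] [IsScalarTower K L M] {x : Fin (N + 1) → L} (hx : x ≠ 0)
    (hw : Wnd F x) : Wnd F (fun i => algebraMap L M (x i)) := by
  rintro ⟨m, n, hmn, c, hc, h⟩
  rw [act_iter_base, act_iter_base] at h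
  have hFn : ∀ n, (act F)^[n] x ≠ 0 := fun n => hB.iter_ne_zero hx n
  obtain ⟨j, hj⟩ : ∃ j, (act F)^[m] x j ≠ 0 := Function.ne_iff.mp (hFn m)
  have h4 : ∀ i, algebraMap L M ((act F)^[n] x i) =
      c * algebraMap L M ((act F)^[m] x i) := fun i => congrFun h i
  have h5 : ∀ i, (act F)^[n] x i = ((act F)^[n] x j / (act F)^[m] x j) * (act F)^[m] x i := by
    intro i
    have h6 : (act F)^[n] x i * (act F)^[m] x j = (act F)^[n] x j * (act F)^[m] x i := by
      apply (algebraMap L M).injective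
      rw [map_mul, map_mul, h4 i, h4 j]
      ring
    field_simp
    exact h6
  refine hw ⟨m, n, hmn, _, ?_, funext h5⟩
  intro h0
  apply hFn n
  funext i
  rw [h5 i, h0, zero_mul]
  rfl

/-- Galois invariance of the canonical height -/
lemma canH_gal (σ : Gal(M/K)) (z : Fin (N + 1) → M) :
    canH F q (fun i => σ (z i)) = canH F q z := by
  unfold canH
  congr 1
  funext n
  rw [act_gal_iter]
  congr 1
  exact logHeight_aut (σ : M ≃+* M) ((act F)^[n] z)

/-- base change of the canonical height -/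
lemma canH_base {L : Type} [Field L] [NumberField L] [Algebra K L] [Algebra L M]
    [IsScalarTower K L M] (x : Fin (N + 1) → L) :
    canH F q (fun i => algebraMap L M (x i)) = canH F q x := by
  unfold canH
  congr 1
  funext n
  rw [act_iter_base, Helper259.HtExt.logHeight_ext]
  have hQM : (finrank ℚ M : ℝ) = finrank ℚ L * finrank L M := by
    exact_mod_cast (finrank_mul_finrank ℚ L M).symm
  have hn := finrank_pos' (L := L)
  have hLM : (0 : ℝ) < finrank L M := by exact_mod_cast (finrank_pos : 0 < finrank L M)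
  rw [hQM]
  rcases eq_or_ne ((q : ℝ) ^ n) 0 with h0 | h0
  · rw [h0]
    simp
  · field_simp

lemma gq_mono {q : ℕ} (hq : 2 ≤ q) {b : ℕ} (hb : 1 ≤ b) (n j : ℕ) :
    1 + (n : ℝ) ≤ (gq q)^[(Nat.clog q b + n) + j] (1 / (b : ℝ)) := by
  have h1 := gq_big hq hb (n + j)
  rw [← add_assoc] at h1
  refine le_trans ?_ h1
  push_cast
  have : (0 : ℝ) ≤ j := by positivity
  linarith

variable [IsGalois K M] {P : Ideal (𝓞 K)} [hP : P.IsMaximal]
variable {L : Type} [Field L] [NumberField L] [Algebra K L] [Algebra L M] [IsScalarTower K L M]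

/-- different levels are different points -/
lemma pt_ne (hF : ∀ i, (F i).IsHomogeneous q) {z : Fin (N + 1) → M} (hw : Wnd F z) {m n : ℕ}
    (hmn : m < n) (σ σ' : Gal(M/K)) {b : M} (hb : b ≠ 0) : pt F z n σ ≠ b • pt F z m σ' := by
  intro h
  unfold pt at h
  rw [act_gal_iter, act_gal_iter] at h
  obtain ⟨t, rfl⟩ := Nat.exists_eq_add_of_lt hmn
  have h1 : (act F)^[m] ((act F)^[t + 1] z) = σ⁻¹ b • fun i =>
      (σ⁻¹ * σ') ((act F)^[m] z i) := by
    rw [← Function.iterate_add_apply]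
    funext i
    have h2 := congrArg (fun y => σ⁻¹ y) (congrFun h i)
    simp only [Pi.smul_apply, smul_eq_mul, map_mul] at h2
    rw [← AlgEquiv.mul_apply, inv_mul_cancel] at h2
    exact h2
  exact Wnd.ne hF hw (σ⁻¹ * σ') (m := t + 1) (by omega) m
    ((map_ne_zero (σ⁻¹ : Gal(M/K))).mpr hb) h1

/-- **the fundamental inequality** -/
theorem GoodN.points (h : GoodN P F q) (hP0 : P ≠ ⊥) {A : ℝ} {a c : ℕ} (hB : Bds F q A a)
    (hc : ∀ m, c + q ≤ m → ∀ p : MvPolynomial (Fin (N + 1)) K, p.IsHomogeneous m →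
      p ∈ Ideal.span (Set.range F)) {x : Fin (N + 1) → L} (hx : x ≠ 0) (hw : Wnd F x)
    {e : ℕ} (he : ∀ 𝔓 : Ideal (𝓞 L), 𝔓.IsPrime → 𝔓.under (𝓞 K) = P →
      𝔓.ramificationIdx (𝓞 K) ≤ e) (he1 : 1 ≤ e) {k s n' : ℕ} (hk : 1 ≤ k)
    (hks : 2 * s ^ N ≤ k) (hM : ∃ (M : Type) (_ : Field M) (_ : NumberField M)
      (_ : Algebra K M) (_ : Algebra L M), IsScalarTower K L M ∧ IsGalois K M) :
    lP P * (1 + (n' : ℝ)) * s / 2 ≤
      (k * finrank K L : ℕ) * ((q : ℝ) ^ (Nat.clog q e + n' + k) * canH F q x) +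
        (hC A a * ((c + q : ℕ) * (1 + Nat.log 2 (k * finrank K L) : ℕ)) +
        Real.log (k * finrank K L : ℕ)) := by
  classical
  obtain ⟨M, _, _, _, _, _, _⟩ := hM
  have hlP := lP_pos hP0
  obtain ⟨v₀, hv₀⟩ := TP_nonempty (M := M) (P := P) hP0
  have hq : 2 ≤ q := (h.red_at hP0 hv₀).two_le
  have hq' : (2 : ℝ) ≤ q := by exact_mod_cast hq
  set z : Fin (N + 1) → M := fun i => algebraMap L M (x i) with hz
  have hz0 : z ≠ 0 := by
    intro h0
    apply hx
    funext i
    have := congrFun h0 i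
    simp only [hz, Pi.zero_apply, FaithfulSMul.algebraMap_eq_zero_iff] at this
    exact this
  have hzσ : ∀ σ : Gal(M/K), (fun i => σ (z i)) ≠ 0 := by
    intro σ h0
    apply hz0
    funext i
    have := congrFun h0 i
    simpa using this
  have hwz : Wnd F z := hw.base hB hx
  have hcan0 : 0 ≤ canH F q x := hB.canH_nonneg hq hx
  set n₀ := Nat.clog q e + n' with hn₀
  set ι : Type := Σ j : Fin k, QQ F z (n₀ + j) with hι
  set p : ι → Fin (N + 1) → M := fun i => pt F z (n₀ + i.1) i.2.out with hp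
  have hp0 : ∀ i, p i ≠ 0 := fun i => hB.iter_ne_zero (hzσ _) _
  have hne : ∀ i i' : ι, i ≠ i' → ∀ b : M, p i ≠ b • p i' := by
    rintro ⟨j, y⟩ ⟨j', y'⟩ hii b hb
    have hb0 : b ≠ 0 := by
      rintro rfl
      rw [zero_smul] at hb
      exact hp0 _ hb
    rcases lt_trichotomy j j' with hj | hj | hj
    · have h1 : p ⟨j', y'⟩ = b⁻¹ • p ⟨j, y⟩ := by
        rw [hb, smul_smul, inv_mul_cancel₀ hb0, one_smul]
      exact pt_ne h.hom hwz (Nat.add_lt_add_left (Fin.lt_def.mp hj) n₀) _ _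
        (inv_ne_zero hb0) h1
    · subst hj
      apply hii
      have h1 : y = y' := by
        rw [← Quotient.out_equiv_out]
        exact ⟨b, hb0, hb⟩
      rw [h1]
    · exact pt_ne h.hom hwz (Nat.add_lt_add_left (Fin.lt_def.mp hj) n₀) _ _ hb0 hb
  -- cardinalities
  set t := Fintype.card (QQ F z (n₀ + (k - 1))) with ht
  set r := Fintype.card ι with hr
  have hrsum : r = ∑ j : Fin k, Fintype.card (QQ F z (n₀ + j)) := by
    rw [hr]
    exact Fintype.card_sigma
  have hkt : k * t ≤ r := by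
    rw [hrsum]
    calc k * t = ∑ _j : Fin k, t := by simp
      _ ≤ _ := by
        refine Finset.sum_le_sum fun j _ => QQ_anti h.hom z ?_
        have := j.2
        omega
  have hrD : r ≤ k * finrank K L := by
    rw [hrsum]
    calc ∑ j : Fin k, Fintype.card (QQ F z (n₀ + j)) ≤ ∑ _j : Fin k, finrank K L :=
          Finset.sum_le_sum fun j _ => QQ_le x _
      _ = _ := by simp
  have ht1 : 1 ≤ t := by
    have : Nonempty (QQ F z (n₀ + (k - 1))) := ⟨Quotient.mk _ 1⟩
    exact Fintype.card_pos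
  have hr1 : 1 ≤ r := le_trans (Nat.mul_pos hk ht1) hkt
  have hr1' : (1 : ℝ) ≤ r := by exact_mod_cast hr1
  -- closeness
  set g : FinitePlace M → ℝ := fun v => ew K v * (1 + (n' : ℝ)) with hg
  have hgpos : ∀ v ∈ TP M P, 0 < g v := fun v _ =>
    mul_pos (H420R3.ew_pos v) (by positivity)
  have hnear : ∀ v ∈ TP M P, ∃ cc : ι → ι, (Finset.univ.image cc).card ≤ t ∧
      ∀ i, Near v (Real.exp (-g v)) (p i) (p (cc i)) := by
    intro v hv
    have hR := h.red_at hP0 hv
    obtain ⟨κ, hκ, hqκ⟩ := h.pow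
    obtain ⟨τ, hτ1, hτ2⟩ := H420R3.exists_frob (K := K) hP0 hv κ
    rw [← hqκ] at hτ2
    have hfr : FrobAt v τ q := ⟨hτ1, hτ2⟩
    set top : Gal(M/K) → ι := fun σ =>
      ⟨⟨k - 1, by omega⟩, Quotient.mk (ptS F z (n₀ + (k - 1))) σ⟩ with htop
    refine ⟨fun i => top ((τ ^ (k - 1 - (i.1 : ℕ)))⁻¹ * i.2.out), ?_, ?_⟩
    · have h1 : Finset.univ.image (fun i : ι => top ((τ ^ (k - 1 - (i.1 : ℕ)))⁻¹ * i.2.out)) ⊆
          (Finset.univ : Finset (QQ F z (n₀ + (k - 1)))).image fun y =>
            (⟨⟨k - 1, by omega⟩, y⟩ : ι) := by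
        intro y hy
        obtain ⟨i, _, rfl⟩ := Finset.mem_image.mp hy
        exact Finset.mem_image_of_mem _ (Finset.mem_univ _)
      refine (Finset.card_le_card h1).trans (Finset.card_image_le.trans ?_)
      rw [Finset.card_univ]
    · rintro ⟨j, y⟩
      set d := k - 1 - (j : ℕ) with hd
      set σ := y.out with hσ
      set σ' := (τ ^ d)⁻¹ * σ with hσ'
      -- the representative at the top
      obtain ⟨b, hb, hb'⟩ : (ptS F z (n₀ + (k - 1)))
          (Quotient.mk (ptS F z (n₀ + (k - 1))) σ').out σ' := Quotient.mk_out _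
      change Near v (Real.exp (-g v)) (pt F z (n₀ + j) σ)
        (pt F z (n₀ + (k - 1)) (Quotient.mk (ptS F z (n₀ + (k - 1))) σ').out)
      rw [hb']
      refine Near.smul_right ?_ b
      refine Near.symm ?_
      obtain ⟨H, hH1, hH2, hH3⟩ := exists_H (L := L) hP0 hv σ' he
      obtain ⟨c₁, c₂, hcl⟩ := init_near hP0 hv h.hom hR (hfr.pow d) hH1 (hzσ σ')
        (fun h' hh' i => hH2 h' hh' (x i)) hH3
      have h1 := hR.iter (by positivity) hcl (n₀ + j)
      rw [act_iter_smul h.hom, act_iter_smul h.hom] at h1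
      have h2 : (act F)^[n₀ + j] ((act F)^[d] fun i => σ' (z i)) =
          pt F z (n₀ + (k - 1)) σ' := by
        unfold pt
        have hj := j.2
        have h2' : n₀ + (j : ℕ) + d = n₀ + (k - 1) := by
          rw [hd]
          omega
        rw [← Function.iterate_add_apply, h2']
      have h3 : (fun i => (τ ^ d) (σ' (z i))) = fun i => σ (z i) := by
        funext i
        rw [← AlgEquiv.mul_apply, hσ', mul_inv_cancel_left]
      rw [h2, h3] at h1
      refine h1.near.mono ?_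
      rw [Real.exp_le_exp, neg_le_neg_iff]
      exact mul_le_mul_of_nonneg_left (gq_mono hq he1 n' j) (H420R3.ew_pos v).le
  -- heights
  have hHp : ∀ i, canH F q (p i) ≤ (q : ℝ) ^ (n₀ + k) * canH F q x := by
    rintro ⟨j, y⟩
    change canH F q ((act F)^[n₀ + j] fun i => y.out (z i)) ≤ _
    rw [hB.canH_iter hq (hzσ _), canH_gal, hz, canH_base]
    refine mul_le_mul_of_nonneg_right ?_ hcan0
    apply pow_le_pow_right₀ (by linarith)
    have := j.2
    omega
  have hmain := det_ineq' hB hq h.hom hc hp0 hne hr1 (TP M P)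
    (fun v hv => ⟨_, h.red_at hP0 hv⟩) g hgpos hnear s hHp
  have hDM := finrank_pos' (L := M)
  have hDK := finrank_pos' (L := K)
  have hgsum : ∑ v ∈ TP M P, g v = finrank ℚ M * (lP P * (1 + (n' : ℝ))) := by
    simp only [hg]
    rw [← Finset.sum_mul, sum_ew hP0]
    have hdeg : (finrank ℚ M : ℝ) = finrank ℚ K * finrank K M := by
      exact_mod_cast (finrank_mul_finrank ℚ K M).symm
    unfold lP
    rw [hdeg]
    field_simp
  rw [hgsum, ← hr] at hmain
  have hmain' : lP P * (1 + (n' : ℝ)) * (s * (r - t * s ^ N : ℕ)) ≤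
      r * (r * ((q : ℝ) ^ (n₀ + k) * canH F q x) +
        hC A a * ((c + q : ℕ) * (1 + Nat.log 2 r : ℕ)) + Real.log r) := by
    refine le_of_mul_le_mul_left (le_trans (le_of_eq ?_) hmain) hDM
    ring
  have hrt : (r : ℝ) / 2 ≤ (r - t * s ^ N : ℕ) := by
    have h1 : 2 * (t * s ^ N) ≤ r := by
      calc 2 * (t * s ^ N) = (2 * s ^ N) * t := by ring
        _ ≤ k * t := Nat.mul_le_mul_right _ hks
        _ ≤ r := hkt
    have h2 : r ≤ 2 * (r - t * s ^ N) := by omega
    have h3 : (r : ℝ) ≤ 2 * (r - t * s ^ N : ℕ) := by exact_mod_cast h2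
    linarith
  have hX : 0 ≤ (q : ℝ) ^ (n₀ + k) * canH F q x := by positivity
  have h1 : lP P * (1 + (n' : ℝ)) * s / 2 ≤
      r * ((q : ℝ) ^ (n₀ + k) * canH F q x) +
        hC A a * ((c + q : ℕ) * (1 + Nat.log 2 r : ℕ)) + Real.log r := by
    refine le_of_mul_le_mul_left ?_ (lt_of_lt_of_le one_pos hr1')
    refine le_trans ?_ hmain'
    calc (r : ℝ) * (lP P * (1 + (n' : ℝ)) * s / 2) =
        lP P * (1 + (n' : ℝ)) * (s * (r / 2)) := by ring
      _ ≤ lP P * (1 + (n' : ℝ)) * (s * (r - t * s ^ N : ℕ)) := by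
        gcongr
  have hrD' : (r : ℝ) ≤ (k * finrank K L : ℕ) := by exact_mod_cast hrD
  have h2 : (r : ℝ) * ((q : ℝ) ^ (n₀ + k) * canH F q x) ≤
      (k * finrank K L : ℕ) * ((q : ℝ) ^ (n₀ + k) * canH F q x) :=
    mul_le_mul_of_nonneg_right hrD' hX
  have h3 : hC A a * ((c + q : ℕ) * (1 + Nat.log 2 r : ℕ)) ≤
      hC A a * ((c + q : ℕ) * (1 + Nat.log 2 (k * finrank K L) : ℕ)) := by
    have h4 : Nat.log 2 r ≤ Nat.log 2 (k * finrank K L) := Nat.log_mono_right hrD
    have h5 : ((1 + Nat.log 2 r : ℕ) : ℝ) ≤ ((1 + Nat.log 2 (k * finrank K L) : ℕ) : ℝ) := by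
      exact_mod_cast Nat.add_le_add_left h4 1
    have := hB.hC_nonneg
    gcongr
  have h4 : Real.log r ≤ Real.log (k * finrank K L : ℕ) :=
    Real.log_le_log (by linarith) hrD'
  linarith

end

end Pool.Agent.H627.LP
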