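import Mathlib
import Pool.Agent.H627.LP.Pair

/-!
Choice of the parameters.
-/

set_option autoImplicit false

namespace Pool.Agent.H627.LP

noncomputable section

lemma natlog_le {n : ℕ} (hn : 1 ≤ n) : (Nat.log 2 n : ℝ) ≤ 2 * Real.log n := by
  have h1 : 2 ^ Nat.log 2 n ≤ n := Nat.pow_log_le_self 2 (by omega)
  have h2 : (2 : ℝ) ^ Nat.log 2 n ≤ n := by exact_mod_cast h1
  have h3 := Real.log_le_log (by positivity) h2
  rw [Real.log_pow] at h3
  have h4 : (1 : ℝ) / 2 ≤ Real.log 2 := by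
    have := Real.log_two_gt_d9
    linarith
  have h5 : (0 : ℝ) ≤ Nat.log 2 n := Nat.cast_nonneg _
  have h6 := mul_le_mul_of_nonneg_left h4 h5
  linarith

/-- the choice of the parameters -/
theorem choose_params {lp E : ℝ} (hlp : 0 < lp) (hE : 0 ≤ E) {N q : ℕ} (hN : 1 ≤ N)
    (hq : 2 ≤ q) : ∃ C : ℝ, 0 < C ∧ ∀ (D e : ℕ), 1 ≤ D → 1 ≤ e → ∀ h : ℝ,
      (∀ s k : ℕ, 1 ≤ k → 2 * s ^ N ≤ k → lp * (1 + (k : ℝ)) * s / 2 ≤
        (k * D : ℕ) * ((q : ℝ) ^ (Nat.clog q e + k + k) * h) +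
          (E * (1 + Nat.log 2 (k * D) : ℕ) + Real.log (k * D : ℕ))) →
      Real.exp (-(C * (1 + Real.log D) ^ ((N : ℝ) / (N + 1)))) / (C * D * e) ≤ h := by
  set E' : ℝ := 3 * E + 2 with hE'
  have hE'0 : 0 < E' := by positivity
  have hN' : (1 : ℝ) ≤ N := by exact_mod_cast hN
  have hq' : (2 : ℝ) ≤ q := by exact_mod_cast hq
  have hlq : 0 < Real.log q := Real.log_pos (by linarith)
  set C₁ : ℝ := 1 + 2 * E' * (N + 1) / lp with hC₁
  have hC₁1 : 1 ≤ C₁ := by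
    have : 0 ≤ 2 * E' * (N + 1) / lp := by positivity
    linarith
  have hC₁a : 2 * E' * N ≤ lp * C₁ := by
    have h1 : lp * C₁ = lp + 2 * E' * (N + 1) := by
      rw [hC₁]
      field_simp
    rw [h1]
    have h2 : 2 * E' * (N + 1) = 2 * E' * N + 2 * E' := by ring
    linarith
  have hC₁b : 2 * E' ≤ lp * C₁ := by
    refine le_trans ?_ hC₁a
    exact le_mul_of_one_le_right (by linarith) hN'
  set C₂ : ℝ := 2 * (2 * C₁) ^ N * (1 + 2 * Real.log q) with hC₂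
  have hC₂0 : 0 < C₂ := by positivity
  refine ⟨max (q : ℝ) C₂, lt_max_of_lt_right hC₂0, ?_⟩
  intro D e hD he h hmain
  set C := max (q : ℝ) C₂ with hC
  have hCq : (q : ℝ) ≤ C := le_max_left _ _
  have hCC₂ : C₂ ≤ C := le_max_right _ _
  have hD' : (1 : ℝ) ≤ D := by exact_mod_cast hD
  have he' : (1 : ℝ) ≤ e := by exact_mod_cast he
  have hlD : 0 ≤ Real.log D := Real.log_nonneg hD'
  set Λ : ℝ := 1 + Real.log D with hΛ
  have hΛ1 : 1 ≤ Λ := by linarith
  set α : ℝ := 1 / ((N : ℝ) + 1) with hα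
  have hα0 : 0 < α := by positivity
  have hΛα : 1 ≤ Λ ^ α := Real.one_le_rpow hΛ1 hα0.le
  set s : ℕ := ⌈C₁ * Λ ^ α⌉₊ with hs
  have hs1 : C₁ * Λ ^ α ≤ s := Nat.le_ceil _
  have hs2 : (s : ℝ) ≤ 2 * C₁ * Λ ^ α := by
    have h1 : (s : ℝ) < C₁ * Λ ^ α + 1 := Nat.ceil_lt_add_one (by positivity)
    have h2 : 1 ≤ C₁ * Λ ^ α := one_le_mul_of_one_le_of_one_le hC₁1 hΛα
    linarith
  have hsC : C₁ ≤ s := by
    refine le_trans ?_ hs1
    exact le_mul_of_one_le_right (by linarith) hΛα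
  have hs3 : (1 : ℝ) ≤ s := hC₁1.trans hsC
  have hs3' : 1 ≤ s := by exact_mod_cast hs3
  set k : ℕ := 2 * s ^ N with hk
  have hk1 : 1 ≤ k := by
    have : 1 ≤ s ^ N := Nat.one_le_pow _ _ hs3'
    omega
  have hk1' : (1 : ℝ) ≤ k := by exact_mod_cast hk1
  have hkD : 1 ≤ k * D := Nat.mul_pos hk1 hD
  have h1 := hmain s k hk1 le_rfl
  -- the logarithm
  have hsN : (s : ℝ) ^ N ≤ (2 * C₁) ^ N * Λ ^ ((N : ℝ) / (N + 1)) := by
    have h2 : (s : ℝ) ^ N ≤ (2 * C₁ * Λ ^ α) ^ N := pow_le_pow_left₀ (by linarith) hs2 N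
    refine h2.trans (le_of_eq ?_)
    rw [mul_pow]
    congr 1
    rw [← Real.rpow_natCast, ← Real.rpow_mul (by linarith)]
    congr 1
    rw [hα]
    ring
  have hsN1 : lp * Λ * C₁ ≤ lp * (s : ℝ) ^ (N + 1) := by
    have h2 : (C₁ * Λ ^ α) ^ (N + 1) ≤ (s : ℝ) ^ (N + 1) :=
      pow_le_pow_left₀ (by positivity) hs1 _
    have h3 : (C₁ * Λ ^ α) ^ (N + 1) = C₁ ^ (N + 1) * Λ := by
      rw [mul_pow]
      congr 1
      rw [← Real.rpow_natCast, ← Real.rpow_mul (by linarith)]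
      have : α * ((N + 1 : ℕ) : ℝ) = 1 := by
        rw [hα]
        push_cast
        field_simp
      rw [this, Real.rpow_one]
    have h4 : C₁ ≤ C₁ ^ (N + 1) := le_self_pow₀ hC₁1 (by omega)
    rw [h3] at h2
    have h5 : C₁ * Λ ≤ C₁ ^ (N + 1) * Λ := mul_le_mul_of_nonneg_right h4 (by linarith)
    calc lp * Λ * C₁ = lp * (C₁ * Λ) := by ring
      _ ≤ lp * (s : ℝ) ^ (N + 1) := mul_le_mul_of_nonneg_left (h5.trans h2) hlp.le
  have hlogs : Real.log s ≤ s := by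
    have := Real.log_le_sub_one_of_pos (show (0 : ℝ) < s by linarith)
    linarith
  have hlogs0 : 0 ≤ Real.log s := Real.log_nonneg hs3
  have hlkD : Real.log (k * D : ℕ) ≤ N * s + Λ := by
    push_cast
    have hk' : (k : ℝ) = 2 * (s : ℝ) ^ N := by rw [hk]; push_cast; ring
    rw [Real.log_mul (by linarith) (by linarith), hk', Real.log_mul (by norm_num) (by positivity),
      Real.log_pow]
    have h2 : Real.log 2 ≤ 1 := by
      have := Real.log_two_lt_d9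
      linarith
    have h3 : (N : ℝ) * Real.log s ≤ N * s := mul_le_mul_of_nonneg_left hlogs (by linarith)
    linarith
  have hlkD0 : 0 ≤ Real.log (k * D : ℕ) := Real.log_nonneg (by exact_mod_cast hkD)
  have hnl := natlog_le hkD
  have hR : E * (1 + Nat.log 2 (k * D) : ℕ) + Real.log (k * D : ℕ) + 1 ≤
      E' * (N * s + Λ) := by
    have hNs : 0 ≤ (N : ℝ) * s := by positivity
    push_cast at hnl hlkD ⊢
    have h2 : E * (1 + (Nat.log 2 (k * D) : ℝ)) ≤ E * (1 + 2 * (N * s + Λ)) := by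
      apply mul_le_mul_of_nonneg_left _ hE
      linarith
    have h0 : 1 ≤ (N : ℝ) * s + Λ := by linarith
    have h3 : E ≤ E * (N * s + Λ) := le_mul_of_one_le_right hE h0
    have h4 : E' * (N * s + Λ) = 3 * (E * (N * s + Λ)) + 2 * (N * s + Λ) := by
      rw [hE']
      ring
    have h5 : E * (1 + 2 * (N * s + Λ)) = E + 2 * (E * (N * s + Λ)) := by ring
    linarith
  have hL : E' * (N * s + Λ) ≤ lp * (1 + (k : ℝ)) * s / 2 := by
    have hk' : (k : ℝ) = 2 * (s : ℝ) ^ N := by rw [hk]; push_cast; ring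
    have h2 : lp * (s : ℝ) ^ (N + 1) ≤ lp * (1 + (k : ℝ)) * s / 2 := by
      have h3 : 0 ≤ lp * s := by positivity
      have h4 : lp * (1 + (k : ℝ)) * s / 2 = lp * s / 2 + lp * (s : ℝ) ^ (N + 1) := by
        rw [hk']
        ring
      linarith
    refine le_trans ?_ h2
    have h3 : 2 * (E' * (N * s)) ≤ lp * (s : ℝ) ^ (N + 1) := by
      have h4 : (s : ℝ) ≤ (s : ℝ) ^ N := le_self_pow₀ hs3 (by omega)
      have h5 : lp * C₁ ≤ lp * (s : ℝ) ^ N :=
        mul_le_mul_of_nonneg_left (hsC.trans h4) hlp.le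
      rw [pow_succ]
      calc 2 * (E' * (N * s)) = (2 * E' * N) * s := by ring
        _ ≤ (lp * (s : ℝ) ^ N) * s := by
          apply mul_le_mul_of_nonneg_right _ (by linarith)
          linarith
        _ = _ := by ring
    have h4 : 2 * (E' * Λ) ≤ lp * (s : ℝ) ^ (N + 1) := by
      refine le_trans ?_ hsN1
      calc 2 * (E' * Λ) = (2 * E') * Λ := by ring
        _ ≤ (lp * C₁) * Λ := mul_le_mul_of_nonneg_right hC₁b (by linarith)
        _ = _ := by ring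
    linarith
  have h2 : 1 ≤ (k * D : ℕ) * ((q : ℝ) ^ (Nat.clog q e + k + k) * h) := by linarith
  -- conclusion
  have hqe : (q : ℝ) ^ Nat.clog q e ≤ q * e := by
    exact_mod_cast pow_clog_le hq he
  have hh0 : 0 < h := by
    by_contra hcon
    push Not at hcon
    have h3 : (0 : ℝ) ≤ (k * D : ℕ) * (q : ℝ) ^ (Nat.clog q e + k + k) := by positivity
    have h4 : (k * D : ℕ) * ((q : ℝ) ^ (Nat.clog q e + k + k) * h) ≤ 0 := by
      rw [← mul_assoc]
      exact mul_nonpos_of_nonneg_of_nonpos h3 hcon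
    linarith
  have hkexp : (k : ℝ) * ((q : ℝ) ^ k * (q : ℝ) ^ k) ≤ Real.exp (k * (1 + 2 * Real.log q)) := by
    have h3 : (k : ℝ) ≤ Real.exp k := by
      have := Real.add_one_le_exp (k : ℝ)
      linarith
    have h4 : (q : ℝ) ^ k = Real.exp (k * Real.log q) := by
      rw [Real.exp_nat_mul, Real.exp_log (by linarith)]
    rw [h4, ← Real.exp_add]
    calc (k : ℝ) * Real.exp (k * Real.log q + k * Real.log q) ≤
        Real.exp k * Real.exp (k * Real.log q + k * Real.log q) := by gcongr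
      _ = _ := by
        rw [← Real.exp_add]
        congr 1
        ring
  have hkC : (k : ℝ) * (1 + 2 * Real.log q) ≤ C * Λ ^ ((N : ℝ) / (N + 1)) := by
    have hk' : (k : ℝ) = 2 * (s : ℝ) ^ N := by rw [hk]; push_cast; ring
    have hΛ0 : 0 ≤ Λ ^ ((N : ℝ) / (N + 1)) := by positivity
    calc (k : ℝ) * (1 + 2 * Real.log q) = (s : ℝ) ^ N * (2 * (1 + 2 * Real.log q)) := by
          rw [hk']; ring
      _ ≤ ((2 * C₁) ^ N * Λ ^ ((N : ℝ) / (N + 1))) * (2 * (1 + 2 * Real.log q)) := by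
          gcongr
      _ = C₂ * Λ ^ ((N : ℝ) / (N + 1)) := by rw [hC₂]; ring
      _ ≤ C * Λ ^ ((N : ℝ) / (N + 1)) := mul_le_mul_of_nonneg_right hCC₂ hΛ0
  have hexp : Real.exp (k * (1 + 2 * Real.log q)) ≤
      Real.exp (C * Λ ^ ((N : ℝ) / (N + 1))) := Real.exp_le_exp.mpr hkC
  have h3 : 1 ≤ Real.exp (C * Λ ^ ((N : ℝ) / (N + 1))) * (C * D * e) * h := by
    calc (1 : ℝ) ≤ (k * D : ℕ) * ((q : ℝ) ^ (Nat.clog q e + k + k) * h) := h2
      _ = (k * ((q : ℝ) ^ k * (q : ℝ) ^ k)) * D * (q : ℝ) ^ Nat.clog q e * h := by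
          push_cast
          rw [pow_add, pow_add]
          ring
      _ ≤ Real.exp (C * Λ ^ ((N : ℝ) / (N + 1))) * D * (C * e) * h := by
          have h4 : (q : ℝ) ^ Nat.clog q e ≤ C * e :=
            hqe.trans (mul_le_mul_of_nonneg_right hCq (by linarith))
          have h5 := hkexp.trans hexp
          gcongr
      _ = _ := by ring
  have hC0 : 0 < C := lt_max_of_lt_right hC₂0
  rw [Real.exp_neg, div_le_iff₀ (by positivity)]
  have h4 := Real.exp_pos (C * Λ ^ ((N : ℝ) / (N + 1)))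
  rw [inv_le_iff_one_le_mul₀ h4]
  calc (1 : ℝ) ≤ _ := h3
    _ = _ := by ring

end

end Pool.Agent.H627.LP
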