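import Mathlib.RingTheory.RamificationInertia.Basic
import Pool.Agent.H420R3.Top

/-!
Ramification in composita.
-/

set_option autoImplicit false
set_option linter.unusedSectionVars false

namespace Pool.Agent.H627.LP

open NumberField Module
open Pool.Agent.H420R3 (mi CP jL jK' embL embK')

/-- ramification indices are at most the degree -/
lemma ram_le_finrank {K M : Type} [Field K] [NumberField K] [Field M] [NumberField M]
    [Algebra K M] (𝔔 : Ideal (𝓞 M)) [h𝔔 : 𝔔.IsPrime] :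
    𝔔.ramificationIdx (𝓞 K) ≤ finrank K M := by
  classical
  set P : Ideal (𝓞 K) := 𝔔.under (𝓞 K) with hP
  have hlo : 𝔔.LiesOver P := ⟨rfl⟩
  have hPp : P.IsPrime := Ideal.IsPrime.under (𝓞 K) 𝔔
  have := (Algebra.QuasiFinite.finite_primesOver (R := 𝓞 K) (S := 𝓞 M) P).fintype
  have h1 := Ideal.sum_ramification_inertia_eq_finrank (R := 𝓞 K) P (𝓞 M)
  have h2 : finrank (𝓞 K) (𝓞 M) = finrank K M := by
    exact (IsFractionRing.finrank_eq (𝓞 K) K (𝓞 M) M).symm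
  rw [← h2, ← h1]
  have h3 : 𝔔.ramificationIdx (𝓞 K) * 𝔔.inertiaDeg (𝓞 K) ≤
      ∑ q : P.primesOver (𝓞 M), q.1.ramificationIdx (𝓞 K) * q.1.inertiaDeg (𝓞 K) :=
    Finset.single_le_sum (f := fun q : P.primesOver (𝓞 M) =>
      q.1.ramificationIdx (𝓞 K) * q.1.inertiaDeg (𝓞 K)) (fun _ _ => Nat.zero_le _)
      (Finset.mem_univ (⟨𝔔, h𝔔, hlo⟩ : P.primesOver (𝓞 M)))
  have h4 : 0 < 𝔔.inertiaDeg (𝓞 K) := 𝔔.inertiaDeg_pos (𝓞 K)
  exact (Nat.le_mul_of_pos_right _ h4).trans h3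

section Comp

variable {k K L M : Type} [Field k] [NumberField k] [Field K] [NumberField K] [Field L]
  [NumberField L] [Field M] [NumberField M] [Algebra k K] [Algebra k L] [Algebra k M]
  [Algebra K M] [Algebra L M] [IsScalarTower k K M] [IsScalarTower k L M]

/-- ramification over a larger base -/
lemma ram_tower (P : Ideal (𝓞 K)) {e : ℕ}
    (he : ∀ 𝔓 : Ideal (𝓞 L), 𝔓.IsPrime → 𝔓.under (𝓞 k) = P.under (𝓞 k) →
      𝔓.ramificationIdx (𝓞 k) ≤ e) (𝔔 : Ideal (𝓞 M)) [h𝔔 : 𝔔.IsPrime]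
    (hP : 𝔔.under (𝓞 K) = P) : 𝔔.ramificationIdx (𝓞 K) ≤ e * finrank L M := by
  set 𝔓 : Ideal (𝓞 L) := 𝔔.under (𝓞 L) with h𝔓
  have h𝔓p : 𝔓.IsPrime := Ideal.IsPrime.under (𝓞 L) 𝔔
  have hlo1 : 𝔔.LiesOver 𝔓 := ⟨rfl⟩
  have hlo2 : 𝔔.LiesOver P := ⟨hP.symm⟩
  have hund : 𝔓.under (𝓞 k) = P.under (𝓞 k) := by
    rw [h𝔓, ← hP, Ideal.under_under, Ideal.under_under]
  have h1 : 𝔔.ramificationIdx (𝓞 K) ≤ 𝔔.ramificationIdx (𝓞 k) :=
    Ideal.ramificationIdx_above_le (R := 𝓞 k) (S := 𝓞 K) (T := 𝓞 M) P 𝔔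
  have h2 : 𝔔.ramificationIdx (𝓞 k) = 𝔓.ramificationIdx (𝓞 k) * 𝔔.ramificationIdx (𝓞 L) :=
    Ideal.ramificationIdx_tower (R := 𝓞 k) (S := 𝓞 L) (T := 𝓞 M) 𝔓 𝔔
  rw [h2] at h1
  refine h1.trans (Nat.mul_le_mul (he 𝔓 h𝔓p hund) (ram_le_finrank 𝔔))

end Comp

section CPdeg

variable (K K' L : Type) [Field K] [NumberField K] [Field K'] [NumberField K'] [Field L]
  [NumberField L] [Algebra K K'] [Algebra K L]

lemma finrank_CP_le' : finrank L (CP K K' L) ≤ finrank K K' := by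
  have h1 := IntermediateField.finrank_sup_le (embL K L).fieldRange (embK' K K' L).fieldRange
  have h2 : finrank K (embL K L).fieldRange = finrank K L :=
    (AlgEquiv.ofInjectiveField (embL K L)).toLinearEquiv.finrank_eq.symm
  have h3 : finrank K (embK' K K' L).fieldRange = finrank K K' :=
    (AlgEquiv.ofInjectiveField (embK' K K' L)).toLinearEquiv.finrank_eq.symm
  rw [h2, h3] at h1
  have h4 : finrank K L * finrank L (CP K K' L) = finrank K (CP K K' L) :=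
    finrank_mul_finrank K L (CP K K' L)
  have h5 : 0 < finrank K L := finrank_pos
  have h6 : finrank K L * finrank L (CP K K' L) ≤ finrank K L * finrank K K' := by
    rw [h4]
    exact h1
  exact Nat.le_of_mul_le_mul_left h6 h5

end CPdeg

end Pool.Agent.H627.LP
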