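import Pool.Agent.H627.LP.Orb
import Pool.Agent.H627.LP.Par
import Pool.Agent.H627.LP.Ram
import Pool.Agent.H420R3.Main

/-!
The polynomial lower bound for all wandering points.
-/

set_option autoImplicit false
set_option linter.unusedSectionVars false

namespace Pool.Agent.H627.LP

open NumberField Module MvPolynomial Filter Topology
open Pool.Agent.W238.Leh
open Pool.Agent.H420R3 (mi nv TP ew lP lP_pos sum_ew TP_nonempty mem_TP CP NC finrank_CP_le)
open scoped Pointwise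

noncomputable section

variable {k K : Type} [Field k] [NumberField k] [Field K] [NumberField K] [Algebra k K] {N : ℕ}

/-- there are no wandering points on `P^0` -/
lemma not_wnd_zero {M : Type} [Field M] [NumberField M] [Algebra K M]
    {H : Fin (0 + 1) → MvPolynomial (Fin (0 + 1)) K} {q a : ℕ} {A : ℝ} (hB : Bds H q A a)
    {u : Fin (0 + 1) → M} (hu : u ≠ 0) : ¬ Wnd H u := by
  intro hw
  have h1 : (act H)^[1] u ≠ 0 := hB.iter_ne_zero hu 1
  have hz : ∀ w : Fin (0 + 1) → M, w ≠ 0 → w 0 ≠ 0 := by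
    intro w hw h0
    apply hw
    funext i
    fin_cases i
    exact h0
  refine hw ⟨0, 1, by norm_num, (act H)^[1] u 0 / u 0, div_ne_zero (hz _ h1) (hz _ hu), ?_⟩
  funext i
  fin_cases i
  change (act H)^[1] u 0 = (act H)^[1] u 0 / u 0 * u 0
  rw [div_mul_cancel₀ _ (hz _ hu)]

/-- **the lower bound for all wandering points** -/
theorem poly {p r : ℕ} (hp : p.Prime) (hr : 1 ≤ r)
    (F : Fin (N + 1) → MvPolynomial (Fin (N + 1)) k)
    (A : Matrix (Fin (N + 1)) (Fin (N + 1)) K) (hA : A.det ≠ 0)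
    (G : Fin (N + 1) → MvPolynomial (Fin (N + 1)) K) (hG : ∀ i, (G i).IsHomogeneous (p ^ r))
    (hconj : Conj A F G) (v : FinitePlace K) (hv : v (p : K) < 1) (hred : InsepN v (p ^ r) G) :
    ∃ C : ℝ, 0 < C ∧ ∀ (L : Type) [Field L] [NumberField L] [Algebra k L]
      (x : Fin (N + 1) → L), x ≠ 0 → Wnd F x →
      ∃ h : ℝ, Tendsto (fun n : ℕ => Height.logHeight ((act F)^[n] x) /
          ((finrank ℚ L : ℝ) * ((p ^ r : ℕ) : ℝ) ^ n)) atTop (𝓝 h) ∧
        ∀ e : ℕ, (∀ 𝔓 : Ideal (𝓞 L), 𝔓.IsPrime →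
          𝔓.under (𝓞 k) = (mi v).under (𝓞 k) → 𝔓.ramificationIdx (𝓞 k) ≤ e) →
        Real.exp (-(C * (1 + Real.log (finrank k L)) ^ ((N : ℝ) / (N + 1)))) /
          (C * finrank k L * e) ≤ h := by
  obtain ⟨b, s, hb, hs, hint, hgood⟩ := hred.exists_model hp hr hv hG
  have hP0 := H420R3.mi_ne_bot v
  have hq : 2 ≤ p ^ r := by
    calc 2 ≤ p := hp.two_le
      _ ≤ p ^ r := Nat.le_self_pow (by omega) _
  set Gb : Fin (N + 1) → MvPolynomial (Fin (N + 1)) K := fun i => C (b : K) * G i with hGb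
  have hGbhom : ∀ i, (Gb i).IsHomogeneous (p ^ r) := by
    intro i
    have h7 := (isHomogeneous_C (Fin (N + 1)) (b : K)).mul (hG i)
    rwa [zero_add] at h7
  have hHmor := fun z => hgood.mor hP0 z
  have hGbmor : ∀ z : Fin (N + 1) → AlgebraicClosure K, (∀ i, aeval z (Gb i) = 0) → z = 0 := by
    intro z hz
    apply hHmor
    intro i
    have h1 : act (Fit Gb s) z = 0 := by
      rw [act_Fit]
      obtain ⟨s', rfl⟩ : ∃ s', s = s' + 1 := ⟨s - 1, by omega⟩
      have h0 : act Gb z = 0 := funext hz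
      rw [Function.iterate_succ_apply, h0]
      have h2 : act Gb (0 : Fin (N + 1) → AlgebraicClosure K) = 0 := by
        have := act_smul hGbhom (0 : AlgebraicClosure K) (0 : Fin (N + 1) → AlgebraicClosure K)
        rwa [zero_smul, zero_pow (by omega), zero_smul] at this
      clear hHmor hs hgood
      induction s' with
      | zero => rfl
      | succ s' ih => rw [Function.iterate_succ_apply', ih, h2]
    exact congrFun h1 i
  obtain ⟨A₁, a₁, hB₁⟩ := bds_of_mor (by omega) hGbhom hint hGbmor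
  obtain ⟨A₂, a₂, hB₂⟩ := bds_of_mor hgood.one_le hgood.hom hgood.int hHmor
  obtain ⟨c, hc0⟩ := exists_mem_span hHmor
  set Q := (p ^ r) ^ s with hQ
  have hQ2 : 2 ≤ Q := hq.trans (Nat.le_self_pow (by omega) _)
  have hlP := lP_pos (P := mi v) hP0
  have hE : 0 ≤ hC A₂ a₂ * ((c + Q : ℕ) : ℝ) := mul_nonneg hB₂.hC_nonneg (Nat.cast_nonneg _)
  obtain ⟨C₁, hC₁, hpar⟩ : ∃ C : ℝ, 0 < C ∧ (1 ≤ N → ∀ (D e : ℕ), 1 ≤ D → 1 ≤ e → ∀ h : ℝ,
      (∀ s k : ℕ, 1 ≤ k → 2 * s ^ N ≤ k → lP (mi v) * (1 + (k : ℝ)) * s / 2 ≤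
        (k * D : ℕ) * ((Q : ℝ) ^ (Nat.clog Q e + k + k) * h) +
          (hC A₂ a₂ * ((c + Q : ℕ) : ℝ) * (1 + Nat.log 2 (k * D) : ℕ) +
            Real.log (k * D : ℕ))) →
      Real.exp (-(C * (1 + Real.log D) ^ ((N : ℝ) / (N + 1)))) / (C * D * e) ≤ h) := by
    rcases Nat.eq_zero_or_pos N with hN | hN
    · exact ⟨1, one_pos, fun h => absurd h (by omega)⟩
    · obtain ⟨C₁, hC₁, hpar⟩ := choose_params hlP hE (N := N) (q := Q) hN hQ2
      exact ⟨C₁, hC₁, fun _ => hpar⟩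
  have hkK : 1 ≤ finrank k K := finrank_pos
  have hkK' : (1 : ℝ) ≤ finrank k K := by exact_mod_cast hkK
  refine ⟨C₁ * finrank k K, by positivity, ?_⟩
  intro L _ _ _ x hx hw
  obtain ⟨hu0, hwnd, hlim⟩ := transfer (M := CP k K L) (F := F) hA hconj hq hG hb hs hB₁ hx
  set u := lin (A.map (algebraMap K (CP k K L))) (fun i => algebraMap L (CP k K L) (x i)) with hu
  refine ⟨_, hlim, ?_⟩
  intro e he
  set h := canH (Fit Gb s) Q u with hh
  have hh0 : 0 ≤ h := hB₂.canH_nonneg hQ2 hu0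
  rcases Nat.eq_zero_or_pos e with rfl | he0
  · simpa using hh0
  have hw' := hwnd hw
  rcases Nat.eq_zero_or_pos N with hN | hN
  · subst hN
    exact absurd hw' (not_wnd_zero hB₂ hu0)
  have hram : ∀ 𝔔 : Ideal (𝓞 (CP k K L)), 𝔔.IsPrime → 𝔔.under (𝓞 K) = mi v →
      𝔔.ramificationIdx (𝓞 K) ≤ e * finrank k K := by
    intro 𝔔 h𝔔 h𝔔P
    refine (ram_tower (k := k) (L := L) (mi v) he 𝔔 h𝔔P).trans ?_
    exact Nat.mul_le_mul_left _ (finrank_CP_le' k K L)
  have hbd := hpar hN (finrank K (CP k K L)) (e * finrank k K) finrank_pos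
    (Nat.mul_pos he0 hkK) h (by
      intro s' k' hk' hks
      have h1 := hgood.points hP0 hB₂ (c := c) (fun m hm p hp => hc0 m (by omega) p hp) hu0 hw'
        hram (Nat.mul_pos he0 hkK) (k := k') (s := s') (n' := k') hk' hks
        ⟨NC K (CP k K L), inferInstance, inferInstance, inferInstance, inferInstance,
          inferInstance, inferInstance⟩
      refine h1.trans (le_of_eq ?_)
      rw [← hh, mul_assoc (hC A₂ a₂)])
  refine le_trans ?_ hbd
  have h3 : (finrank K (CP k K L) : ℝ) ≤ finrank k L := by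
    exact_mod_cast finrank_CP_le k K L
  have h4 : (1 : ℝ) ≤ finrank K (CP k K L) := by
    exact_mod_cast (finrank_pos : 0 < finrank K (CP k K L))
  set D' : ℝ := (finrank K (CP k K L) : ℝ) with hD'
  set D : ℝ := (finrank k L : ℝ) with hD
  have he' : (1 : ℝ) ≤ e := by exact_mod_cast he0
  have hlog : Real.log D' ≤ Real.log D := Real.log_le_log (by linarith) h3
  have hlog0 : 0 ≤ Real.log D' := Real.log_nonneg h4
  have h5 : C₁ * (1 + Real.log D') ^ ((N : ℝ) / (N + 1)) ≤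
      (C₁ * finrank k K) * (1 + Real.log D) ^ ((N : ℝ) / (N + 1)) := by
    have h6 : (1 + Real.log D') ^ ((N : ℝ) / (N + 1)) ≤
        (1 + Real.log D) ^ ((N : ℝ) / (N + 1)) := by
      apply Real.rpow_le_rpow (by linarith) (by linarith) (by positivity)
    have h7 : 0 ≤ (1 + Real.log D) ^ ((N : ℝ) / (N + 1)) := by
      apply Real.rpow_nonneg
      linarith
    calc C₁ * (1 + Real.log D') ^ ((N : ℝ) / (N + 1)) ≤
        C₁ * (1 + Real.log D) ^ ((N : ℝ) / (N + 1)) := by gcongr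
      _ ≤ (C₁ * finrank k K) * (1 + Real.log D) ^ ((N : ℝ) / (N + 1)) := by
        apply mul_le_mul_of_nonneg_right _ h7
        nlinarith
  have h6 : C₁ * D' * ((e * finrank k K : ℕ) : ℝ) ≤ C₁ * finrank k K * D * e := by
    push_cast
    calc C₁ * D' * (e * finrank k K) = (C₁ * (e * finrank k K)) * D' := by ring
      _ ≤ (C₁ * (e * finrank k K)) * D := by gcongr
      _ = _ := by ring
  have h7 : 0 < C₁ * D' * ((e * finrank k K : ℕ) : ℝ) := by
    push_cast
    positivity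
  calc Real.exp (-(C₁ * finrank k K * (1 + Real.log D) ^ ((N : ℝ) / (N + 1)))) /
        (C₁ * finrank k K * D * e) ≤
      Real.exp (-(C₁ * (1 + Real.log D') ^ ((N : ℝ) / (N + 1)))) /
        (C₁ * D' * ((e * finrank k K : ℕ) : ℝ)) := by
        gcongr
    _ = _ := rfl

end

end Pool.Agent.H627.LP
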